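import Mathlib

set_option autoImplicit false

namespace Pool.Agent.H59.Ex

open Complex

/-- the standard primitive `n`-th root of unity -/
noncomputable def pr (n : ℕ) : ℂ := Complex.exp (2 * Real.pi * Complex.I / n)

theorem pr_prim {n : ℕ} (hn : n ≠ 0) : IsPrimitiveRoot (pr n) n :=
  Complex.isPrimitiveRoot_exp n hn

theorem pr_pow_mul (c a : ℕ) (ha : a ≠ 0) : pr (c * a) ^ a = pr c := by
  unfold pr
  rw [← Complex.exp_nat_mul]
  congr 1
  rcases eq_or_ne c 0 with rfl | hc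
  · simp
  · have h1 : (a : ℂ) ≠ 0 := by exact_mod_cast ha
    have h2 : (c : ℂ) ≠ 0 := by exact_mod_cast hc
    push_cast
    field_simp

/-- A sequence of roots of unity which are the images of the powers of `pr c` under a Moebius
transformation `T` with `T 0 ≠ 0, ∞`. -/
structure Good (c : ℕ) (w : ℕ → ℂ) : Prop where
  root : ∃ n : ℕ, 0 < n ∧ ∀ j, w j ^ n = 1
  mob : ∃ α β γ δ : ℂ, α * δ - β * γ ≠ 0 ∧ β ≠ 0 ∧ δ ≠ 0 ∧
    ∀ j : ℕ, γ * pr c ^ j + δ ≠ 0 ∧ α * pr c ^ j + β = w j * (γ * pr c ^ j + δ)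

variable {c : ℕ} {w : ℕ → ℂ}

theorem Good.ne_zero (h : Good c w) (j : ℕ) : w j ≠ 0 := by
  obtain ⟨n, hn, h1⟩ := h.root
  intro h0
  have := h1 j
  rw [h0, zero_pow hn.ne'] at this
  exact zero_ne_one this

theorem Good.cross (h : Good c w) (i j k l : ℕ) :
    (pr c ^ i - pr c ^ k) * (pr c ^ j - pr c ^ l) * ((w i - w l) * (w j - w k)) =
      (pr c ^ i - pr c ^ l) * (pr c ^ j - pr c ^ k) * ((w i - w k) * (w j - w l)) := by
  obtain ⟨α, β, γ, δ, hD, -, -, hT⟩ := h.mob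
  have key : ∀ m n : ℕ, (w m - w n) * ((γ * pr c ^ m + δ) * (γ * pr c ^ n + δ)) =
      (α * δ - β * γ) * (pr c ^ m - pr c ^ n) := by
    intro m n
    have h1 := (hT m).2
    have h2 := (hT n).2
    linear_combination (-(γ * pr c ^ n + δ)) * h1 + (γ * pr c ^ m + δ) * h2
  have hne : (γ * pr c ^ i + δ) * (γ * pr c ^ j + δ) * (γ * pr c ^ k + δ) * (γ * pr c ^ l + δ) ≠ 0 :=
    mul_ne_zero (mul_ne_zero (mul_ne_zero (hT i).1 (hT j).1) (hT k).1) (hT l).1
  apply mul_right_cancel₀ hne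
  have e1 := key i l
  have e2 := key j k
  have e3 := key i k
  have e4 := key j l
  calc _ = (pr c ^ i - pr c ^ k) * (pr c ^ j - pr c ^ l) *
        (((w i - w l) * ((γ * pr c ^ i + δ) * (γ * pr c ^ l + δ))) *
          ((w j - w k) * ((γ * pr c ^ j + δ) * (γ * pr c ^ k + δ)))) := by ring
    _ = (pr c ^ i - pr c ^ l) * (pr c ^ j - pr c ^ k) *
        (((w i - w k) * ((γ * pr c ^ i + δ) * (γ * pr c ^ k + δ))) *
          ((w j - w l) * ((γ * pr c ^ j + δ) * (γ * pr c ^ l + δ)))) := by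
        rw [e1, e2, e3, e4]; ring
    _ = _ := by ring

/-- the symmetric form of the cross ratio relation -/
theorem Good.sym (h : Good c w) (i j k l : ℕ) :
    (pr c ^ i - pr c ^ j) * (pr c ^ k - pr c ^ l) * (w i * w j + w k * w l)
    - (pr c ^ i - pr c ^ k) * (pr c ^ j - pr c ^ l) * (w i * w k + w j * w l)
    + (pr c ^ i - pr c ^ l) * (pr c ^ j - pr c ^ k) * (w i * w l + w j * w k) = 0 := by
  linear_combination h.cross i j k l

theorem Good.inj (h : Good c w) {i j : ℕ} (hij : pr c ^ i ≠ pr c ^ j) : w i ≠ w j := by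
  obtain ⟨α, β, γ, δ, hD, -, -, hT⟩ := h.mob
  intro he
  have h1 := (hT i).2
  have h2 := (hT j).2
  have : (α * δ - β * γ) * (pr c ^ i - pr c ^ j) = 0 := by
    rw [he] at h1
    linear_combination (γ * pr c ^ j + δ) * h1 - (γ * pr c ^ i + δ) * h2
  rcases mul_eq_zero.1 this with h3 | h3
  · exact hD h3
  · exact hij (sub_eq_zero.1 h3)

theorem Good.congr (h : Good c w) {i j : ℕ} (hij : pr c ^ i = pr c ^ j) : w i = w j := by
  obtain ⟨α, β, γ, δ, hD, -, -, hT⟩ := h.mob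
  have h1 := (hT i).2
  have h2 := (hT j).2
  have h3 := (hT j).1
  rw [hij] at h1
  exact mul_right_cancel₀ h3 (h1.symm.trans h2)

theorem quad_zero {a b d x y z : ℂ} (hxy : x ≠ y) (hyz : y ≠ z) (hxz : x ≠ z)
    (hx : a * x ^ 2 + b * x + d = 0) (hy : a * y ^ 2 + b * y + d = 0)
    (hz : a * z ^ 2 + b * z + d = 0) : a = 0 ∧ b = 0 ∧ d = 0 := by
  have h1 : (x - y) * (a * (x + y) + b) = 0 := by linear_combination hx - hy
  have h2 : (y - z) * (a * (y + z) + b) = 0 := by linear_combination hy - hz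
  have h1' := (mul_eq_zero.1 h1).resolve_left (sub_ne_zero.2 hxy)
  have h2' := (mul_eq_zero.1 h2).resolve_left (sub_ne_zero.2 hyz)
  have h3 : (x - z) * a = 0 := by linear_combination h1' - h2'
  have ha := (mul_eq_zero.1 h3).resolve_left (sub_ne_zero.2 hxz)
  have hb : b = 0 := by rw [ha] at h1'; linear_combination h1'
  refine ⟨ha, hb, ?_⟩
  rw [ha, hb] at hx
  linear_combination hx

theorem Good.not_rot (h : Good c w) {i j k : ℕ} (κ : ℂ) (hij : pr c ^ i ≠ pr c ^ j)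
    (hjk : pr c ^ j ≠ pr c ^ k) (hik : pr c ^ i ≠ pr c ^ k)
    (h1 : w i = κ * pr c ^ i) (h2 : w j = κ * pr c ^ j) (h3 : w k = κ * pr c ^ k) : False := by
  obtain ⟨α, β, γ, δ, hD, hβ, -, hT⟩ := h.mob
  have e1 := (hT i).2
  have e2 := (hT j).2
  have e3 := (hT k).2
  rw [h1] at e1
  rw [h2] at e2
  rw [h3] at e3
  have := quad_zero (a := κ * γ) (b := κ * δ - α) (d := -β) hij hjk hik
    (by linear_combination -e1) (by linear_combination -e2) (by linear_combination -e3)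
  exact hβ (by linear_combination -this.2.2)

theorem Good.not_inv (h : Good c w) {i j k : ℕ} (κ : ℂ) (hij : pr c ^ i ≠ pr c ^ j)
    (hjk : pr c ^ j ≠ pr c ^ k) (hik : pr c ^ i ≠ pr c ^ k)
    (h1 : w i * pr c ^ i = κ) (h2 : w j * pr c ^ j = κ) (h3 : w k * pr c ^ k = κ) : False := by
  obtain ⟨α, β, γ, δ, hD, -, hδ, hT⟩ := h.mob
  have e1 := (hT i).2
  have e2 := (hT j).2
  have e3 := (hT k).2
  have := quad_zero (a := α) (b := β - κ * γ) (d := - (κ * δ)) hij hjk hik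
    (by linear_combination pr c ^ i * e1 + (γ * pr c ^ i + δ) * h1)
    (by linear_combination pr c ^ j * e2 + (γ * pr c ^ j + δ) * h2)
    (by linear_combination pr c ^ k * e3 + (γ * pr c ^ k + δ) * h3)
  have hκ : κ = 0 := by
    rcases mul_eq_zero.1 (neg_eq_zero.1 this.2.2) with h4 | h4
    · exact h4
    · exact absurd h4 hδ
  rw [hκ] at h1
  rcases mul_eq_zero.1 h1 with h4 | h4
  · exact h.ne_zero i h4
  · exact (pow_ne_zero _ (Complex.exp_ne_zero _)) h4

/-- rotations of the source and of the target -/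
theorem Good.rotate (h : Good c w) (s : ℕ) {κ : ℂ} (hκ : ∃ n : ℕ, 0 < n ∧ κ ^ n = 1) :
    Good c (fun j => κ * w (j + s)) := by
  obtain ⟨n, hn, h1⟩ := h.root
  obtain ⟨m, hm, h2⟩ := hκ
  have hκ0 : κ ≠ 0 := by
    intro h0
    rw [h0, zero_pow hm.ne'] at h2
    exact zero_ne_one h2
  obtain ⟨α, β, γ, δ, hD, hβ, hδ, hT⟩ := h.mob
  have hs : pr c ^ s ≠ 0 := pow_ne_zero _ (Complex.exp_ne_zero _)
  refine ⟨⟨m * n, Nat.mul_pos hm hn, fun j => ?_⟩, ⟨κ * α * pr c ^ s, κ * β, γ * pr c ^ s, δ, ?_, ?_, hδ, ?_⟩⟩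
  · rw [mul_pow, pow_mul, h2, one_pow, one_mul, mul_comm m n, pow_mul, h1, one_pow]
  · have : κ * α * pr c ^ s * δ - κ * β * (γ * pr c ^ s) = κ * pr c ^ s * (α * δ - β * γ) := by ring
    rw [this]
    exact mul_ne_zero (mul_ne_zero hκ0 hs) hD
  · exact mul_ne_zero hκ0 hβ
  · intro j
    obtain ⟨h3, h4⟩ := hT (j + s)
    rw [pow_add] at h3 h4
    refine ⟨?_, ?_⟩
    · intro h5; apply h3; linear_combination h5
    · linear_combination κ * h4

theorem Good.normalize (h : Good c w) : Good c (fun j => (w 0)⁻¹ * w j) := by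
  have := h.rotate 0 (κ := (w 0)⁻¹) (by
    obtain ⟨n, hn, h1⟩ := h.root
    exact ⟨n, hn, by rw [inv_pow, h1, inv_one]⟩)
  simpa using this

/-- restriction to a subgroup -/
theorem Good.restrict {c b : ℕ} {w : ℕ → ℂ} (hb : b ≠ 0) (h : Good (c * b) w) :
    Good c (fun j => w (b * j)) := by
  obtain ⟨n, hn, h1⟩ := h.root
  obtain ⟨α, β, γ, δ, hD, hβ, hδ, hT⟩ := h.mob
  refine ⟨⟨n, hn, fun j => h1 _⟩, ⟨α, β, γ, δ, hD, hβ, hδ, fun j => ?_⟩⟩
  have := hT (b * j)
  rw [pow_mul, pr_pow_mul c b hb] at this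
  exact this

/-- inversion of the target -/
theorem Good.inv (h : Good c w) : Good c (fun j => (w j)⁻¹) := by
  obtain ⟨n, hn, h1⟩ := h.root
  obtain ⟨α, β, γ, δ, hD, hβ, hδ, hT⟩ := h.mob
  refine ⟨⟨n, hn, fun j => by rw [inv_pow, h1, inv_one]⟩, ⟨γ, δ, α, β, ?_, hδ, hβ, fun j => ?_⟩⟩
  · intro h5; apply hD; linear_combination -h5
  · obtain ⟨h3, h4⟩ := hT j
    have h5 := h.ne_zero j
    refine ⟨?_, ?_⟩
    · rw [h4]; exact mul_ne_zero h5 h3
    · rw [h4]; field_simp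

/-- transfer of polynomial relations from `pr N` to primitive roots in any field -/
theorem transfer {N : ℕ} (hN : N ≠ 0) {K : Type*} [Field K] {g : K} (hg : IsPrimitiveRoot g N)
    (P : Polynomial ℤ) (hP : Polynomial.aeval (pr N) P = 0) : Polynomial.aeval g P = 0 := by
  have h1 : Polynomial.cyclotomic N ℤ ∣ P := by
    rw [Polynomial.cyclotomic_eq_minpoly (pr_prim hN) (Nat.pos_of_ne_zero hN)]
    exact minpoly.isIntegrallyClosed_dvd ((pr_prim hN).isIntegral (Nat.pos_of_ne_zero hN)) hP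
  obtain ⟨Q, rfl⟩ := h1
  have h2 : Polynomial.aeval g (Polynomial.cyclotomic N ℤ) = 0 := by
    rw [Polynomial.aeval_def, Polynomial.eval₂_eq_eval_map, Polynomial.map_cyclotomic]
    exact hg.isRoot_cyclotomic (Nat.pos_of_ne_zero hN)
  rw [map_mul, h2, zero_mul]

end Pool.Agent.H59.Ex
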