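import Pool.Agent.H59.Ex.Basic

set_option autoImplicit false

namespace Pool.Agent.H59.Ex

open Complex Finset

/-! ### Orthogonality -/

theorem pr_ne_zero (n : ℕ) : pr n ≠ 0 := Complex.exp_ne_zero _

theorem sum_pow_pr {l : ℕ} (hl : 0 < l) (n : ℕ) :
    ∑ m ∈ range l, pr l ^ (m * n) = if (l ∣ n) then (l : ℂ) else 0 := by
  have hp := pr_prim hl.ne'
  have e : ∀ m ∈ range l, pr l ^ (m * n) = (pr l ^ n) ^ m := by
    intro m _
    rw [← pow_mul, mul_comm]
  rw [Finset.sum_congr rfl e]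
  split_ifs with h
  · rw [(hp.pow_eq_one_iff_dvd n).2 h]; simp
  · have h1 : pr l ^ n ≠ 1 := fun h2 => h ((hp.pow_eq_one_iff_dvd n).1 h2)
    have h2 : (pr l ^ n) ^ l = 1 := by rw [← pow_mul, mul_comm, pow_mul, hp.pow_eq_one, one_pow]
    have h3 := mul_geom_sum (pr l ^ n) l
    rw [h2, sub_self] at h3
    exact (mul_eq_zero.1 h3).resolve_left (sub_ne_zero.2 h1)

theorem class_sum {ι : Type} [Fintype ι] {l : ℕ} (hl : 0 < l) (b : ι → ℂ) (e : ι → ℕ)
    (h : ∀ m < l, ∑ x, b x * pr l ^ (m * e x) = 0) (ρ : ZMod l) :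
    ∑ x, (if ((e x : ℕ) : ZMod l) = ρ then b x else 0) = 0 := by
  have : NeZero l := ⟨hl.ne'⟩
  have h1 : ∑ m ∈ range l, pr l ^ (m * (l - ρ.val)) * ∑ x, b x * pr l ^ (m * e x) = 0 := by
    apply Finset.sum_eq_zero
    intro m hm
    rw [h m (Finset.mem_range.1 hm), mul_zero]
  have h2 : ∑ m ∈ range l, pr l ^ (m * (l - ρ.val)) * ∑ x, b x * pr l ^ (m * e x) =
      ∑ x, b x * (if (l ∣ (l - ρ.val + e x)) then (l : ℂ) else 0) := by
    simp_rw [Finset.mul_sum]
    rw [Finset.sum_comm]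
    apply Finset.sum_congr rfl
    intro x _
    rw [← sum_pow_pr hl, Finset.mul_sum]
    apply Finset.sum_congr rfl
    intro m _
    rw [mul_add, pow_add]
    ring
  rw [h2] at h1
  have h3 : ∀ x, (l ∣ (l - ρ.val + e x)) ↔ ((e x : ℕ) : ZMod l) = ρ := by
    intro x
    rw [← ZMod.natCast_eq_zero_iff]
    have hlt := ZMod.val_lt ρ
    rw [Nat.cast_add, Nat.cast_sub hlt.le, ZMod.natCast_self, ZMod.natCast_zmod_val, zero_sub]
    constructor
    · intro h4; linear_combination h4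
    · intro h4; rw [h4]; ring
  have h4 : (l : ℂ) * ∑ x, (if ((e x : ℕ) : ZMod l) = ρ then b x else 0) = 0 := by
    rw [Finset.mul_sum]
    refine Eq.trans ?_ h1
    apply Finset.sum_congr rfl
    intro x _
    by_cases h5 : ((e x : ℕ) : ZMod l) = ρ
    · rw [if_pos h5, if_pos ((h3 x).2 h5)]; ring
    · rw [if_neg h5, if_neg (fun h6 => h5 ((h3 x).1 h6))]; ring
  have hl' : (l : ℂ) ≠ 0 := by exact_mod_cast hl.ne'
  exact (mul_eq_zero.1 h4).resolve_left hl'

theorem missing {ι : Type} [Fintype ι] {l : ℕ} (hl : 0 < l) (b : ι → ℂ) (e : ι → ℕ) (m0 : ℕ)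
    (hm0 : m0 < l) (h : ∀ m < l, m ≠ m0 → ∑ x, b x * pr l ^ (m * e x) = 0) (ρ : ZMod l)
    (hρ : ∀ x, ((e x : ℕ) : ZMod l) ≠ ρ) : ∑ x, b x * pr l ^ (m0 * e x) = 0 := by
  have : NeZero l := ⟨hl.ne'⟩
  have h2 : ∑ m ∈ range l, pr l ^ (m * (l - ρ.val)) * ∑ x, b x * pr l ^ (m * e x) =
      ∑ x, b x * (if (l ∣ (l - ρ.val + e x)) then (l : ℂ) else 0) := by
    simp_rw [Finset.mul_sum]
    rw [Finset.sum_comm]
    apply Finset.sum_congr rfl
    intro x _
    rw [← sum_pow_pr hl, Finset.mul_sum]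
    apply Finset.sum_congr rfl
    intro m _
    rw [mul_add, pow_add]
    ring
  have h3 : ∀ x, ¬ (l ∣ (l - ρ.val + e x)) := by
    intro x h5
    apply hρ x
    rw [← ZMod.natCast_eq_zero_iff] at h5
    have hlt := ZMod.val_lt ρ
    rw [Nat.cast_add, Nat.cast_sub hlt.le, ZMod.natCast_self, ZMod.natCast_zmod_val, zero_sub] at h5
    linear_combination h5
  have h4 : ∑ x, b x * (if (l ∣ (l - ρ.val + e x)) then (l : ℂ) else 0) = 0 := by
    apply Finset.sum_eq_zero
    intro x _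
    rw [if_neg (h3 x), mul_zero]
  rw [h4, Finset.sum_eq_single_of_mem m0 (Finset.mem_range.2 hm0)] at h2
  · exact (mul_eq_zero.1 h2).resolve_left (pow_ne_zero _ (pr_ne_zero l))
  · intro m hm hne
    rw [h m (Finset.mem_range.1 hm) hne, mul_zero]

/-! ### Galois conjugates -/

theorem transferC {N : ℕ} (hN : N ≠ 0) {s : ℕ} (hs : Nat.Coprime s N)
    (P : Polynomial ℤ) (hP : Polynomial.aeval (pr N) P = 0) :
    Polynomial.aeval (pr N ^ s) P = 0 :=
  transfer hN ((pr_prim hN).pow_of_coprime s hs) P hP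

/-- the situation: `w j = pr (c * (l * b)) ^ t j`. -/
theorem galois {c l b : ℕ} {w : ℕ → ℂ} {t : ℕ → ℕ} (hc : c ≠ 0) (hl : l ≠ 0) (hb : b ≠ 0)
    (h : Good c w) (ht : ∀ j, w j = pr (c * (l * b)) ^ t j) {m : ℕ}
    (hm : Nat.Coprime (1 + c * b * m) (c * (l * b))) (i j k n : ℕ) :
    (pr c ^ i - pr c ^ j) * (pr c ^ k - pr c ^ n) *
        (w i * w j * pr l ^ (m * (t i + t j)) + w k * w n * pr l ^ (m * (t k + t n)))
    - (pr c ^ i - pr c ^ k) * (pr c ^ j - pr c ^ n) *
        (w i * w k * pr l ^ (m * (t i + t k)) + w j * w n * pr l ^ (m * (t j + t n)))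
    + (pr c ^ i - pr c ^ n) * (pr c ^ j - pr c ^ k) *
        (w i * w n * pr l ^ (m * (t i + t n)) + w j * w k * pr l ^ (m * (t j + t k))) = 0 := by
  set N := c * (l * b) with hN
  have hN0 : N ≠ 0 := mul_ne_zero hc (mul_ne_zero hl hb)
  have hz : pr c = pr N ^ (l * b) := (pr_pow_mul c (l * b) (mul_ne_zero hl hb)).symm
  have hω : pr l = pr N ^ (c * b) := by
    have := pr_pow_mul l (c * b) (mul_ne_zero hc hb)
    rw [← this, hN]; congr 2; ring
  let P : Polynomial ℤ :=
    (Polynomial.X ^ (l * b * i) - Polynomial.X ^ (l * b * j)) *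
      (Polynomial.X ^ (l * b * k) - Polynomial.X ^ (l * b * n)) *
        (Polynomial.X ^ (t i + t j) + Polynomial.X ^ (t k + t n))
    - (Polynomial.X ^ (l * b * i) - Polynomial.X ^ (l * b * k)) *
      (Polynomial.X ^ (l * b * j) - Polynomial.X ^ (l * b * n)) *
        (Polynomial.X ^ (t i + t k) + Polynomial.X ^ (t j + t n))
    + (Polynomial.X ^ (l * b * i) - Polynomial.X ^ (l * b * n)) *
      (Polynomial.X ^ (l * b * j) - Polynomial.X ^ (l * b * k)) *
        (Polynomial.X ^ (t i + t n) + Polynomial.X ^ (t j + t k))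
  have hP : Polynomial.aeval (pr N) P = 0 := by
    have h1 := h.sym i j k n
    simp only [ht, hz, ← pow_mul] at h1
    simp only [P, map_add, map_sub, map_mul, map_pow, Polynomial.aeval_X]
    rw [← h1]; ring
  have h2 := transferC hN0 hm P hP
  have hone : pr N ^ N = 1 := (pr_prim hN0).pow_eq_one
  have e1 : ∀ x : ℕ, (pr N ^ (1 + c * b * m)) ^ (l * b * x) = pr c ^ x := by
    intro x
    rw [hz, ← pow_mul, ← pow_mul]
    have : (1 + c * b * m) * (l * b * x) = l * b * x + N * (b * m * x) := by rw [hN]; ring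
    rw [this, pow_add, pow_mul (pr N) N, hone, one_pow, mul_one]
  have e2 : ∀ x : ℕ, (pr N ^ (1 + c * b * m)) ^ x = pr N ^ x * pr l ^ (m * x) := by
    intro x
    rw [hω, ← pow_mul, ← pow_mul, ← pow_add]
    congr 1; ring
  simp only [P, map_add, map_sub, map_mul, map_pow, Polynomial.aeval_X] at h2
  rw [e1, e1, e1, e1] at h2
  simp only [e2] at h2
  simp only [ht]
  rw [← h2]
  ring

/-- the six coefficients -/
noncomputable def cf (c : ℕ) (w : ℕ → ℂ) (i j k n : ℕ) : Fin 6 → ℂ :=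
  ![(pr c ^ i - pr c ^ j) * (pr c ^ k - pr c ^ n) * (w i * w j),
    (pr c ^ i - pr c ^ j) * (pr c ^ k - pr c ^ n) * (w k * w n),
    -((pr c ^ i - pr c ^ k) * (pr c ^ j - pr c ^ n) * (w i * w k)),
    -((pr c ^ i - pr c ^ k) * (pr c ^ j - pr c ^ n) * (w j * w n)),
    (pr c ^ i - pr c ^ n) * (pr c ^ j - pr c ^ k) * (w i * w n),
    (pr c ^ i - pr c ^ n) * (pr c ^ j - pr c ^ k) * (w j * w k)]

/-- the six exponents -/
def ex (t : ℕ → ℕ) (i j k n : ℕ) : Fin 6 → ℕ :=
  ![t i + t j, t k + t n, t i + t k, t j + t n, t i + t n, t j + t k]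

section
variable {c l b : ℕ} {w : ℕ → ℂ} {t : ℕ → ℕ}

theorem galois_sum (hc : c ≠ 0) (hl : l ≠ 0) (hb : b ≠ 0)
    (h : Good c w) (ht : ∀ j, w j = pr (c * (l * b)) ^ t j) {m : ℕ}
    (hm : Nat.Coprime (1 + c * b * m) (c * (l * b))) (i j k n : ℕ) :
    ∑ x, cf c w i j k n x * pr l ^ (m * ex t i j k n x) = 0 := by
  rw [← galois hc hl hb h ht hm i j k n]
  simp only [cf, ex, Fin.sum_univ_six, Matrix.cons_val]
  ring

theorem coprime_of_not_dvd (hl : l.Prime) {m : ℕ} (hm : ¬ l ∣ 1 + c * b * m) :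
    Nat.Coprime (1 + c * b * m) (c * (l * b)) := by
  have h1 : Nat.Coprime (1 + c * b * m) (c * b) := by
    rw [Nat.coprime_add_mul_left_left]
    exact Nat.coprime_one_left _
  have h2 : Nat.Coprime (1 + c * b * m) l := ((Nat.Prime.coprime_iff_not_dvd hl).2 hm).symm
  have : c * (l * b) = c * b * l := by ring
  rw [this]
  exact Nat.Coprime.mul_right h1 h2

/-- all class sums vanish, if `l` divides `c * b` or if some residue class is missing -/
theorem class_sum_zero (hc : c ≠ 0) (hl : l.Prime) (hb : b ≠ 0)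
    (h : Good c w) (ht : ∀ j, w j = pr (c * (l * b)) ^ t j) (i j k n : ℕ)
    (hcase : l ∣ c * b ∨ ∃ ρ : ZMod l, ∀ x, ((ex t i j k n x : ℕ) : ZMod l) ≠ ρ) (ρ : ZMod l) :
    ∑ x, (if ((ex t i j k n x : ℕ) : ZMod l) = ρ then cf c w i j k n x else 0) = 0 := by
  have : Fact l.Prime := ⟨hl⟩
  apply class_sum hl.pos
  by_cases hd : l ∣ c * b
  · intro m _
    apply galois_sum hc hl.ne_zero hb h ht
    apply coprime_of_not_dvd hl
    intro h1
    have h2 : l ∣ c * b * m := Dvd.dvd.mul_right hd m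
    have h3 : l ∣ 1 := (Nat.dvd_add_left h2).1 h1
    exact hl.one_lt.ne' (Nat.dvd_one.1 h3)
  · rcases hcase with hd' | ⟨ρ0, hρ0⟩
    · exact absurd hd' hd
    have hu : ((c * b : ℕ) : ZMod l) ≠ 0 := by
      intro h1; exact hd ((ZMod.natCast_eq_zero_iff _ _).1 h1)
    have hiff : ∀ m : ℕ, l ∣ 1 + c * b * m ↔ (m : ZMod l) = -((c * b : ℕ) : ZMod l)⁻¹ := by
      intro m
      rw [← ZMod.natCast_eq_zero_iff, show ((1 + c * b * m : ℕ) : ZMod l) =
        1 + ((c * b : ℕ) : ZMod l) * (m : ZMod l) by push_cast; ring]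
      generalize ((c * b : ℕ) : ZMod l) = u at hu
      constructor
      · intro h1
        have h2 : u * (m : ZMod l) = -1 := by linear_combination h1
        rw [eq_neg_iff_add_eq_zero]
        have h3 : u * ((m : ZMod l) + u⁻¹) = 0 := by rw [mul_add, mul_inv_cancel₀ hu, h2]; ring
        exact (mul_eq_zero.1 h3).resolve_left hu
      · intro h1
        rw [h1, mul_neg, mul_inv_cancel₀ hu]
        ring
    set m0 : ℕ := (-((c * b : ℕ) : ZMod l)⁻¹ : ZMod l).val with hm0
    have hm0lt : m0 < l := ZMod.val_lt _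
    have hA : ∀ m < l, m ≠ m0 → ∑ x, cf c w i j k n x * pr l ^ (m * ex t i j k n x) = 0 := by
      intro m hm hne
      apply galois_sum hc hl.ne_zero hb h ht
      apply coprime_of_not_dvd hl
      intro h1
      apply hne
      have h2 := (hiff m).1 h1
      rw [hm0, ← h2, ZMod.val_natCast, Nat.mod_eq_of_lt hm]
    intro m hm
    by_cases hne : m = m0
    · rw [hne]
      exact missing hl.pos _ _ m0 hm0lt hA ρ0 hρ0
    · exact hA m hm hne

theorem exists_missing {l r : ℕ} (hl : 0 < l) (f : Fin r → ZMod l) (hr : r < l) :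
    ∃ ρ : ZMod l, ∀ x, f x ≠ ρ := by
  have : NeZero l := ⟨hl.ne'⟩
  by_contra hcon
  push Not at hcon
  have hs : Function.Surjective f := hcon
  have := Fintype.card_le_of_surjective f hs
  rw [ZMod.card, Fintype.card_fin] at this
  omega

/-- three equal residues force the fourth one -/
theorem three_equal (hc : c ≠ 0) (hl : l.Prime) (hb : b ≠ 0)
    (h : Good c w) (ht : ∀ j, w j = pr (c * (l * b)) ^ t j) (hcase : l ∣ c * b ∨ 3 ≤ l)
    {i j k n : ℕ} (hij : pr c ^ i ≠ pr c ^ j) (hik : pr c ^ i ≠ pr c ^ k) (hin : pr c ^ i ≠ pr c ^ n)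
    (hjk : pr c ^ j ≠ pr c ^ k) (hjn : pr c ^ j ≠ pr c ^ n) (hkn : pr c ^ k ≠ pr c ^ n)
    (h1 : ((t i : ℕ) : ZMod l) = t j) (h2 : ((t i : ℕ) : ZMod l) = t k) :
    ((t n : ℕ) : ZMod l) = t i := by
  have : Fact l.Prime := ⟨hl⟩
  have : NeZero l := ⟨hl.ne_zero⟩
  -- choose an admissible exponent
  obtain ⟨m, hm1, hm2⟩ : ∃ m : ℕ, ¬ l ∣ m ∧ ¬ l ∣ 1 + c * b * m := by
    rcases hcase with hd | h3
    · refine ⟨1, ?_, ?_⟩
      · intro h4; exact hl.one_lt.ne' (Nat.dvd_one.1 h4)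
      · intro h4
        have h5 : l ∣ c * b * 1 := Dvd.dvd.mul_right hd 1
        have h6 : l ∣ 1 := (Nat.dvd_add_left h5).1 h4
        exact hl.one_lt.ne' (Nat.dvd_one.1 h6)
    · by_cases h4 : l ∣ 1 + c * b * 1
      · refine ⟨2, ?_, ?_⟩
        · intro h5; have := Nat.le_of_dvd (by norm_num) h5; omega
        · intro h5
          have h6 : l ∣ (1 + c * b * 1) * 2 := Dvd.dvd.mul_right h4 2
          have h7 : (1 + c * b * 1) * 2 = 1 + (1 + c * b * 2) := by ring
          rw [h7] at h6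
          have h8 : l ∣ 1 := (Nat.dvd_add_left h5).1 h6
          exact hl.one_lt.ne' (Nat.dvd_one.1 h8)
      · exact ⟨1, fun h5 => hl.one_lt.ne' (Nat.dvd_one.1 h5), h4⟩
  have hg1 := galois hc hl.ne_zero hb h ht (coprime_of_not_dvd hl hm2) i j k n
  have hg0 := h.sym i j k n
  have hprim := pr_prim hl.ne_zero
  have hpow : ∀ x y : ℕ, ((x : ℕ) : ZMod l) = y → pr l ^ x = pr l ^ y := by
    intro x y hxy
    rw [ZMod.natCast_eq_natCast_iff] at hxy
    exact pow_eq_pow_of_modEq hxy hprim.pow_eq_one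
  by_contra hne
  set U := pr l ^ (m * t i) with hU
  set V := pr l ^ (m * t n) with hV
  have hUV : U ≠ V := by
    intro heq
    have h3 : (m * t i) ≡ (m * t n) [MOD l] := by
      have := (hprim.isOfFinOrder hl.ne_zero).pow_eq_pow_iff_modEq.1 heq
      rwa [← hprim.eq_orderOf] at this
    rw [← ZMod.natCast_eq_natCast_iff] at h3
    push_cast at h3
    have hm0 : ((m : ℕ) : ZMod l) ≠ 0 := fun h4 => hm1 ((ZMod.natCast_eq_zero_iff _ _).1 h4)
    exact hne (mul_left_cancel₀ hm0 h3).symm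
  have hU0 : U ≠ 0 := pow_ne_zero _ (pr_ne_zero l)
  have ej : pr l ^ (m * t j) = U := hpow _ _ (by push_cast; rw [h1])
  have ek : pr l ^ (m * t k) = U := hpow _ _ (by push_cast; rw [h2])
  simp only [mul_add, pow_add] at hg1
  rw [ej, ek, ← hU, ← hV] at hg1
  set A := (pr c ^ i - pr c ^ j) * (pr c ^ k - pr c ^ n) with hA
  set R := (pr c ^ i - pr c ^ k) * (pr c ^ j - pr c ^ n) with hR
  set S := (pr c ^ i - pr c ^ n) * (pr c ^ j - pr c ^ k) with hS
  have hARS : A - R + S = 0 := by rw [hA, hR, hS]; ring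
  have hA0 : A ≠ 0 := mul_ne_zero (sub_ne_zero.2 hij) (sub_ne_zero.2 hkn)
  have hR0 : R ≠ 0 := mul_ne_zero (sub_ne_zero.2 hik) (sub_ne_zero.2 hjn)
  -- the two parts vanish
  have h5 : (U * (U - V)) * (A * (w i * w j) - R * (w i * w k) + S * (w j * w k)) = 0 := by
    linear_combination hg1 - U * V * hg0
  have h6 : A * (w i * w j) - R * (w i * w k) + S * (w j * w k) = 0 :=
    (mul_eq_zero.1 h5).resolve_left (mul_ne_zero hU0 (sub_ne_zero.2 hUV))
  have h7 : w n * (A * w k - R * w j + S * w i) = 0 := by linear_combination hg0 - h6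
  have h8 : A * w k - R * w j + S * w i = 0 := (mul_eq_zero.1 h7).resolve_left (h.ne_zero n)
  have hwij := h.inj hij
  have hwik := h.inj hik
  have hwjk := h.inj hjk
  have h9 : A * (w k - w i) = R * (w j - w i) := by linear_combination h8 - w i * hARS
  have h10 : A * (w j * (w i - w k)) = R * (w k * (w i - w j)) := by
    linear_combination h6 - w j * w k * hARS
  have h11 : A * (w k - w i) * (w j - w k) = 0 := by
    linear_combination -h10 - w k * h9
  rcases mul_eq_zero.1 h11 with h12 | h12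
  · rcases mul_eq_zero.1 h12 with h13 | h13
    · exact hA0 h13
    · exact hwik (sub_eq_zero.1 h13).symm
  · exact hwjk (sub_eq_zero.1 h12)

/-- two equal pairs are impossible -/
theorem two_pairs (hc : c ≠ 0) (hl : l.Prime) (hb : b ≠ 0)
    (h : Good c w) (ht : ∀ j, w j = pr (c * (l * b)) ^ t j) (hodd : l ≠ 2)
    (hcase : l ∣ c * b ∨ 5 ≤ l)
    {i j k n : ℕ} (hij : pr c ^ i ≠ pr c ^ j) (hkn : pr c ^ k ≠ pr c ^ n)
    (h1 : ((t i : ℕ) : ZMod l) = t j) (h2 : ((t k : ℕ) : ZMod l) = t n) :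
    ((t i : ℕ) : ZMod l) = t k := by
  have : Fact l.Prime := ⟨hl⟩
  by_contra hne
  have h2' : (2 : ZMod l) ≠ 0 := by
    intro h3
    have : ((2 : ℕ) : ZMod l) = 0 := by exact_mod_cast h3
    rw [ZMod.natCast_eq_zero_iff] at this
    exact hodd ((Nat.prime_dvd_prime_iff_eq hl Nat.prime_two).1 this)
  have hs := class_sum_zero hc hl hb h ht i j k n (by
    rcases hcase with h3 | h3
    · exact Or.inl h3
    · right
      obtain ⟨ρ, hρ⟩ := exists_missing (r := 3) hl.pos
        ![(t i + t i : ZMod l), (t k + t k : ZMod l), (t i + t k : ZMod l)] (by omega)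
      refine ⟨ρ, ?_⟩
      intro x
      have q0 := hρ 0
      have q1 := hρ 1
      have q2 := hρ 2
      simp only [Matrix.cons_val] at q0 q1 q2
      rw [h1.symm.symm] at q0
      have hx : ((ex t i j k n x : ℕ) : ZMod l) = t i + t i ∨
          ((ex t i j k n x : ℕ) : ZMod l) = t k + t k ∨ ((ex t i j k n x : ℕ) : ZMod l) = t i + t k := by
        fin_cases x
        · left; simp [ex, h1]
        · right; left; simp [ex, h2]
        · right; right; simp [ex]
        · right; right; simp [ex, h1, h2]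
        · right; right; simp [ex, h2]
        · right; right; simp [ex, h1]
      rcases hx with hx | hx | hx <;> rw [hx]
      · rw [h1.symm] at q0; exact q0
      · exact q1
      · exact q2) (t i + t j)
  simp only [cf, ex, Fin.sum_univ_six, Matrix.cons_val] at hs
  push_cast at hs
  simp only [← h1, ← h2] at hs
  have n1 : (t k + t k : ZMod l) ≠ t i + t i := by
    intro h3
    apply hne
    have : (2 : ZMod l) * (t i - t k) = 0 := by linear_combination -h3
    exact sub_eq_zero.1 ((mul_eq_zero.1 this).resolve_left h2')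
  have n2 : (t i + t k : ZMod l) ≠ t i + t i := by
    intro h3; exact hne (add_left_cancel h3).symm
  simp only [if_true, if_neg n1, if_neg n2, add_zero] at hs
  exact mul_ne_zero (mul_ne_zero (sub_ne_zero.2 hij) (sub_ne_zero.2 hkn))
    (mul_ne_zero (h.ne_zero i) (h.ne_zero j)) hs

/-- four different residues are impossible -/
theorem four_distinct (hc : c ≠ 0) (hl : l.Prime) (hb : b ≠ 0)
    (h : Good c w) (ht : ∀ j, w j = pr (c * (l * b)) ^ t j) (hodd : l ≠ 2)
    (hcase : l ∣ c * b ∨ 7 ≤ l)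
    {i j k n : ℕ} (hij : pr c ^ i ≠ pr c ^ j) (hik : pr c ^ i ≠ pr c ^ k) (hin : pr c ^ i ≠ pr c ^ n)
    (hjk : pr c ^ j ≠ pr c ^ k) (hjn : pr c ^ j ≠ pr c ^ n) (hkn : pr c ^ k ≠ pr c ^ n)
    (gij : ((t i : ℕ) : ZMod l) ≠ t j) (gik : ((t i : ℕ) : ZMod l) ≠ t k)
    (gin : ((t i : ℕ) : ZMod l) ≠ t n) (gjk : ((t j : ℕ) : ZMod l) ≠ t k)
    (gjn : ((t j : ℕ) : ZMod l) ≠ t n) (gkn : ((t k : ℕ) : ZMod l) ≠ t n) : False := by
  have : Fact l.Prime := ⟨hl⟩
  have h2' : (2 : ZMod l) ≠ 0 := by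
    intro h3
    have : ((2 : ℕ) : ZMod l) = 0 := by exact_mod_cast h3
    rw [ZMod.natCast_eq_zero_iff] at this
    exact hodd ((Nat.prime_dvd_prime_iff_eq hl Nat.prime_two).1 this)
  have hcs := class_sum_zero hc hl hb h ht i j k n (by
    rcases hcase with h3 | h3
    · exact Or.inl h3
    · right
      exact exists_missing hl.pos _ (by omega))
  have w0 : ∀ x, w x ≠ 0 := h.ne_zero
  -- `t i + t j = t k + t n`
  have s1 : ((t i + t j : ℕ) : ZMod l) = t k + t n := by
    by_contra hne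
    have hs := hcs (t i + t j)
    simp only [cf, ex, Fin.sum_univ_six, Matrix.cons_val] at hs
    push_cast at hs hne
    rw [if_pos rfl, if_neg (fun e => hne e.symm),
      if_neg (fun e => gjk (add_left_cancel e).symm),
      if_neg (fun e => gin ((add_left_cancel (e.trans (add_comm _ _))).symm)),
      if_neg (fun e => gjn (add_left_cancel e).symm),
      if_neg (fun e => gik ((add_left_cancel (e.trans (add_comm _ _))).symm))] at hs
    simp only [add_zero] at hs
    exact mul_ne_zero (mul_ne_zero (sub_ne_zero.2 hij) (sub_ne_zero.2 hkn))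
      (mul_ne_zero (w0 i) (w0 j)) hs
  have s2 : ((t i + t k : ℕ) : ZMod l) = t j + t n := by
    by_contra hne
    have hs := hcs (t i + t k)
    simp only [cf, ex, Fin.sum_univ_six, Matrix.cons_val] at hs
    push_cast at hs hne
    rw [if_neg (fun e => gjk (add_left_cancel e)),
      if_neg (fun e => gin ((add_left_cancel (e.trans (add_comm _ _))).symm)),
      if_pos rfl, if_neg (fun e => hne e.symm),
      if_neg (fun e => gkn (add_left_cancel e).symm),
      if_neg (fun e => gij ((add_right_cancel e)).symm)] at hs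
    simp only [add_zero, zero_add] at hs
    exact (neg_ne_zero.2 (mul_ne_zero (mul_ne_zero (sub_ne_zero.2 hik) (sub_ne_zero.2 hjn))
      (mul_ne_zero (w0 i) (w0 k)))) hs
  push_cast at s1 s2
  have : (2 : ZMod l) * (t j - t k) = 0 := by linear_combination s1 - s2
  exact gjk (sub_eq_zero.1 ((mul_eq_zero.1 this).resolve_left h2'))

end

end Pool.Agent.H59.Ex
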