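import Pool.Agent.H59.Ex.Seq

set_option autoImplicit false
set_option linter.unusedSimpArgs false

namespace Pool.Agent.H59.Ex

open Complex

theorem phi30 : 1 + pr 30 - pr 30 ^ 3 - pr 30 ^ 4 - pr 30 ^ 5 + pr 30 ^ 7 + pr 30 ^ 8 = 0 := by
  have hp := pr_prim (n := 30) (by norm_num)
  have h30 := hp.pow_eq_one
  have n15 : pr 30 ^ 15 ≠ 1 := hp.pow_ne_one_of_pos_of_lt (by norm_num) (by norm_num)
  have n10 : pr 30 ^ 10 ≠ 1 := hp.pow_ne_one_of_pos_of_lt (by norm_num) (by norm_num)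
  have n6 : pr 30 ^ 6 ≠ 1 := hp.pow_ne_one_of_pos_of_lt (by norm_num) (by norm_num)
  generalize pr 30 = x at *
  have h1 : (x ^ 15 - 1) * (x ^ 15 + 1) = 0 := by linear_combination h30
  have h2 := (mul_eq_zero.1 h1).resolve_left (sub_ne_zero.2 n15)
  have h3 : (x ^ 5 + 1) * (x ^ 10 - x ^ 5 + 1) = 0 := by linear_combination h2
  have h4 : x ^ 5 + 1 ≠ 0 := by
    intro h; apply n10; linear_combination (x ^ 5 - 1) * h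
  have h5 := (mul_eq_zero.1 h3).resolve_left h4
  have h6 : (x ^ 2 - x + 1) * (1 + x - x ^ 3 - x ^ 4 - x ^ 5 + x ^ 7 + x ^ 8) = 0 := by
    linear_combination h5
  have h7 : x ^ 2 - x + 1 ≠ 0 := by
    intro h; apply n6; linear_combination (x ^ 3 - 1) * (x + 1) * h
  exact (mul_eq_zero.1 h6).resolve_left h7

theorem phi12 : 1 - pr 12 ^ 2 + pr 12 ^ 4 = 0 := by
  have hp := pr_prim (n := 12) (by norm_num)
  have h12 := hp.pow_eq_one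
  have n6 : pr 12 ^ 6 ≠ 1 := hp.pow_ne_one_of_pos_of_lt (by norm_num) (by norm_num)
  have n4 : pr 12 ^ 4 ≠ 1 := hp.pow_ne_one_of_pos_of_lt (by norm_num) (by norm_num)
  generalize pr 12 = x at *
  have h1 : (x ^ 6 - 1) * (x ^ 6 + 1) = 0 := by linear_combination h12
  have h2 := (mul_eq_zero.1 h1).resolve_left (sub_ne_zero.2 n6)
  have h3 : (x ^ 2 + 1) * (1 - x ^ 2 + x ^ 4) = 0 := by linear_combination h2
  have h4 : x ^ 2 + 1 ≠ 0 := by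
    intro h; apply n4; linear_combination (x ^ 2 - 1) * h
  exact (mul_eq_zero.1 h3).resolve_left h4

theorem nonvan {N q g : ℕ} (hN : 0 < N) (hq : q.Prime) (hg : primChk q g N = true)
    (P : Polynomial ℤ) (hP : Polynomial.aeval ((g : ℕ) : ZMod q) P ≠ 0) :
    Polynomial.aeval (pr N) P ≠ 0 := by
  have : Fact q.Prime := ⟨hq⟩
  intro h
  exact hP (transfer hN.ne' (primChk_sound hN hg) P h)

/-- existence of a Moebius transformation with the given values -/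
def HasMob (c : ℕ) (v : ℕ → ℂ) : Prop :=
  ∃ α β γ δ : ℂ, α * δ - β * γ ≠ 0 ∧ β ≠ 0 ∧ δ ≠ 0 ∧
    ∀ j < c, α * pr c ^ j + β = v j * (γ * pr c ^ j + δ)

theorem ex0 : HasMob 4 (fun j => pr 12 ^ ([0, 1, 3, 10] : List ℕ).getD j 0) := by
  have hg : primChk 13 2 12 = true := by decide +kernel
  have hz : pr 4 = pr 12 ^ 3 := (pr_pow_mul 4 3 (by norm_num)).symm
  have hΦ := phi12
  have hdet := nonvan (N := 12) (by norm_num) (by norm_num) hg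
    ((-Polynomial.X ^ 3) * (1 - Polynomial.X ^ 2) - (Polynomial.X - Polynomial.X ^ 2) * (-1 + Polynomial.X - Polynomial.X ^ 3)) (by
      simp only [map_add, map_sub, map_mul, map_neg, map_pow, Polynomial.aeval_X, map_ofNat, map_one]
      decide +kernel)
  have hβ := nonvan (N := 12) (by norm_num) (by norm_num) hg
    (Polynomial.X - Polynomial.X ^ 2) (by
      simp only [map_add, map_sub, map_mul, map_neg, map_pow, Polynomial.aeval_X, map_ofNat, map_one]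
      decide +kernel)
  have hδ := nonvan (N := 12) (by norm_num) (by norm_num) hg
    (1 - Polynomial.X ^ 2) (by
      simp only [map_add, map_sub, map_mul, map_neg, map_pow, Polynomial.aeval_X, map_ofNat, map_one]
      decide +kernel)
  simp only [map_add, map_sub, map_mul, map_neg, map_pow, Polynomial.aeval_X, map_ofNat, map_one] at hdet hβ hδ
  refine ⟨_, _, _, _, hdet, hβ, hδ, ?_⟩
  rw [hz]
  generalize pr 12 = ζ at hΦ ⊢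
  intro j hj
  interval_cases j
  · simp only [List.getD_cons_succ, List.getD_cons_zero]
    ring
  · simp only [List.getD_cons_succ, List.getD_cons_zero]
    linear_combination (-ζ ^ 2 + ζ ^ 3) * hΦ
  · simp only [List.getD_cons_succ, List.getD_cons_zero]
    linear_combination (ζ - ζ ^ 2 - ζ ^ 4 + ζ ^ 8) * hΦ
  · simp only [List.getD_cons_succ, List.getD_cons_zero]
    linear_combination (ζ - ζ ^ 2 + ζ ^ 3 - ζ ^ 4 - ζ ^ 7 + ζ ^ 8 - ζ ^ 9 - ζ ^ 12 + ζ ^ 13 - ζ ^ 14 + ζ ^ 15 + ζ ^ 18) * hΦ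

theorem ex1 : HasMob 5 (fun j => pr 30 ^ ([0, 3, 6, 12, 24] : List ℕ).getD j 0) := by
  have hg : primChk 31 3 30 = true := by decide +kernel
  have hz : pr 5 = pr 30 ^ 6 := (pr_pow_mul 5 6 (by norm_num)).symm
  have hΦ := phi30
  have hdet := nonvan (N := 30) (by norm_num) (by norm_num) hg
    ((1 + Polynomial.X - 2 * Polynomial.X ^ 4 - Polynomial.X ^ 5 + Polynomial.X ^ 7) * (Polynomial.X - Polynomial.X ^ 7) - (1 - 2 * Polynomial.X + 3 * Polynomial.X ^ 4 - Polynomial.X ^ 5 - Polynomial.X ^ 7) * (2 - 2 * Polynomial.X + Polynomial.X ^ 4 - 2 * Polynomial.X ^ 5 + Polynomial.X ^ 7)) (by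
      simp only [map_add, map_sub, map_mul, map_neg, map_pow, Polynomial.aeval_X, map_ofNat, map_one]
      decide +kernel)
  have hβ := nonvan (N := 30) (by norm_num) (by norm_num) hg
    (1 - 2 * Polynomial.X + 3 * Polynomial.X ^ 4 - Polynomial.X ^ 5 - Polynomial.X ^ 7) (by
      simp only [map_add, map_sub, map_mul, map_neg, map_pow, Polynomial.aeval_X, map_ofNat, map_one]
      decide +kernel)
  have hδ := nonvan (N := 30) (by norm_num) (by norm_num) hg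
    (Polynomial.X - Polynomial.X ^ 7) (by
      simp only [map_add, map_sub, map_mul, map_neg, map_pow, Polynomial.aeval_X, map_ofNat, map_one]
      decide +kernel)
  simp only [map_add, map_sub, map_mul, map_neg, map_pow, Polynomial.aeval_X, map_ofNat, map_one] at hdet hβ hδ
  refine ⟨_, _, _, _, hdet, hβ, hδ, ?_⟩
  rw [hz]
  generalize pr 30 = ζ at hΦ ⊢
  intro j hj
  interval_cases j
  · simp only [List.getD_cons_succ, List.getD_cons_zero]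
    ring
  · simp only [List.getD_cons_succ, List.getD_cons_zero]
    linear_combination (1 - 3 * ζ + 3 * ζ ^ 2 - 2 * ζ ^ 3 + 2 * ζ ^ 4 - 2 * ζ ^ 5 + ζ ^ 6 + ζ ^ 7 - ζ ^ 8) * hΦ
  · simp only [List.getD_cons_succ, List.getD_cons_zero]
    linear_combination (1 - 3 * ζ + 3 * ζ ^ 2 - 2 * ζ ^ 3 + 3 * ζ ^ 4 - 3 * ζ ^ 5 + ζ ^ 6 + ζ ^ 9 - 4 * ζ ^ 10 + 4 * ζ ^ 11 - 2 * ζ ^ 12 + 3 * ζ ^ 13 - 3 * ζ ^ 14 + ζ ^ 15 + ζ ^ 16 - ζ ^ 17) * hΦ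
  · simp only [List.getD_cons_succ, List.getD_cons_zero]
    linear_combination (1 - 3 * ζ + 3 * ζ ^ 2 - 2 * ζ ^ 3 + 3 * ζ ^ 4 - 3 * ζ ^ 5 + ζ ^ 6 + ζ ^ 7 - ζ ^ 8 + 2 * ζ ^ 9 - 4 * ζ ^ 10 + 4 * ζ ^ 11 - 2 * ζ ^ 12 - 2 * ζ ^ 15 + 3 * ζ ^ 16 - 3 * ζ ^ 17 + 2 * ζ ^ 18 - ζ ^ 19 + ζ ^ 20 + ζ ^ 21 - 3 * ζ ^ 22 + 3 * ζ ^ 23 - 2 * ζ ^ 24 + 3 * ζ ^ 25 - 3 * ζ ^ 26 + ζ ^ 27 + ζ ^ 28 - ζ ^ 29) * hΦ
  · simp only [List.getD_cons_succ, List.getD_cons_zero]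
    linear_combination (1 - 3 * ζ + 3 * ζ ^ 2 - 2 * ζ ^ 3 + 3 * ζ ^ 4 - 3 * ζ ^ 5 + ζ ^ 6 + ζ ^ 7 - ζ ^ 8 + 2 * ζ ^ 9 - 4 * ζ ^ 10 + 4 * ζ ^ 11 - 2 * ζ ^ 12 + ζ ^ 13 - ζ ^ 14 - ζ ^ 15 + 3 * ζ ^ 16 - 3 * ζ ^ 17 + 2 * ζ ^ 18 - 3 * ζ ^ 19 + 3 * ζ ^ 20 - ζ ^ 21 - ζ ^ 22 + ζ ^ 23 - ζ ^ 24 + 3 * ζ ^ 25 - 3 * ζ ^ 26 + 2 * ζ ^ 27 - 3 * ζ ^ 28 + 3 * ζ ^ 29 - ζ ^ 30 - ζ ^ 31 + ζ ^ 32 - 2 * ζ ^ 33 + 4 * ζ ^ 34 - 4 * ζ ^ 35 + 2 * ζ ^ 36 - ζ ^ 37 + ζ ^ 38 + ζ ^ 39 - 3 * ζ ^ 40 + 3 * ζ ^ 41 - 2 * ζ ^ 42 + 3 * ζ ^ 43 - 3 * ζ ^ 44 + ζ ^ 45 + ζ ^ 46 - ζ ^ 47) * hΦ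

theorem ex2 : HasMob 5 (fun j => pr 30 ^ ([0, 1, 2, 5, 27] : List ℕ).getD j 0) := by
  have hg : primChk 31 3 30 = true := by decide +kernel
  have hz : pr 5 = pr 30 ^ 6 := (pr_pow_mul 5 6 (by norm_num)).symm
  have hΦ := phi30
  have hdet := nonvan (N := 30) (by norm_num) (by norm_num) hg
    ((2 - Polynomial.X - 2 * Polynomial.X ^ 2 + Polynomial.X ^ 4 + Polynomial.X ^ 6 - Polynomial.X ^ 7) * (1 - Polynomial.X - Polynomial.X ^ 3 + 2 * Polynomial.X ^ 5 + Polynomial.X ^ 6 - 2 * Polynomial.X ^ 7) - (-Polynomial.X + 2 * Polynomial.X ^ 2 - Polynomial.X ^ 3 + Polynomial.X ^ 6 - Polynomial.X ^ 7) * (1 - Polynomial.X + Polynomial.X ^ 4 - 2 * Polynomial.X ^ 5 + Polynomial.X ^ 6)) (by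
      simp only [map_add, map_sub, map_mul, map_neg, map_pow, Polynomial.aeval_X, map_ofNat, map_one]
      decide +kernel)
  have hβ := nonvan (N := 30) (by norm_num) (by norm_num) hg
    (-Polynomial.X + 2 * Polynomial.X ^ 2 - Polynomial.X ^ 3 + Polynomial.X ^ 6 - Polynomial.X ^ 7) (by
      simp only [map_add, map_sub, map_mul, map_neg, map_pow, Polynomial.aeval_X, map_ofNat, map_one]
      decide +kernel)
  have hδ := nonvan (N := 30) (by norm_num) (by norm_num) hg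
    (1 - Polynomial.X - Polynomial.X ^ 3 + 2 * Polynomial.X ^ 5 + Polynomial.X ^ 6 - 2 * Polynomial.X ^ 7) (by
      simp only [map_add, map_sub, map_mul, map_neg, map_pow, Polynomial.aeval_X, map_ofNat, map_one]
      decide +kernel)
  simp only [map_add, map_sub, map_mul, map_neg, map_pow, Polynomial.aeval_X, map_ofNat, map_one] at hdet hβ hδ
  refine ⟨_, _, _, _, hdet, hβ, hδ, ?_⟩
  rw [hz]
  generalize pr 30 = ζ at hΦ ⊢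
  intro j hj
  interval_cases j
  · simp only [List.getD_cons_succ, List.getD_cons_zero]
    ring
  · simp only [List.getD_cons_succ, List.getD_cons_zero]
    linear_combination (-2 * ζ + 5 * ζ ^ 2 - 6 * ζ ^ 3 + 5 * ζ ^ 4 - 2 * ζ ^ 5) * hΦ
  · simp only [List.getD_cons_succ, List.getD_cons_zero]
    linear_combination (-ζ + 2 * ζ ^ 2 - 2 * ζ ^ 3 + ζ ^ 4 + ζ ^ 5 - ζ ^ 6 - ζ ^ 7 + ζ ^ 8 + ζ ^ 9 - 2 * ζ ^ 10 + 2 * ζ ^ 11 - ζ ^ 12) * hΦ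
  · simp only [List.getD_cons_succ, List.getD_cons_zero]
    linear_combination (-ζ + 3 * ζ ^ 2 - 4 * ζ ^ 3 + 3 * ζ ^ 4 - 2 * ζ ^ 5 + 2 * ζ ^ 6 - ζ ^ 7 + ζ ^ 9 - 3 * ζ ^ 10 + 4 * ζ ^ 11 - 3 * ζ ^ 12 + ζ ^ 13 - ζ ^ 15 + 2 * ζ ^ 16 - 2 * ζ ^ 17 + 3 * ζ ^ 18 - 4 * ζ ^ 19 + 3 * ζ ^ 20 - ζ ^ 21) * hΦ
  · simp only [List.getD_cons_succ, List.getD_cons_zero]
    linear_combination (-ζ + 3 * ζ ^ 2 - 4 * ζ ^ 3 + 3 * ζ ^ 4 - ζ ^ 5 + ζ ^ 7 - 2 * ζ ^ 8 + 2 * ζ ^ 9 - ζ ^ 10 + ζ ^ 11 - 2 * ζ ^ 12 + 2 * ζ ^ 13 - ζ ^ 14 + ζ ^ 16 - 3 * ζ ^ 17 + 4 * ζ ^ 18 - 3 * ζ ^ 19 + ζ ^ 20 - ζ ^ 22 + 2 * ζ ^ 23 - 2 * ζ ^ 25 + 2 * ζ ^ 27 - ζ ^ 28 + ζ ^ 30 - 3 * ζ ^ 31 + 4 * ζ ^ 32 - 3 * ζ ^ 33 + ζ ^ 34 - ζ ^ 36 + 2 * ζ ^ 37 - 2 * ζ ^ 38 + ζ ^ 39 - ζ ^ 40 + 2 * ζ ^ 41 - 2 * ζ ^ 42 + ζ ^ 43 - ζ ^ 45 + 3 * ζ ^ 46 - 4 * ζ ^ 47 + 3 * ζ ^ 48 - ζ ^ 49) * hΦ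

theorem ex3 : HasMob 5 (fun j => pr 30 ^ ([0, 2, 4, 9, 25] : List ℕ).getD j 0) := by
  have hg : primChk 31 3 30 = true := by decide +kernel
  have hz : pr 5 = pr 30 ^ 6 := (pr_pow_mul 5 6 (by norm_num)).symm
  have hΦ := phi30
  have hdet := nonvan (N := 30) (by norm_num) (by norm_num) hg
    ((-2 - Polynomial.X + 2 * Polynomial.X ^ 3 + 2 * Polynomial.X ^ 4 - Polynomial.X ^ 6 - 2 * Polynomial.X ^ 7) * (-1 + 2 * Polynomial.X ^ 3 - 2 * Polynomial.X ^ 6) - (1 - Polynomial.X + Polynomial.X ^ 3 - Polynomial.X ^ 4) * (-2 * Polynomial.X + Polynomial.X ^ 3 + Polynomial.X ^ 4 + Polynomial.X ^ 6 - 2 * Polynomial.X ^ 7)) (by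
      simp only [map_add, map_sub, map_mul, map_neg, map_pow, Polynomial.aeval_X, map_ofNat, map_one]
      decide +kernel)
  have hβ := nonvan (N := 30) (by norm_num) (by norm_num) hg
    (1 - Polynomial.X + Polynomial.X ^ 3 - Polynomial.X ^ 4) (by
      simp only [map_add, map_sub, map_mul, map_neg, map_pow, Polynomial.aeval_X, map_ofNat, map_one]
      decide +kernel)
  have hδ := nonvan (N := 30) (by norm_num) (by norm_num) hg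
    (-1 + 2 * Polynomial.X ^ 3 - 2 * Polynomial.X ^ 6) (by
      simp only [map_add, map_sub, map_mul, map_neg, map_pow, Polynomial.aeval_X, map_ofNat, map_one]
      decide +kernel)
  simp only [map_add, map_sub, map_mul, map_neg, map_pow, Polynomial.aeval_X, map_ofNat, map_one] at hdet hβ hδ
  refine ⟨_, _, _, _, hdet, hβ, hδ, ?_⟩
  rw [hz]
  generalize pr 30 = ζ at hΦ ⊢
  intro j hj
  interval_cases j
  · simp only [List.getD_cons_succ, List.getD_cons_zero]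
    ring
  · simp only [List.getD_cons_succ, List.getD_cons_zero]
    linear_combination (1 - 2 * ζ + 3 * ζ ^ 2 - ζ ^ 3 - ζ ^ 4 + ζ ^ 5 - 3 * ζ ^ 6 + 2 * ζ ^ 7) * hΦ
  · simp only [List.getD_cons_succ, List.getD_cons_zero]
    linear_combination (1 - 2 * ζ + 2 * ζ ^ 2 - ζ ^ 4 + 2 * ζ ^ 5 - 2 * ζ ^ 6 + 2 * ζ ^ 8 - 3 * ζ ^ 9 + 3 * ζ ^ 10 - 2 * ζ ^ 11 - 2 * ζ ^ 12 + 3 * ζ ^ 13 - 3 * ζ ^ 14 + 2 * ζ ^ 15) * hΦ
  · simp only [List.getD_cons_succ, List.getD_cons_zero]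
    linear_combination (1 - 2 * ζ + 2 * ζ ^ 2 - 2 * ζ ^ 4 + 3 * ζ ^ 5 - 3 * ζ ^ 6 + 2 * ζ ^ 7 - ζ ^ 9 + ζ ^ 10 - 2 * ζ ^ 12 + 2 * ζ ^ 13 - ζ ^ 14 + ζ ^ 16 - 2 * ζ ^ 17 + ζ ^ 19 - 2 * ζ ^ 20 + 2 * ζ ^ 21 - 2 * ζ ^ 23 + 3 * ζ ^ 24 - 3 * ζ ^ 25 + 2 * ζ ^ 26) * hΦ
  · simp only [List.getD_cons_succ, List.getD_cons_zero]
    linear_combination (1 - 2 * ζ + 2 * ζ ^ 2 - 2 * ζ ^ 4 + 3 * ζ ^ 5 - 3 * ζ ^ 6 + 2 * ζ ^ 7 - 2 * ζ ^ 9 + 2 * ζ ^ 10 - ζ ^ 11 - ζ ^ 15 + 2 * ζ ^ 16 - 2 * ζ ^ 17 + 2 * ζ ^ 19 - 3 * ζ ^ 20 + 3 * ζ ^ 21 - 2 * ζ ^ 22 - ζ ^ 26 + 2 * ζ ^ 27 - 2 * ζ ^ 28 + 2 * ζ ^ 30 - 3 * ζ ^ 31 + 3 * ζ ^ 32 - 2 * ζ ^ 33 + 2 * ζ ^ 35 - 2 * ζ ^ 36 + ζ ^ 37 + ζ ^ 41 - 2 * ζ ^ 42 + 2 * ζ ^ 43 - 2 * ζ ^ 45 + 3 * ζ ^ 46 - 3 * ζ ^ 47 + 2 * ζ ^ 48) * hΦ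

theorem ex4 : HasMob 5 (fun j => pr 30 ^ ([0, 2, 5, 16, 27] : List ℕ).getD j 0) := by
  have hg : primChk 31 3 30 = true := by decide +kernel
  have hz : pr 5 = pr 30 ^ 6 := (pr_pow_mul 5 6 (by norm_num)).symm
  have hΦ := phi30
  have hdet := nonvan (N := 30) (by norm_num) (by norm_num) hg
    ((Polynomial.X - Polynomial.X ^ 2 + Polynomial.X ^ 3) * (Polynomial.X ^ 3 - Polynomial.X ^ 4 + Polynomial.X ^ 5) - (-1 - Polynomial.X + Polynomial.X ^ 2 + 2 * Polynomial.X ^ 3 - Polynomial.X ^ 6) * (-1 + 2 * Polynomial.X ^ 3 + Polynomial.X ^ 4 - Polynomial.X ^ 5 - Polynomial.X ^ 6)) (by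
      simp only [map_add, map_sub, map_mul, map_neg, map_pow, Polynomial.aeval_X, map_ofNat, map_one]
      decide +kernel)
  have hβ := nonvan (N := 30) (by norm_num) (by norm_num) hg
    (-1 - Polynomial.X + Polynomial.X ^ 2 + 2 * Polynomial.X ^ 3 - Polynomial.X ^ 6) (by
      simp only [map_add, map_sub, map_mul, map_neg, map_pow, Polynomial.aeval_X, map_ofNat, map_one]
      decide +kernel)
  have hδ := nonvan (N := 30) (by norm_num) (by norm_num) hg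
    (Polynomial.X ^ 3 - Polynomial.X ^ 4 + Polynomial.X ^ 5) (by
      simp only [map_add, map_sub, map_mul, map_neg, map_pow, Polynomial.aeval_X, map_ofNat, map_one]
      decide +kernel)
  simp only [map_add, map_sub, map_mul, map_neg, map_pow, Polynomial.aeval_X, map_ofNat, map_one] at hdet hβ hδ
  refine ⟨_, _, _, _, hdet, hβ, hδ, ?_⟩
  rw [hz]
  generalize pr 30 = ζ at hΦ ⊢
  intro j hj
  interval_cases j
  · simp only [List.getD_cons_succ, List.getD_cons_zero]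
    ring
  · simp only [List.getD_cons_succ, List.getD_cons_zero]
    linear_combination (-1 + ζ ^ 2 - ζ ^ 4 + ζ ^ 6) * hΦ
  · simp only [List.getD_cons_succ, List.getD_cons_zero]
    linear_combination (-1 + ζ ^ 2 - ζ ^ 4 + ζ ^ 5 - ζ ^ 6 + 2 * ζ ^ 7 - 2 * ζ ^ 8 + ζ ^ 9 - ζ ^ 10 + ζ ^ 11 - ζ ^ 13 + ζ ^ 15) * hΦ
  · simp only [List.getD_cons_succ, List.getD_cons_zero]
    linear_combination (-1 + ζ ^ 2 - ζ ^ 4 + ζ ^ 5 - ζ ^ 6 + 2 * ζ ^ 7 - ζ ^ 8 - ζ ^ 9 + 2 * ζ ^ 10 - ζ ^ 11 + ζ ^ 12 - ζ ^ 13 + ζ ^ 15 - ζ ^ 17 + ζ ^ 19 - ζ ^ 20 + ζ ^ 21 - 2 * ζ ^ 22 + ζ ^ 23 + ζ ^ 24 - 2 * ζ ^ 25 + ζ ^ 26 - ζ ^ 27 + ζ ^ 28 - ζ ^ 30 + ζ ^ 32) * hΦ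
  · simp only [List.getD_cons_succ, List.getD_cons_zero]
    linear_combination (-1 + ζ ^ 2 - ζ ^ 4 + ζ ^ 5 - ζ ^ 6 + 2 * ζ ^ 7 - ζ ^ 8 - ζ ^ 9 + 2 * ζ ^ 10 - ζ ^ 11 + ζ ^ 12 - ζ ^ 13 + ζ ^ 15 - ζ ^ 17 + ζ ^ 19 - ζ ^ 20 + ζ ^ 21 - 2 * ζ ^ 22 + ζ ^ 23 + ζ ^ 24 - ζ ^ 25 - ζ ^ 26 + 2 * ζ ^ 27 - ζ ^ 28 + ζ ^ 29 - ζ ^ 30 + ζ ^ 32 - ζ ^ 34 + ζ ^ 36 - ζ ^ 37 + ζ ^ 38 - 2 * ζ ^ 39 + ζ ^ 40 + ζ ^ 41 - 2 * ζ ^ 42 + ζ ^ 43 - ζ ^ 44 + ζ ^ 45 - ζ ^ 47 + ζ ^ 49) * hΦ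

theorem ex5 : HasMob 5 (fun j => pr 30 ^ ([0, 4, 9, 17, 25] : List ℕ).getD j 0) := by
  have hg : primChk 31 3 30 = true := by decide +kernel
  have hz : pr 5 = pr 30 ^ 6 := (pr_pow_mul 5 6 (by norm_num)).symm
  have hΦ := phi30
  have hdet := nonvan (N := 30) (by norm_num) (by norm_num) hg
    ((Polynomial.X + Polynomial.X ^ 4) * (Polynomial.X ^ 2 + Polynomial.X ^ 5) - (2 - Polynomial.X - Polynomial.X ^ 3 - Polynomial.X ^ 4 + 2 * Polynomial.X ^ 6) * (2 - Polynomial.X ^ 2 - Polynomial.X ^ 3 - Polynomial.X ^ 5 + 2 * Polynomial.X ^ 6)) (by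
      simp only [map_add, map_sub, map_mul, map_neg, map_pow, Polynomial.aeval_X, map_ofNat, map_one]
      decide +kernel)
  have hβ := nonvan (N := 30) (by norm_num) (by norm_num) hg
    (2 - Polynomial.X - Polynomial.X ^ 3 - Polynomial.X ^ 4 + 2 * Polynomial.X ^ 6) (by
      simp only [map_add, map_sub, map_mul, map_neg, map_pow, Polynomial.aeval_X, map_ofNat, map_one]
      decide +kernel)
  have hδ := nonvan (N := 30) (by norm_num) (by norm_num) hg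
    (Polynomial.X ^ 2 + Polynomial.X ^ 5) (by
      simp only [map_add, map_sub, map_mul, map_neg, map_pow, Polynomial.aeval_X, map_ofNat, map_one]
      decide +kernel)
  simp only [map_add, map_sub, map_mul, map_neg, map_pow, Polynomial.aeval_X, map_ofNat, map_one] at hdet hβ hδ
  refine ⟨_, _, _, _, hdet, hβ, hδ, ?_⟩
  rw [hz]
  generalize pr 30 = ζ at hΦ ⊢
  intro j hj
  interval_cases j
  · simp only [List.getD_cons_succ, List.getD_cons_zero]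
    ring
  · simp only [List.getD_cons_succ, List.getD_cons_zero]
    linear_combination (2 - 3 * ζ + 3 * ζ ^ 2 - 2 * ζ ^ 3 + 2 * ζ ^ 5 - 3 * ζ ^ 6 + 3 * ζ ^ 7 - 2 * ζ ^ 8) * hΦ
  · simp only [List.getD_cons_succ, List.getD_cons_zero]
    linear_combination (2 - 3 * ζ + 3 * ζ ^ 2 - 2 * ζ ^ 3 + 2 * ζ ^ 5 - 2 * ζ ^ 6 + ζ ^ 7 - ζ ^ 12 + 2 * ζ ^ 13 - 2 * ζ ^ 14 + 2 * ζ ^ 16 - 3 * ζ ^ 17 + 3 * ζ ^ 18 - 2 * ζ ^ 19) * hΦ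
  · simp only [List.getD_cons_succ, List.getD_cons_zero]
    linear_combination (2 - 3 * ζ + 3 * ζ ^ 2 - 2 * ζ ^ 3 + 2 * ζ ^ 5 - 2 * ζ ^ 6 + ζ ^ 7 + ζ ^ 11 - 2 * ζ ^ 12 + 2 * ζ ^ 13 - 2 * ζ ^ 15 + 3 * ζ ^ 16 - 3 * ζ ^ 17 + 2 * ζ ^ 18 - 2 * ζ ^ 20 + 2 * ζ ^ 21 - ζ ^ 22 - ζ ^ 26 + 2 * ζ ^ 27 - 2 * ζ ^ 28 + 2 * ζ ^ 30 - 3 * ζ ^ 31 + 3 * ζ ^ 32 - 2 * ζ ^ 33) * hΦ
  · simp only [List.getD_cons_succ, List.getD_cons_zero]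
    linear_combination (2 - 3 * ζ + 3 * ζ ^ 2 - 2 * ζ ^ 3 + 2 * ζ ^ 5 - 2 * ζ ^ 6 + ζ ^ 7 + ζ ^ 11 - 2 * ζ ^ 12 + 2 * ζ ^ 13 - 2 * ζ ^ 15 + 3 * ζ ^ 16 - 3 * ζ ^ 17 + 2 * ζ ^ 18 - 2 * ζ ^ 20 + 2 * ζ ^ 21 - ζ ^ 22 + ζ ^ 25 - 2 * ζ ^ 26 + 2 * ζ ^ 27 - 2 * ζ ^ 29 + 3 * ζ ^ 30 - 3 * ζ ^ 31 + 2 * ζ ^ 32 - 2 * ζ ^ 34 + 2 * ζ ^ 35 - ζ ^ 36 - ζ ^ 40 + 2 * ζ ^ 41 - 2 * ζ ^ 42 + 2 * ζ ^ 44 - 3 * ζ ^ 45 + 3 * ζ ^ 46 - 2 * ζ ^ 47) * hΦ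

theorem ex_kite {d a : ℕ} (a0 : 0 < a) (ad : a < d) :
    HasMob 4 (fun j => pr (4 * d) ^ ([0, a, 2 * a, 2 * d + a] : List ℕ).getD j 0) := by
  have hd : 0 < d := by omega
  have two := pr_two_mul d hd
  have hI : pr 4 = pr (4 * d) ^ d := (pr_pow_mul 4 d hd.ne').symm
  have hI2 : pr 4 ^ 2 = -1 := by rw [hI, ← pow_mul, mul_comm d 2, two]
  have hprim := pr_prim (n := 4 * d) (by omega)
  obtain ⟨η, hη⟩ : ∃ η, η = pr (4 * d) ^ a := ⟨_, rfl⟩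
  have nη : η ≠ 0 := by rw [hη]; exact pow_ne_zero _ (pr_ne_zero _)
  have nI : pr 4 ≠ 0 := pr_ne_zero 4
  have n1 : η ^ 2 ≠ 1 := by
    rw [hη, ← pow_mul]
    exact hprim.pow_ne_one_of_pos_of_lt (by omega) (by omega)
  have n2 : η ^ 2 ≠ -1 := by
    rw [hη, ← pow_mul, ← two]
    intro h
    have := hprim.pow_inj (by omega) (by omega) h
    omega
  refine ⟨-(pr 4 * η * (pr 4 * η - 1)), pr 4 * η * (1 + pr 4 * η), 1 + pr 4 * η, pr 4 * η - 1,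
    ?_, ?_, ?_, ?_⟩
  · have e : -(pr 4 * η * (pr 4 * η - 1)) * (pr 4 * η - 1) - pr 4 * η * (1 + pr 4 * η) *
        (1 + pr 4 * η) = -(2 * (pr 4 * η * (1 - η ^ 2))) := by
      linear_combination (-2 * pr 4 * η ^ 3) * hI2
    rw [e]
    exact neg_ne_zero.2 (mul_ne_zero two_ne_zero (mul_ne_zero (mul_ne_zero nI nη)
      (sub_ne_zero.2 (Ne.symm n1))))
  · refine mul_ne_zero (mul_ne_zero nI nη) ?_
    intro h
    apply n2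
    linear_combination -(pr 4 * η - 1) * h + η ^ 2 * hI2
  · intro h
    apply n2
    linear_combination -(pr 4 * η + 1) * h + η ^ 2 * hI2
  · intro j hj
    interval_cases j
    · simp only [List.getD_cons_zero, pow_zero]
      ring
    · simp only [List.getD_cons_succ, List.getD_cons_zero, ← hη, pow_one]
      linear_combination (-pr 4 * η ^ 2 + η) * hI2
    · simp only [List.getD_cons_succ, List.getD_cons_zero, two_mul a, pow_add, ← hη]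
      linear_combination (pr 4 * η - pr 4 * η ^ 3 + (1 - pr 4 ^ 2) * η ^ 2) * hI2
    · simp only [List.getD_cons_succ, List.getD_cons_zero, pow_add, two, ← hη]
      linear_combination (η * (pr 4 + pr 4 ^ 2 - 1) + η ^ 2 * (pr 4 ^ 2 + pr 4 - pr 4 ^ 3)) * hI2

end Pool.Agent.H59.Ex
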