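import Pool.Agent.H59.Ex.Exist

set_option autoImplicit false

namespace Pool.Agent.H59.Ex

open Complex

theorem class5 {d : ℕ} (hd : 0 < d) {w : ℕ → ℂ} (h : Good 5 w) (hw : ∀ j, w j ^ (5 * d) = 1) :
    Concl 5 d w := by
  have hn := h.normalize
  have h0 := h.ne_zero 0
  have hrel : SRel (5 * d) w (fun j => (w 0)⁻¹ * w j) :=
    SRel.rot _ _ _ 0 (by rw [inv_pow, hw, inv_one])
  apply Concl.of_rel hrel
  have hw' : ∀ j, (fun j => (w 0)⁻¹ * w j) j ^ (5 * d) = 1 := by
    intro j; simp only [mul_pow, inv_pow, hw, inv_one, one_mul]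
  have hv0 : (fun j => (w 0)⁻¹ * w j) 0 = 1 := inv_mul_cancel₀ h0
  generalize (fun j => (w 0)⁻¹ * w j) = v at hn hw' hv0
  clear hrel hw h h0
  obtain ⟨t, ht, -, S, hS, s, hs, ε, hε, htS⟩ := five_list hn hv0
  have hS30 : S.getD 0 0 = 0 ∧ S.getD s 0 < 30 := by
    simp only [std5, List.mem_cons, List.not_mem_nil, or_false] at hS
    rcases hS with rfl | rfl | rfl | rfl | rfl <;> interval_cases s <;> simp
  obtain ⟨u, hu, hu'⟩ := unrotate (c := 5) (N0 := 30) (n := 5 * d) (s := s) (ε := ε)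
    (S := S) (by norm_num) (by norm_num) (Good.per (by norm_num) hn) hw' hs
    (by simpa using hε) ht hS30.1 hS30.2 htS
  have hdvd : ∀ j < 5, 30 ∣ S.getD j 0 * (5 * d) := by
    intro j hj
    have hroot := hu.root hw' j
    rw [hu' j hj, ← pow_mul] at hroot
    exact dvd_of_pow (by norm_num) hroot
  have d1 := hdvd 1 (by norm_num)
  have d2 := hdvd 2 (by norm_num)
  have d3 := hdvd 3 (by norm_num)
  have d4 := hdvd 4 (by norm_num)
  simp only [std5, List.mem_cons, List.not_mem_nil, or_false] at hS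
  rcases hS with rfl | rfl | rfl | rfl | rfl <;>
    simp only [List.getD_cons_succ, List.getD_cons_zero] at d1 d2 d3 d4
  · obtain ⟨m, hm⟩ : 2 ∣ d := by omega
    subst hm
    have hm0 : 0 < m := by omega
    refine ⟨u, [0, m, 2 * m, 4 * m, 8 * m], hu,
      Or.inr (Or.inr (Or.inl ⟨rfl, m, hm0, rfl, rfl⟩)), ?_⟩
    intro j hj
    rw [hu' j hj]
    have e : pr 30 ^ 3 = pr (5 * (2 * m)) ^ m := by
      rw [← mul_assoc, pr_pow_mul (5 * 2) m hm0.ne', show (30 : ℕ) = 5 * 2 * 3 by norm_num,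
        pr_pow_mul (5 * 2) 3 (by norm_num)]
    have e2 : ∀ k, pr 30 ^ (3 * k) = pr (5 * (2 * m)) ^ (m * k) := by
      intro k; rw [pow_mul, e, ← pow_mul]
    interval_cases j <;> simp only [List.getD_cons_succ, List.getD_cons_zero, pow_zero]
    · rw [e]
    · have := e2 2; norm_num at this; rw [this]; congr 1; ring
    · have := e2 4; norm_num at this; rw [this]; congr 1; ring
    · have := e2 8; norm_num at this; rw [this]; congr 1; ring
  all_goals
    obtain ⟨m, hm⟩ : 6 ∣ d := by omega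
    subst hm
    have hm0 : 0 < m := by omega
    have e : pr 30 = pr (5 * (6 * m)) ^ m := by
      rw [← mul_assoc]; exact (pr_pow_mul 30 m hm0.ne').symm
    have e2 : ∀ k, pr 30 ^ k = pr (5 * (6 * m)) ^ (k * m) := by
      intro k; rw [e, ← pow_mul, mul_comm m k]
  · refine ⟨u, [0, m, 2 * m, 5 * m, 27 * m], hu,
      Or.inr (Or.inr (Or.inr ⟨rfl, m, hm0, rfl, Or.inl rfl⟩)), ?_⟩
    intro j hj
    rw [hu' j hj, e2]
    interval_cases j <;> simp
  · refine ⟨u, [0, 2 * m, 4 * m, 9 * m, 25 * m], hu,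
      Or.inr (Or.inr (Or.inr ⟨rfl, m, hm0, rfl, Or.inr (Or.inl rfl)⟩)), ?_⟩
    intro j hj
    rw [hu' j hj, e2]
    interval_cases j <;> simp
  · refine ⟨u, [0, 2 * m, 5 * m, 16 * m, 27 * m], hu,
      Or.inr (Or.inr (Or.inr ⟨rfl, m, hm0, rfl, Or.inr (Or.inr (Or.inl rfl))⟩)), ?_⟩
    intro j hj
    rw [hu' j hj, e2]
    interval_cases j <;> simp
  · refine ⟨u, [0, 4 * m, 9 * m, 17 * m, 25 * m], hu,
      Or.inr (Or.inr (Or.inr ⟨rfl, m, hm0, rfl, Or.inr (Or.inr (Or.inr rfl))⟩)), ?_⟩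
    intro j hj
    rw [hu' j hj, e2]
    interval_cases j <;> simp

theorem class_all {c d : ℕ} (hc : 4 ≤ c) (hd : 0 < d) {w : ℕ → ℂ} (h : Good c w)
    (hw : ∀ j, w j ^ (c * d) = 1) : Concl c d w := by
  rcases Nat.lt_or_ge c 6 with h6 | h6
  · interval_cases c
    · exact class4 hd h hw
    · exact class5 hd h hw
  · exact (no_large h6 h).elim

/-! ### Uniqueness -/

theorem cong_of_rel {c d : ℕ} (hc : 0 < c) (hd : 0 < d) {v v' : ℕ → ℂ} {t t' : List ℕ}
    (hrel : SRel (c * d) v v') (hper : ∀ j, v (j + c) = v j) (ht' : t'.getD 0 0 = 0)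
    (hv : ∀ j < c, v j = pr (c * d) ^ (t.getD j 0))
    (hv' : ∀ j < c, v' j = pr (c * d) ^ (t'.getD j 0)) :
    ∃ r < c, (∀ j < c, t'.getD j 0 + t.getD r 0 ≡ t.getD ((j + r) % c) 0 [MOD c * d]) ∨
      (∀ j < c, t'.getD j 0 + t.getD ((j + r) % c) 0 ≡ t.getD r 0 [MOD c * d]) := by
  have hN : c * d ≠ 0 := (Nat.mul_pos hc hd).ne'
  have hprim := pr_prim hN
  have hmod : ∀ a b : ℕ, pr (c * d) ^ a = pr (c * d) ^ b → a ≡ b [MOD c * d] := by
    intro a b hab
    have := (hprim.isOfFinOrder hN).pow_eq_pow_iff_modEq.1 hab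
    rwa [← hprim.eq_orderOf] at this
  obtain ⟨κ, s, hκ, h⟩ := hrel
  have hval : ∀ j, v (j + s) = pr (c * d) ^ (t.getD ((j + s % c) % c) 0) := by
    intro j
    rw [← per_mod hper, hv _ (Nat.mod_lt _ hc), Nat.add_mod_mod]
  refine ⟨s % c, Nat.mod_lt _ hc, ?_⟩
  have hne : ∀ n : ℕ, pr (c * d) ^ n ≠ 0 := fun n => pow_ne_zero _ (pr_ne_zero _)
  rcases h with h | h
  · left
    intro j hj
    apply hmod
    have h0 := h 0
    rw [hv' 0 hc, ht', pow_zero, hval, zero_add, Nat.mod_mod] at h0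
    have h1 := h j
    rw [hv' j hj, hval] at h1
    rw [pow_add, h1]
    linear_combination -(pr (c * d) ^ (t.getD ((j + s % c) % c) 0)) * h0
  · right
    intro j hj
    apply hmod
    have h0 := h 0
    rw [hv' 0 hc, ht', pow_zero, hval, zero_add, Nat.mod_mod, eq_mul_inv_iff_mul_eq₀ (hne _),
      one_mul] at h0
    have h1 := h j
    rw [hv' j hj, hval, eq_mul_inv_iff_mul_eq₀ (hne _)] at h1
    rw [pow_add, h1, h0]

theorem small_modEq {N a b : ℕ} (h : a ≡ b [MOD N]) (ha : a < 2 * N) (hb : b < N) :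
    a = b ∨ a = b + N := by
  rcases Nat.lt_or_ge a N with h1 | h1
  · left
    exact Nat.ModEq.eq_of_lt_of_lt h h1 hb
  · right
    have h2 : a - N ≡ b [MOD N] := by
      have : a ≡ a - N [MOD N] := by
        conv_lhs => rw [← Nat.sub_add_cancel h1]
        exact Nat.add_mod_right _ _
      exact this.symm.trans h
    have := Nat.ModEq.eq_of_lt_of_lt h2 (by omega) hb
    omega

theorem unique4 {d : ℕ} {t t' : List ℕ} (ht : Std 4 d t) (ht' : Std 4 d t')
    (h : ∃ r < 4, (∀ j < 4, t'.getD j 0 + t.getD r 0 ≡ t.getD ((j + r) % 4) 0 [MOD 4 * d]) ∨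
      (∀ j < 4, t'.getD j 0 + t.getD ((j + r) % 4) 0 ≡ t.getD r 0 [MOD 4 * d])) : t = t' := by
  have hlt : ∀ u : List ℕ, Std 4 d u → ∀ j < 4, u.getD j 0 < 4 * d := by
    intro u hu j hj
    rcases hu with ⟨-, a, a0, ad, rfl⟩ | ⟨-, m, m0, rfl, rfl⟩ | ⟨h5, -⟩ | ⟨h5, -⟩
    · interval_cases j <;> simp <;> omega
    · interval_cases j <;> simp <;> omega
    · omega
    · omega
  obtain ⟨r, hr, h⟩ := h
  have l1 := hlt t ht
  have l2 := hlt t' ht'
  have h2 : (∀ j < 4, t'.getD j 0 + t.getD r 0 = t.getD ((j + r) % 4) 0 ∨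
        t'.getD j 0 + t.getD r 0 = t.getD ((j + r) % 4) 0 + 4 * d) ∨
      (∀ j < 4, t'.getD j 0 + t.getD ((j + r) % 4) 0 = t.getD r 0 ∨
        t'.getD j 0 + t.getD ((j + r) % 4) 0 = t.getD r 0 + 4 * d) := by
    rcases h with h | h
    · left
      intro j hj
      have a1 := l1 r hr
      have a2 := l2 j hj
      exact small_modEq (h j hj) (by omega) (l1 _ (Nat.mod_lt _ (by norm_num)))
    · right
      intro j hj
      have a1 := l1 ((j + r) % 4) (Nat.mod_lt _ (by norm_num))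
      have a2 := l2 j hj
      exact small_modEq (h j hj) (by omega) (l1 _ hr)
  clear h l1 l2 hlt
  rcases ht with ⟨-, a, a0, ad, rfl⟩ | ⟨-, m, m0, hm, rfl⟩ | ⟨h5, -⟩ | ⟨h5, -⟩
  · rcases ht' with ⟨-, a', a0', ad', rfl⟩ | ⟨-, m', m0', hm', rfl⟩ | ⟨h5, -⟩ | ⟨h5, -⟩
    · have : a = a' := by
        rcases h2 with h2 | h2
        · have b1 := h2 1 (by norm_num)
          interval_cases r <;> simp at b1 <;> omega
        · have b1 := h2 1 (by norm_num)
          interval_cases r <;> simp at b1 <;> omega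
      rw [this]
    · exfalso
      rcases h2 with h2 | h2
      · have b1 := h2 1 (by norm_num)
        have b2 := h2 2 (by norm_num)
        have b3 := h2 3 (by norm_num)
        interval_cases r <;> simp at b1 b2 b3 <;> omega
      · have b1 := h2 1 (by norm_num)
        have b2 := h2 2 (by norm_num)
        have b3 := h2 3 (by norm_num)
        interval_cases r <;> simp at b1 b2 b3 <;> omega
    · omega
    · omega
  · rcases ht' with ⟨-, a', a0', ad', rfl⟩ | ⟨-, m', m0', hm', rfl⟩ | ⟨h5, -⟩ | ⟨h5, -⟩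
    · exfalso
      rcases h2 with h2 | h2
      · have b1 := h2 1 (by norm_num)
        have b2 := h2 2 (by norm_num)
        have b3 := h2 3 (by norm_num)
        interval_cases r <;> simp at b1 b2 b3 <;> omega
      · have b1 := h2 1 (by norm_num)
        have b2 := h2 2 (by norm_num)
        have b3 := h2 3 (by norm_num)
        interval_cases r <;> simp at b1 b2 b3 <;> omega
    · have : m = m' := by omega
      rw [this]
    · omega
    · omega
  · omega
  · omega

theorem std5_unique : ∀ S ∈ std5, ∀ S' ∈ std5, ∀ r < 5,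
    ((∀ j < 5, (S'.getD j 0 + S.getD r 0) % 30 = S.getD ((j + r) % 5) 0 % 30) ∨
      (∀ j < 5, (S'.getD j 0 + S.getD ((j + r) % 5) 0) % 30 = S.getD r 0 % 30)) → S = S' := by
  decide +kernel

theorem unique5 {d : ℕ} {t t' : List ℕ} (ht : Std 5 d t) (ht' : Std 5 d t')
    (h : ∃ r < 5, (∀ j < 5, t'.getD j 0 + t.getD r 0 ≡ t.getD ((j + r) % 5) 0 [MOD 5 * d]) ∨
      (∀ j < 5, t'.getD j 0 + t.getD ((j + r) % 5) 0 ≡ t.getD r 0 [MOD 5 * d])) : t = t' := by
  by_cases h6 : ∃ m, 0 < m ∧ d = 6 * m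
  · obtain ⟨m, hm0, rfl⟩ := h6
    have hform : ∀ u, Std 5 (6 * m) u → ∃ S ∈ std5, u = S.map (fun x => m * x) := by
      intro u hu
      rcases hu with ⟨h4, -⟩ | ⟨h4, -⟩ | ⟨-, m', m0', hm', rfl⟩ | ⟨-, m', m0', hm', hu⟩
      · omega
      · omega
      · refine ⟨[0, 3, 6, 12, 24], by simp [std5], ?_⟩
        have : m' = 3 * m := by omega
        subst this
        simp only [List.map_cons, List.map_nil, List.cons.injEq, and_true]
        refine ⟨by ring, by ring, by ring, by ring, by ring⟩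
      · have : m' = m := by omega
        subst this
        rcases hu with rfl | rfl | rfl | rfl
        · refine ⟨[0, 1, 2, 5, 27], by simp [std5], ?_⟩
          simp only [List.map_cons, List.map_nil, List.cons.injEq, and_true]
          refine ⟨by ring, by ring, by ring, by ring, by ring⟩
        · refine ⟨[0, 2, 4, 9, 25], by simp [std5], ?_⟩
          simp only [List.map_cons, List.map_nil, List.cons.injEq, and_true]
          refine ⟨by ring, by ring, by ring, by ring, by ring⟩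
        · refine ⟨[0, 2, 5, 16, 27], by simp [std5], ?_⟩
          simp only [List.map_cons, List.map_nil, List.cons.injEq, and_true]
          refine ⟨by ring, by ring, by ring, by ring, by ring⟩
        · refine ⟨[0, 4, 9, 17, 25], by simp [std5], ?_⟩
          simp only [List.map_cons, List.map_nil, List.cons.injEq, and_true]
          refine ⟨by ring, by ring, by ring, by ring, by ring⟩
    obtain ⟨S, hS, rfl⟩ := hform t ht
    obtain ⟨S', hS', rfl⟩ := hform t' ht'
    have hget : ∀ (S : List ℕ) (j : ℕ), (S.map (fun x => m * x)).getD j 0 = m * S.getD j 0 := by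
      intro S j
      have := List.getD_map (l := S) (n := j) (d := 0) (f := fun x => m * x)
      simpa using this
    simp only [hget] at h
    obtain ⟨r, hr, h⟩ := h
    have hcan : ∀ a b : ℕ, m * a ≡ m * b [MOD 5 * (6 * m)] → a % 30 = b % 30 := by
      intro a b hab
      have : 5 * (6 * m) = m * 30 := by ring
      rw [this] at hab
      exact Nat.ModEq.mul_left_cancel' hm0.ne' hab
    have h2 := std5_unique S hS S' hS' r hr (by
      rcases h with h | h
      · left
        intro j hj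
        apply hcan
        rw [mul_add]
        exact h j hj
      · right
        intro j hj
        apply hcan
        rw [mul_add]
        exact h j hj)
    rw [h2]
  · rcases ht with ⟨h4, -⟩ | ⟨h4, -⟩ | ⟨-, m, m0, hm, rfl⟩ | ⟨-, m, m0, hm, -⟩
    · omega
    · omega
    · rcases ht' with ⟨h4, -⟩ | ⟨h4, -⟩ | ⟨-, m', m0', hm', rfl⟩ | ⟨-, m', m0', hm', -⟩
      · omega
      · omega
      · have : m = m' := by omega
        rw [this]
      · exact absurd ⟨m', m0', hm'⟩ h6
    · exact absurd ⟨m, m0, hm⟩ h6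

theorem Std.zero {c d : ℕ} {t : List ℕ} (ht : Std c d t) :
    t.getD 0 0 = 0 ∧ t.length = c ∧ 0 < d ∧ (c = 4 ∨ c = 5) := by
  rcases ht with ⟨rfl, a, a0, ad, rfl⟩ | ⟨rfl, m, m0, hm, rfl⟩ | ⟨rfl, m, m0, hm, rfl⟩ |
    ⟨rfl, m, m0, hm, rfl | rfl | rfl | rfl⟩
  all_goals
    refine ⟨rfl, rfl, by omega, by simp⟩

theorem unique_all {c d : ℕ} {v v' : ℕ → ℂ} {t t' : List ℕ}
    (hrel : SRel (c * d) v v') (hper : ∀ j, v (j + c) = v j) (ht : Std c d t) (ht' : Std c d t')
    (hv : ∀ j < c, v j = pr (c * d) ^ (t.getD j 0))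
    (hv' : ∀ j < c, v' j = pr (c * d) ^ (t'.getD j 0)) : t = t' := by
  obtain ⟨z1, z2, z3, z4⟩ := ht'.zero
  have hc : 0 < c := by omega
  have h := cong_of_rel hc z3 hrel hper z1 hv hv'
  rcases z4 with rfl | rfl
  · exact unique4 ht ht' h
  · exact unique5 ht ht' h

/-! ### Existence -/

theorem HasMob.congr {c : ℕ} {v v' : ℕ → ℂ} (h : HasMob c v) (hv : ∀ j < c, v' j = v j) :
    HasMob c v' := by
  obtain ⟨α, β, γ, δ, h1, h2, h3, h4⟩ := h
  exact ⟨α, β, γ, δ, h1, h2, h3, fun j hj => by rw [hv j hj]; exact h4 j hj⟩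

theorem exists_all {c d : ℕ} {t : List ℕ} (ht : Std c d t) :
    HasMob c (fun j => pr (c * d) ^ (t.getD j 0)) := by
  rcases ht with ⟨rfl, a, a0, ad, rfl⟩ | ⟨rfl, m, m0, rfl, rfl⟩ | ⟨rfl, m, m0, rfl, rfl⟩ |
    ⟨rfl, m, m0, rfl, ht⟩
  · exact ex_kite a0 ad
  · apply ex0.congr
    have e : pr 12 = pr (4 * (3 * m)) ^ m := by
      rw [← mul_assoc]; exact (pr_pow_mul 12 m m0.ne').symm
    have e2 : ∀ k, pr 12 ^ k = pr (4 * (3 * m)) ^ (k * m) := by
      intro k; rw [e, ← pow_mul, mul_comm m k]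
    intro j hj
    interval_cases j <;> simp [e2]
  · apply ex1.congr
    have e : pr 30 ^ 3 = pr (5 * (2 * m)) ^ m := by
      rw [← mul_assoc, pr_pow_mul (5 * 2) m m0.ne', show (30 : ℕ) = 5 * 2 * 3 by norm_num,
        pr_pow_mul (5 * 2) 3 (by norm_num)]
    have e2 : ∀ k, pr (5 * (2 * m)) ^ (k * m) = pr 30 ^ (3 * k) := by
      intro k; rw [pow_mul (pr 30), e, ← pow_mul, mul_comm m k]
    intro j hj
    interval_cases j <;> simp only [List.getD_cons_succ, List.getD_cons_zero, pow_zero]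
    · rw [e]
    · rw [e2]
    · rw [e2]
    · rw [e2]
  · have e : pr 30 = pr (5 * (6 * m)) ^ m := by
      rw [← mul_assoc]; exact (pr_pow_mul 30 m m0.ne').symm
    have e2 : ∀ k, pr 30 ^ k = pr (5 * (6 * m)) ^ (k * m) := by
      intro k; rw [e, ← pow_mul, mul_comm m k]
    rcases ht with rfl | rfl | rfl | rfl
    · apply ex2.congr
      intro j hj
      interval_cases j <;> simp [e2]
    · apply ex3.congr
      intro j hj
      interval_cases j <;> simp [e2]
    · apply ex4.congr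
      intro j hj
      interval_cases j <;> simp [e2]
    · apply ex5.congr
      intro j hj
      interval_cases j <;> simp [e2]

end Pool.Agent.H59.Ex
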