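import Pool.Agent.H59.Ex.Reduce

set_option autoImplicit false

namespace Pool.Agent.H59.Ex

open Complex Finset

/-- the cross ratio relation of the points `0, i1, i2, m` modulo `q` -/
def lin (q g b i1 i2 t1 t2 m x : ℕ) : Bool :=
  ((1 + (q - g ^ (i2 * b) % q)) * (g ^ (i1 * b) + (q - g ^ (m * b) % q)) *
      (g ^ t1 + (q - g ^ t2 % q)) * (1 + (q - g ^ x % q))) % q ==
  ((1 + (q - g ^ (m * b) % q)) * (g ^ (i1 * b) + (q - g ^ (i2 * b) % q)) *
      (1 + (q - g ^ t2 % q)) * (g ^ t1 + (q - g ^ x % q))) % q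

theorem cast_sub_mod {q : ℕ} (hq : 0 < q) (x y : ℕ) :
    ((x + (q - y % q) : ℕ) : ZMod q) = (x : ZMod q) - (y : ZMod q) := by
  have h1 : y % q ≤ q := (Nat.mod_lt _ hq).le
  rw [Nat.cast_add, Nat.cast_sub h1, ZMod.natCast_self, ZMod.natCast_mod]
  ring

theorem lin_sound {c b q g : ℕ} (hc : c ≠ 0) (hb : b ≠ 0) [Fact q.Prime]
    (hg : IsPrimitiveRoot ((g : ℕ) : ZMod q) (c * b)) {w : ℕ → ℂ} {t : ℕ → ℕ} (h : Good c w)
    (h0 : w 0 = 1) (ht : ∀ j, w j = pr (c * b) ^ t j) (i1 i2 m : ℕ) :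
    lin q g b i1 i2 (t i1) (t i2) m (t m) = true := by
  have hq : 0 < q := (Fact.out : q.Prime).pos
  unfold lin
  rw [beq_iff_eq, ← ZMod.natCast_eq_natCast_iff']
  simp only [Nat.cast_mul]
  have e1 : ∀ y : ℕ, ((1 + (q - y % q) : ℕ) : ZMod q) = 1 - (y : ZMod q) := by
    intro y
    rw [cast_sub_mod hq, Nat.cast_one]
  simp only [e1, cast_sub_mod hq]
  let P : Polynomial ℤ :=
    (1 - Polynomial.X ^ (i2 * b)) * (Polynomial.X ^ (i1 * b) - Polynomial.X ^ (m * b)) *
      (Polynomial.X ^ (t i1) - Polynomial.X ^ (t i2)) * (1 - Polynomial.X ^ (t m)) -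
    (1 - Polynomial.X ^ (m * b)) * (Polynomial.X ^ (i1 * b) - Polynomial.X ^ (i2 * b)) *
      (1 - Polynomial.X ^ (t i2)) * (Polynomial.X ^ (t i1) - Polynomial.X ^ (t m))
  have hP : Polynomial.aeval (pr (c * b)) P = 0 := by
    have h1 := h.cross 0 i1 i2 m
    have hz : pr c = pr (c * b) ^ b := (pr_pow_mul c b hb).symm
    rw [h0] at h1
    simp only [ht, hz, ← pow_mul, mul_comm b, pow_zero] at h1
    simp only [P, map_sub, map_mul, map_pow, Polynomial.aeval_X, map_one]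
    linear_combination h1
  have h2 := transfer (mul_ne_zero hc hb) hg P hP
  simp only [P, map_sub, map_mul, map_pow, Polynomial.aeval_X, map_one] at h2
  simp only [Nat.cast_pow]
  linear_combination h2

/-- the search -/
def chk (q g b N i1 i2 t1 t2 : ℕ) (good : List ℕ → Bool) : List ℕ → List ℕ → Bool
  | [], T => good T
  | m :: ms, T => (List.range N).all (fun x => !(lin q g b i1 i2 t1 t2 m x) ||
      chk q g b N i1 i2 t1 t2 good ms (T ++ [x]))

theorem chk_sound {q g b N i1 i2 t1 t2 : ℕ} {good : List ℕ → Bool} {t : ℕ → ℕ}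
    (hN : ∀ m, t m < N) (hl : ∀ m, lin q g b i1 i2 t1 t2 m (t m) = true) (ms T : List ℕ)
    (h : chk q g b N i1 i2 t1 t2 good ms T = true) : good (T ++ ms.map t) = true := by
  induction ms generalizing T with
  | nil => simpa [chk] using h
  | cons m ms ih =>
    rw [chk, List.all_eq_true] at h
    have h1 := h (t m) (List.mem_range.2 (hN m))
    rw [hl m] at h1
    simp only [Bool.not_true, Bool.false_or] at h1
    have h2 := ih _ h1
    simpa using h2

def chkTop (q g b N i1 i2 d : ℕ) (good : List ℕ → Bool) (ms : List ℕ) : Bool :=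
  (List.range (N / d)).all fun x => (List.range (N / d)).all fun y =>
    x == 0 || (y == 0 || (x == y ||
      chk q g b N i1 i2 (d * x) (d * y) good ms [d * x, d * y]))

theorem chkTop_sound {c b q g : ℕ} (hc : c ≠ 0) (hb : b ≠ 0) (hq : q.Prime)
    (hg : IsPrimitiveRoot ((g : ℕ) : ZMod q) (c * b)) {w : ℕ → ℂ} {t : ℕ → ℕ} (h : Good c w)
    (h0 : w 0 = 1) (ht : ∀ j, w j = pr (c * b) ^ t j) (hN : ∀ m, t m < c * b)
    {good : List ℕ → Bool} {i1 i2 d : ℕ} {ms : List ℕ} (_hd : 0 < d)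
    (hi1 : d ∣ t i1) (hi2 : d ∣ t i2) (n1 : pr c ^ 0 ≠ pr c ^ i1) (n2 : pr c ^ 0 ≠ pr c ^ i2)
    (n3 : pr c ^ i1 ≠ pr c ^ i2) (hdN : d ∣ c * b)
    (hk : chkTop q g b (c * b) i1 i2 d good ms = true) :
    good (t i1 :: t i2 :: ms.map t) = true := by
  have : Fact q.Prime := ⟨hq⟩
  obtain ⟨x, hx⟩ := hi1
  obtain ⟨y, hy⟩ := hi2
  have hlt : ∀ u i, t i = d * u → u < c * b / d := by
    intro u i hu
    have h1 := hN i
    rw [Nat.lt_div_iff_mul_lt' hdN]
    rw [hu] at h1
    exact h1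
  rw [chkTop, List.all_eq_true] at hk
  have h1 := hk x (List.mem_range.2 (hlt x i1 hx))
  rw [List.all_eq_true] at h1
  have h2 := h1 y (List.mem_range.2 (hlt y i2 hy))
  have m1 := h.inj n1
  have m2 := h.inj n2
  have m3 := h.inj n3
  have x0 : x ≠ 0 := by
    rintro rfl
    apply m1
    rw [h0, ht, hx, mul_zero, pow_zero]
  have y0 : y ≠ 0 := by
    rintro rfl
    apply m2
    rw [h0, ht, hy, mul_zero, pow_zero]
  have xy : x ≠ y := by
    rintro rfl
    apply m3
    rw [ht, ht, hx, hy]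
  have e1 : (x == 0) = false := by simpa using x0
  have e2 : (y == 0) = false := by simpa using y0
  have e3 : (x == y) = false := by simpa using xy
  rw [e1, e2, e3] at h2
  simp only [Bool.false_or] at h2
  rw [← hx, ← hy] at h2
  have h3 := chk_sound hN (fun m => lin_sound hc hb hg h h0 ht i1 i2 m) ms _ h2
  simpa using h3

/-- criterion for primitive roots -/
def primChk (q g N : ℕ) : Bool :=
  g ^ N % q == 1 % q && (List.range N).all fun l => l == 0 || !(g ^ l % q == 1 % q)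

theorem primChk_sound {q g N : ℕ} (hN : 0 < N) (h : primChk q g N = true) :
    IsPrimitiveRoot ((g : ℕ) : ZMod q) N := by
  rw [primChk, Bool.and_eq_true, List.all_eq_true] at h
  obtain ⟨h1, h2⟩ := h
  apply IsPrimitiveRoot.mk_of_lt _ hN
  · rw [beq_iff_eq, ← ZMod.natCast_eq_natCast_iff'] at h1
    exact_mod_cast h1
  · intro l hl hlN h3
    have h4 := h2 l (List.mem_range.2 hlN)
    have h5 : (g ^ l % q == 1 % q) = true := by
      rw [beq_iff_eq, ← ZMod.natCast_eq_natCast_iff']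
      exact_mod_cast h3
    rw [h5] at h4
    simp at h4
    omega

/-- trivial tuples -/
def goodTriv (b N i1 i2 : ℕ) (T : List ℕ) : Bool :=
  T.take 2 == [i1 * b, i2 * b] || T.take 2 == [N - i1 * b, N - i2 * b]

theorem goodTriv_false {c b i1 i2 : ℕ} (hc : c ≠ 0) (hb : b ≠ 0) {w : ℕ → ℂ} {t : ℕ → ℕ}
    (h : Good c w) (h0 : w 0 = 1) (ht : ∀ j, w j = pr (c * b) ^ t j)
    (n1 : pr c ^ 0 ≠ pr c ^ i1) (n2 : pr c ^ 0 ≠ pr c ^ i2)
    (n3 : pr c ^ i1 ≠ pr c ^ i2) (l1 : i1 ≤ c) (l2 : i2 ≤ c) (ms : List ℕ)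
    (hg : goodTriv b (c * b) i1 i2 (t i1 :: t i2 :: ms.map t) = true) : False := by
  have hz : pr c = pr (c * b) ^ b := (pr_pow_mul c b hb).symm
  have hone := (pr_prim (mul_ne_zero hc hb)).pow_eq_one
  rw [goodTriv, Bool.or_eq_true] at hg
  simp only [List.take_succ_cons, List.take_zero, beq_iff_eq, List.cons.injEq, and_true] at hg
  rcases hg with ⟨g1, g2⟩ | ⟨g1, g2⟩
  · apply h.not_rot 1 n1 n3 n2
    · simp [h0]
    · rw [ht, g1, hz, ← pow_mul, one_mul, mul_comm b]
    · rw [ht, g2, hz, ← pow_mul, one_mul, mul_comm b]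
  · apply h.not_inv 1 n1 n3 n2
    · simp [h0]
    · rw [ht, g1, hz, ← pow_mul, ← pow_add]
      have : c * b - i1 * b + b * i1 = c * b := by
        have : i1 * b ≤ c * b := Nat.mul_le_mul_right b l1
        rw [mul_comm b i1]; omega
      rw [this, hone]
    · rw [ht, g2, hz, ← pow_mul, ← pow_add]
      have : c * b - i2 * b + b * i2 = c * b := by
        have : i2 * b ≤ c * b := Nat.mul_le_mul_right b l2
        rw [mul_comm b i2]; omega
      rw [this, hone]

theorem pr_pow_ne' {c i j : ℕ} (hc : c ≠ 0) (hi : i < c) (hj : j < c) (hij : i ≠ j) :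
    pr c ^ i ≠ pr c ^ j := fun h => hij ((pr_prim hc).pow_inj hi hj h)

theorem exists_exps {N : ℕ} (hN : 0 < N) {w : ℕ → ℂ} (h : ∀ j, w j ^ N = 1) :
    ∃ t : ℕ → ℕ, (∀ j, w j = pr N ^ t j) ∧ ∀ j, t j < N := by
  have : NeZero N := ⟨hN.ne'⟩
  have h1 : ∀ j, ∃ t : ℕ, w j = pr N ^ t ∧ t < N := by
    intro j
    obtain ⟨t, h1, h2⟩ := (pr_prim hN.ne').eq_pow_of_pow_eq_one (h j)
    exact ⟨t, h2.symm, h1⟩
  choose t ht using h1
  exact ⟨t, fun j => (ht j).1, fun j => (ht j).2⟩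

/-- the general exclusion -/
theorem exclude {c b q g : ℕ} (hc : 3 ≤ c) (hb : b ≠ 0) (hq : q.Prime)
    (hg : primChk q g (c * b) = true) {w : ℕ → ℂ} (h : Good c w)
    (h0 : w 0 = 1) (hw : ∀ j, w j ^ (c * b) = 1) (ms : List ℕ)
    (hk : chkTop q g b (c * b) 1 2 1 (goodTriv b (c * b) 1 2) ms = true) : False := by
  have hc0 : c ≠ 0 := by omega
  have hN : 0 < c * b := Nat.pos_of_ne_zero (mul_ne_zero hc0 hb)
  obtain ⟨t, ht, htN⟩ := exists_exps hN hw
  have n1 : pr c ^ 0 ≠ pr c ^ 1 := pr_pow_ne' hc0 (by omega) (by omega) (by omega)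
  have n2 : pr c ^ 0 ≠ pr c ^ 2 := pr_pow_ne' hc0 (by omega) (by omega) (by omega)
  have n3 : pr c ^ 1 ≠ pr c ^ 2 := pr_pow_ne' hc0 (by omega) (by omega) (by omega)
  exact goodTriv_false hc0 hb h h0 ht n1 n2 n3 (by omega) (by omega) ms
    (chkTop_sound hc0 hb hq (primChk_sound hN hg) h h0 ht htN one_pos (one_dvd _) (one_dvd _)
      n1 n2 n3 (one_dvd _) hk)

theorem no_six {w : ℕ → ℂ} (h : Good 6 w) (h0 : w 0 = 1) : False :=
  exclude (c := 6) (b := 5) (q := 331) (g := 2) (by norm_num) (by norm_num) (by norm_num)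
    (by decide +kernel) h h0 (reduce_six h h0) [3, 4] (by decide +kernel)

theorem no_seven {w : ℕ → ℂ} (h : Good 7 w) (h0 : w 0 = 1) : False :=
  exclude (c := 7) (b := 2) (q := 43) (g := 2) (by norm_num) (by norm_num) (by norm_num)
    (by decide +kernel) h h0 (reduce_seven (by norm_num) h h0).1 [3, 4, 5] (by decide +kernel)

theorem no_eight {w : ℕ → ℂ} (h : Good 8 w) (h0 : w 0 = 1) : False :=
  exclude (c := 8) (b := 1) (q := 41) (g := 3) (by norm_num) (by norm_num) (by norm_num)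
    (by decide +kernel) h h0 ((reduce_seven (by norm_num) h h0).2 (by norm_num)) [3, 4, 5]
    (by decide +kernel)

theorem no_nine {w : ℕ → ℂ} (h : Good 9 w) (h0 : w 0 = 1) : False :=
  exclude (c := 9) (b := 2) (q := 73) (g := 18) (by norm_num) (by norm_num) (by norm_num)
    (by decide +kernel) h h0 (reduce_seven (by norm_num) h h0).1 [3, 4, 5, 6, 7]
    (by decide +kernel)

theorem no_ten {w : ℕ → ℂ} (h : Good 10 w) (h0 : w 0 = 1) : False :=
  exclude (c := 10) (b := 1) (q := 31) (g := 15) (by norm_num) (by norm_num) (by norm_num)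
    (by decide +kernel) h h0 ((reduce_seven (by norm_num) h h0).2 (by norm_num)) [3, 4, 5]
    (by decide +kernel)

theorem no_fifteen {w : ℕ → ℂ} (h : Good 15 w) (h0 : w 0 = 1) : False :=
  exclude (c := 15) (b := 2) (q := 181) (g := 36) (by norm_num) (by norm_num) (by norm_num)
    (by decide +kernel) h h0 (reduce_seven (by norm_num) h h0).1 [3, 4, 5]
    (by decide +kernel)

theorem no_twentyfive {w : ℕ → ℂ} (h : Good 25 w) (h0 : w 0 = 1) : False := by
  have hw := (reduce_seven (by norm_num) h h0).1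
  obtain ⟨t, ht, htN⟩ := exists_exps (N := 25 * 2) (by norm_num) hw
  -- the restriction to fifth roots of unity
  have h5 : Good 5 (fun j => w (5 * j)) := Good.restrict (c := 5) (b := 5) (by norm_num) h
  have h6 : ∀ j, w (5 * j) ^ 30 = 1 := reduce_five h5 (by simpa using h0)
  have h7 : ∀ j, 5 ∣ t (5 * j) := by
    intro j
    have h8 := h6 j
    rw [ht, ← pow_mul, (pr_prim (n := 25 * 2) (by norm_num)).pow_eq_one_iff_dvd] at h8
    omega
  have hg : primChk 101 4 (25 * 2) = true := by decide +kernel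
  have n1 : pr 25 ^ 0 ≠ pr 25 ^ 5 := pr_pow_ne' (by norm_num) (by norm_num) (by norm_num) (by norm_num)
  have n2 : pr 25 ^ 0 ≠ pr 25 ^ 10 := pr_pow_ne' (by norm_num) (by norm_num) (by norm_num) (by norm_num)
  have n3 : pr 25 ^ 5 ≠ pr 25 ^ 10 := pr_pow_ne' (by norm_num) (by norm_num) (by norm_num) (by norm_num)
  exact goodTriv_false (c := 25) (b := 2) (i1 := 5) (i2 := 10) (by norm_num) (by norm_num) h h0 ht
    n1 n2 n3 (by norm_num) (by norm_num) [15, 20, 1, 2]
    (chkTop_sound (by norm_num) (by norm_num) (q := 101) (g := 4) (by norm_num)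
      (primChk_sound (by norm_num) hg) h h0 ht htN (d := 5) (by norm_num) (h7 1) (h7 2)
      n1 n2 n3 (by norm_num) (by decide +kernel))

/-- the standard tuples for `c = 5`, as exponents of a primitive 30-th root of unity -/
def std5 : List (List ℕ) :=
  [[0, 3, 6, 12, 24], [0, 1, 2, 5, 27], [0, 2, 4, 9, 25], [0, 2, 5, 16, 27], [0, 4, 9, 17, 25]]

/-- the tuples equivalent to standard ones -/
def good5 (T : List ℕ) : Bool :=
  T.take 2 == [6, 12] || (T.take 2 == [24, 18] ||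
    std5.any fun S => (List.range 5).any fun s => [1, 29].any fun ε =>
      (0 :: T) == (List.range 5).map fun j =>
        ε * (S.getD ((j + s) % 5) 0 + (30 - S.getD s 0)) % 30)

theorem five_list {w : ℕ → ℂ} (h : Good 5 w) (h0 : w 0 = 1) :
    ∃ t : ℕ → ℕ, (∀ j, w j = pr 30 ^ t j) ∧ (∀ j, t j < 30) ∧
      ∃ S ∈ std5, ∃ s < 5, ∃ ε : ℕ, (ε = 1 ∨ ε = 29) ∧
        ∀ j < 5, t j = ε * (S.getD ((j + s) % 5) 0 + (30 - S.getD s 0)) % 30 := by
  obtain ⟨t, ht, htN⟩ := exists_exps (N := 30) (by norm_num) (reduce_five h h0)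
  have hg : primChk 151 23 (5 * 6) = true := by decide +kernel
  have n1 : pr 5 ^ 0 ≠ pr 5 ^ 1 := pr_pow_ne' (by norm_num) (by norm_num) (by norm_num) (by norm_num)
  have n2 : pr 5 ^ 0 ≠ pr 5 ^ 2 := pr_pow_ne' (by norm_num) (by norm_num) (by norm_num) (by norm_num)
  have n3 : pr 5 ^ 1 ≠ pr 5 ^ 2 := pr_pow_ne' (by norm_num) (by norm_num) (by norm_num) (by norm_num)
  have h1 : good5 (t 1 :: t 2 :: [3, 4].map t) = true :=
    chkTop_sound (c := 5) (b := 6) (by norm_num) (by norm_num) (q := 151) (g := 23) (by norm_num)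
      (primChk_sound (by norm_num) hg) h h0 ht htN (d := 1) (by norm_num) (one_dvd _) (one_dvd _)
      n1 n2 n3 (by norm_num) (by decide +kernel)
  refine ⟨t, ht, htN, ?_⟩
  have t0 : t 0 = 0 := by
    have h2 := ht 0
    rw [h0] at h2
    have h3 := (pr_prim (n := 30) (by norm_num)).dvd_of_pow_eq_one _ h2.symm
    have := htN 0
    omega
  rw [good5, Bool.or_eq_true, Bool.or_eq_true] at h1
  rcases h1 with h1 | h1 | h1
  · exfalso
    apply goodTriv_false (c := 5) (b := 6) (i1 := 1) (i2 := 2) (by norm_num) (by norm_num) h h0 ht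
      n1 n2 n3 (by norm_num) (by norm_num) [3, 4]
    rw [goodTriv, Bool.or_eq_true]
    exact Or.inl h1
  · exfalso
    apply goodTriv_false (c := 5) (b := 6) (i1 := 1) (i2 := 2) (by norm_num) (by norm_num) h h0 ht
      n1 n2 n3 (by norm_num) (by norm_num) [3, 4]
    rw [goodTriv, Bool.or_eq_true]
    exact Or.inr h1
  · rw [List.any_eq_true] at h1
    obtain ⟨S, hS, h1⟩ := h1
    rw [List.any_eq_true] at h1
    obtain ⟨s, hs, h1⟩ := h1
    rw [List.any_eq_true] at h1
    obtain ⟨ε, hε, h1⟩ := h1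
    refine ⟨S, hS, s, List.mem_range.1 hs, ε, by simpa using hε, ?_⟩
    rw [beq_iff_eq] at h1
    intro j hj
    have h2 : (0 :: t 1 :: t 2 :: [3, 4].map t) = (List.range 5).map t := by
      rw [← t0]; rfl
    rw [h2] at h1
    exact (List.map_inj_left.1 h1) j (List.mem_range.2 hj)

end Pool.Agent.H59.Ex
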