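import Pool.Agent.H59.Ex.Finite

set_option autoImplicit false

namespace Pool.Agent.H59.Ex

open Complex

/-- reduction modulo a prime above two -/
theorem mod_two {M : ℕ} (hM : Odd M) :
    ∃ (K : Type) (_ : Field K) (_ : CharP K 2) (g : K), IsPrimitiveRoot g M ∧
      ∀ P : Polynomial ℤ, Polynomial.aeval (pr (4 * M)) P = 0 → Polynomial.aeval g P = 0 := by
  have hM0 : M ≠ 0 := by rintro rfl; simp at hM
  have hM2 : ¬ 2 ∣ M := by rwa [← even_iff_two_dvd, Nat.not_even_iff_odd]
  let K := AlgebraicClosure (ZMod 2)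
  have hchar : CharP K 2 := by
    exact charP_of_injective_algebraMap (algebraMap (ZMod 2) K).injective 2
  have hne : ((M : ℕ) : K) ≠ 0 := by
    rw [Ne, CharP.cast_eq_zero_iff K 2]
    exact hM2
  have : NeZero ((M : ℕ) : K) := ⟨hne⟩
  obtain ⟨g, hg⟩ := IsAlgClosed.exists_root (Polynomial.cyclotomic M K) (by
    rw [Polynomial.degree_cyclotomic]
    have := Nat.totient_pos.2 (Nat.pos_of_ne_zero hM0)
    exact_mod_cast this.ne')
  refine ⟨K, inferInstance, hchar, g, Polynomial.isRoot_cyclotomic_iff.1 hg, ?_⟩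
  intro P hP
  have hN : 4 * M ≠ 0 := by omega
  have h1 : Polynomial.cyclotomic (4 * M) ℤ ∣ P := by
    rw [Polynomial.cyclotomic_eq_minpoly (pr_prim hN) (Nat.pos_of_ne_zero hN)]
    exact minpoly.isIntegrallyClosed_dvd ((pr_prim hN).isIntegral (Nat.pos_of_ne_zero hN)) hP
  obtain ⟨Q, rfl⟩ := h1
  have h2 : Polynomial.aeval g (Polynomial.cyclotomic (4 * M) ℤ) = 0 := by
    rw [Polynomial.aeval_def, Polynomial.eval₂_eq_eval_map, Polynomial.map_cyclotomic]
    have h3 := Polynomial.cyclotomic_mul_prime_pow_eq K (p := 2) (m := M) hM2 (k := 2) (by norm_num)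
    norm_num at h3
    rw [h3, Polynomial.eval_pow, hg]
    norm_num
  rw [map_mul]
  exact mul_eq_zero_of_left (by exact h2) _

theorem char_two_eq {K : Type} [Field K] [CharP K 2] {a b : K} (h : a + b = 0) : a = b := by
  have h2 : (2 : K) = 0 := by exact_mod_cast CharP.cast_eq_zero K 2
  linear_combination h - b * h2

theorem pow_four_eq {M : ℕ} (hM : M ≠ 0) {K : Type} [Field K] {g : K} (hg : IsPrimitiveRoot g M)
    {a b : ℕ} (h : g ^ a = g ^ b) : (pr (4 * M) ^ a) ^ 4 = (pr (4 * M) ^ b) ^ 4 := by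
  have h1 : a ≡ b [MOD M] := by
    have := (hg.isOfFinOrder hM).pow_eq_pow_iff_modEq.1 h
    rwa [← hg.eq_orderOf] at this
  have h2 : 4 * a ≡ 4 * b [MOD 4 * M] := Nat.ModEq.mul_left' 4 h1
  rw [← pow_mul, ← pow_mul, mul_comm a, mul_comm b]
  exact pow_eq_pow_of_modEq h2 (pr_prim (by omega)).pow_eq_one

theorem norm_one {n : ℕ} (hn : n ≠ 0) {x : ℂ} (h : x ^ n = 1) : ‖x‖ = 1 :=
  norm_eq_one_of_pow_eq_one h hn

/-- final algebra in the sporadic case -/
theorem spor_alg {u x y : ℂ} (hu : u ^ 2 = -1) (hy : y ^ 2 = -x ^ 2)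
    (hR : 2 * (u + x * y) = (1 + u) * (x + y)) : x ^ 12 = 1 ∧ y ^ 12 = 1 ∧ u ^ 12 = 1 := by
  have hu12 : u ^ 12 = 1 := by
    linear_combination (u ^ 10 - u ^ 8 + u ^ 6 - u ^ 4 + u ^ 2 - 1) * hu
  have hy12 : y ^ 12 = x ^ 12 := by
    linear_combination (y ^ 10 - y ^ 8 * x ^ 2 + y ^ 6 * x ^ 4 - y ^ 4 * x ^ 6 + y ^ 2 * x ^ 8 -
      x ^ 10) * hy
  have h1 : (y - u * x) * (y + u * x) = 0 := by linear_combination hy - x ^ 2 * hu
  have hu1 : 1 + u ≠ 0 := by
    intro h
    have h2 : u = -1 := by linear_combination h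
    rw [h2] at hu
    norm_num at hu
  have hx12 : x ^ 12 = 1 := by
    rcases mul_eq_zero.1 h1 with h2 | h2
    · have h3 : y = u * x := by linear_combination h2
      have h4 : (1 + u) * (x ^ 2 - x + 1) = 0 := by
        rw [h3] at hR
        have h5 : (1 + u) * ((1 + u) * (x ^ 2 - x + 1)) = 0 := by
          linear_combination hR + (x ^ 2 + 1) * hu
        exact (mul_eq_zero.1 h5).resolve_left hu1
      have h6 := (mul_eq_zero.1 h4).resolve_left hu1
      linear_combination (x + 1) * (x ^ 9 - x ^ 6 + x ^ 3 - 1) * h6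
    · have h3 : y = -(u * x) := by linear_combination h2
      have h4 : (1 + u) * (x ^ 2 - u * x - 1) = 0 := by
        rw [h3] at hR
        have h5 : (1 + u) * ((1 + u) * (x ^ 2 - u * x - 1)) = 0 := by
          linear_combination -hR + (x ^ 2 - u * x -x - 1) * hu
        exact (mul_eq_zero.1 h5).resolve_left hu1
      have h6 := (mul_eq_zero.1 h4).resolve_left hu1
      have h7 : x ^ 3 = u := by linear_combination (x + u) * h6 + x * hu
      linear_combination (x ^ 9 + x ^ 6 * u + x ^ 3 * u ^ 2 + u ^ 3) * h7 + (u ^ 2 - 1) * hu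
  exact ⟨hx12, by rw [hy12, hx12], hu12⟩

/-- order dividing `4 M`, first half -/
theorem small_half {M : ℕ} (hM : Odd M) {p q r s : ℂ} (hp : p ^ (4 * M) = 1) (hq : q ^ (4 * M) = 1)
    (hr : r ^ (4 * M) = 1) (hs : s ^ (4 * M) = 1) (hpr : p ≠ r) (hqs : q ≠ s)
    (hR : 2 * (p * r + q * s) = (p + r) * (q + s)) (h4 : p ^ 4 = r ^ 4) :
    (r = -p ∧ q * s = p ^ 2) ∨ (s = -q ∧ p * r = q ^ 2) ∨
      ((q / p) ^ 12 = 1 ∧ (s / p) ^ 12 = 1 ∧ (r / p) ^ 12 = 1) := by
  have hM0 : M ≠ 0 := by rintro rfl; simp at hM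
  have hN : 4 * M ≠ 0 := by omega
  have nz : ∀ x : ℂ, x ^ (4 * M) = 1 → x ≠ 0 := by
    rintro x hx rfl
    rw [zero_pow hN] at hx
    exact zero_ne_one hx
  have hp0 := nz p hp
  have hq0 := nz q hq
  by_cases h2 : r = -p
  · left
    refine ⟨h2, ?_⟩
    have h3 : (2 : ℂ) * (q * s - p ^ 2) = 0 := by rw [h2] at hR; linear_combination hR
    have h5 := (mul_eq_zero.1 h3).resolve_left two_ne_zero
    linear_combination h5
  have hr2 : r ^ 2 = -p ^ 2 := by
    have h3 : (p - r) * ((p + r) * (p ^ 2 + r ^ 2)) = 0 := by linear_combination h4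
    have h5 := (mul_eq_zero.1 h3).resolve_left (sub_ne_zero.2 hpr)
    have h6 : p + r ≠ 0 := fun h => h2 (by linear_combination h)
    have h7 := (mul_eq_zero.1 h5).resolve_left h6
    linear_combination h7
  right
  -- the relation after division by `1 + i`
  have hR2 : p ^ 2 * (p + r) + (p - r) * (q * s) = p ^ 2 * (q + s) := by
    have h3 : (2 : ℂ) * (p ^ 2 * (p + r) + (p - r) * (q * s) - p ^ 2 * (q + s)) = 0 := by
      linear_combination (p - r) * hR - (q + s - 2 * p) * hr2
    have := (mul_eq_zero.1 h3).resolve_left two_ne_zero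
    linear_combination this
  have : NeZero (4 * M) := ⟨hN⟩
  obtain ⟨a, -, ha⟩ := (pr_prim hN).eq_pow_of_pow_eq_one hp
  obtain ⟨b, -, hb⟩ := (pr_prim hN).eq_pow_of_pow_eq_one hq
  obtain ⟨c, -, hc⟩ := (pr_prim hN).eq_pow_of_pow_eq_one hr
  obtain ⟨d, -, hd⟩ := (pr_prim hN).eq_pow_of_pow_eq_one hs
  obtain ⟨K, _, _, g, hg, hP⟩ := mod_two hM
  have h2K : (2 : K) = 0 := by exact_mod_cast CharP.cast_eq_zero K 2
  have hgac : g ^ a = g ^ c := by
    have h3 : c ≡ a [MOD M] := by
      have h5 : (4 * c) ≡ (4 * a) [MOD 4 * M] := by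
        have h6 : pr (4 * M) ^ (4 * c) = pr (4 * M) ^ (4 * a) := by
          rw [mul_comm 4 c, mul_comm 4 a, pow_mul, pow_mul, ha, hc, h4]
        have := ((pr_prim hN).isOfFinOrder hN).pow_eq_pow_iff_modEq.1 h6
        rwa [← (pr_prim hN).eq_orderOf] at this
      exact Nat.ModEq.mul_left_cancel' (by norm_num) h5
    exact (pow_eq_pow_of_modEq h3 hg.pow_eq_one).symm
  have h5 : g ^ b = g ^ d := by
    have h6 := hP ((Polynomial.X ^ a) ^ 2 * (Polynomial.X ^ a + Polynomial.X ^ c) +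
      (Polynomial.X ^ a - Polynomial.X ^ c) * (Polynomial.X ^ b * Polynomial.X ^ d) -
      (Polynomial.X ^ a) ^ 2 * (Polynomial.X ^ b + Polynomial.X ^ d)) (by
        simp only [map_add, map_sub, map_mul, map_pow, Polynomial.aeval_X]
        rw [ha, hb, hc, hd]
        linear_combination hR2)
    simp only [map_add, map_sub, map_mul, map_pow, Polynomial.aeval_X] at h6
    rw [← hgac] at h6
    have hga : (g ^ a) ^ 2 ≠ 0 := pow_ne_zero _ (pow_ne_zero _ (hg.ne_zero hM0))
    have h7 : (g ^ a) ^ 2 * (g ^ b + g ^ d) = 0 := by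
      linear_combination -h6 + (g ^ a) ^ 3 * h2K
    exact char_two_eq ((mul_eq_zero.1 h7).resolve_left hga)
  have h6 : q ^ 4 = s ^ 4 := by
    rw [← hb, ← hd]
    exact pow_four_eq hM0 hg h5
  by_cases h7 : s = -q
  · left
    refine ⟨h7, ?_⟩
    have h3 : (2 : ℂ) * (p * r - q ^ 2) = 0 := by rw [h7] at hR; linear_combination hR
    have h5 := (mul_eq_zero.1 h3).resolve_left two_ne_zero
    linear_combination h5
  right
  have hs2 : s ^ 2 = -q ^ 2 := by
    have h3 : (q - s) * ((q + s) * (q ^ 2 + s ^ 2)) = 0 := by linear_combination h6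
    have h5 := (mul_eq_zero.1 h3).resolve_left (sub_ne_zero.2 hqs)
    have h6 : q + s ≠ 0 := fun h => h7 (by linear_combination h)
    have h7 := (mul_eq_zero.1 h5).resolve_left h6
    linear_combination h7
  apply spor_alg (u := r / p) (x := q / p) (y := s / p)
  · rw [div_pow, hr2]; field_simp
  · rw [div_pow, div_pow, hs2]; ring
  · field_simp
    linear_combination hR

/-- order dividing `4 M` -/
theorem small_case {M : ℕ} (hM : Odd M) {p q r s : ℂ} (hp : p ^ (4 * M) = 1)
    (hq : q ^ (4 * M) = 1)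
    (hr : r ^ (4 * M) = 1) (hs : s ^ (4 * M) = 1) (hpr : p ≠ r) (hqs : q ≠ s)
    (hR : 2 * (p * r + q * s) = (p + r) * (q + s)) :
    (r = -p ∧ q * s = p ^ 2) ∨ (s = -q ∧ p * r = q ^ 2) ∨
      ((q / p) ^ 12 = 1 ∧ (s / p) ^ 12 = 1 ∧ (r / p) ^ 12 = 1) := by
  have hM0 : M ≠ 0 := by rintro rfl; simp at hM
  have hN : 4 * M ≠ 0 := by omega
  have nz : ∀ x : ℂ, x ^ (4 * M) = 1 → x ≠ 0 := by
    rintro x hx rfl
    rw [zero_pow hN] at hx
    exact zero_ne_one hx
  have : NeZero (4 * M) := ⟨hN⟩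
  obtain ⟨a, -, ha⟩ := (pr_prim hN).eq_pow_of_pow_eq_one hp
  obtain ⟨b, -, hb⟩ := (pr_prim hN).eq_pow_of_pow_eq_one hq
  obtain ⟨c, -, hc⟩ := (pr_prim hN).eq_pow_of_pow_eq_one hr
  obtain ⟨d, -, hd⟩ := (pr_prim hN).eq_pow_of_pow_eq_one hs
  obtain ⟨K, _, _, g, hg, hP⟩ := mod_two hM
  have h2K : (2 : K) = 0 := by exact_mod_cast CharP.cast_eq_zero K 2
  have h5 : (g ^ a + g ^ c) * (g ^ b + g ^ d) = 0 := by
    have h6 := hP (2 * (Polynomial.X ^ a * Polynomial.X ^ c + Polynomial.X ^ b * Polynomial.X ^ d) -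
      (Polynomial.X ^ a + Polynomial.X ^ c) * (Polynomial.X ^ b + Polynomial.X ^ d)) (by
        simp only [map_add, map_sub, map_mul, map_pow, Polynomial.aeval_X, map_ofNat]
        rw [ha, hb, hc, hd]
        linear_combination hR)
    simp only [map_add, map_sub, map_mul, map_pow, Polynomial.aeval_X, map_ofNat] at h6
    linear_combination -h6 + (g ^ a * g ^ c + g ^ b * g ^ d) * h2K
  rcases mul_eq_zero.1 h5 with h6 | h6
  · have h7 : p ^ 4 = r ^ 4 := by
      rw [← ha, ← hc]
      exact pow_four_eq hM0 hg (char_two_eq h6)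
    exact small_half hM hp hq hr hs hpr hqs hR h7
  · have h7 : q ^ 4 = s ^ 4 := by
      rw [← hb, ← hd]
      exact pow_four_eq hM0 hg (char_two_eq h6)
    rcases small_half hM hq hr hs hp hqs hpr.symm (by linear_combination hR) h7 with h8 | h8 | h8
    · right; left
      exact ⟨h8.1, by linear_combination h8.2⟩
    · left
      refine ⟨by linear_combination h8.1, ?_⟩
      rw [h8.2, h8.1]; ring
    · right; right
      obtain ⟨h9, h10, h11⟩ := h8
      have hp0 := nz p hp
      have hq0 := nz q hq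
      rw [div_pow, div_eq_one_iff_eq (pow_ne_zero _ hq0)] at h9 h10 h11
      refine ⟨?_, ?_, ?_⟩ <;> rw [div_pow, div_eq_one_iff_eq (pow_ne_zero _ hp0)]
      · exact h10.symm
      · rw [h11, h10]
      · rw [h9, h10]

/-- adjacent sign pattern -/
theorem adj {N : ℕ} (hN : 0 < N) (h8 : 8 ∣ N) {x u y : ℂ} (hx : x ^ (N / 2) = 1)
    (hu : u ^ (N / 2) = -1) (hxN : x ^ N = 1) (huN : u ^ N = 1)
    (hR : 2 * (u + x * y) = (1 + u) * (x + y)) (hR' : 2 * (-u - x * y) = (1 - u) * (x - y)) :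
    False := by
  obtain ⟨n, rfl⟩ := h8
  have hn : 0 < n := by omega
  have hN0 : 8 * n ≠ 0 := by omega
  have e2 : 8 * n / 2 = 4 * n := by omega
  rw [e2] at hx hu
  have nz : ∀ x : ℂ, x ^ (8 * n) = 1 → x ≠ 0 := by
    rintro x hx rfl
    rw [zero_pow hN0] at hx
    exact zero_ne_one hx
  have hx0 := nz x hxN
  have hu0 := nz u huN
  have h1 : x = -(u * y) := by
    have h2 : (2 : ℂ) * (x + u * y) = 0 := by linear_combination -hR - hR'
    linear_combination (mul_eq_zero.1 h2).resolve_left two_ne_zero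
  have h2 : 2 * u ^ 2 - 2 * x ^ 2 - x * u ^ 2 + x = 0 := by
    have h3 : (2 : ℂ) * (2 * u ^ 2 - 2 * x ^ 2 - x * u ^ 2 + x) = 0 := by
      linear_combination u * (hR - hR') - (4 * x - 2) * h1
    exact (mul_eq_zero.1 h3).resolve_left two_ne_zero
  have : NeZero (8 * n) := ⟨hN0⟩
  obtain ⟨a, -, ha⟩ := (pr_prim hN0).eq_pow_of_pow_eq_one hxN
  obtain ⟨b, -, hb⟩ := (pr_prim hN0).eq_pow_of_pow_eq_one huN
  have hcop : Nat.Coprime (1 + 2 * n) (8 * n) := by
    have h3 : Nat.Coprime (1 + 2 * n) n := by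
      rw [mul_comm 2 n, Nat.coprime_add_mul_left_left]
      exact Nat.coprime_one_left n
    have h4 : Nat.Coprime (1 + 2 * n) (2 ^ 3) := by
      apply Nat.Coprime.pow_right
      rw [Nat.coprime_two_right]
      exact ⟨n, by ring⟩
    have : 8 * n = 2 ^ 3 * n := by norm_num
    rw [this]
    exact Nat.Coprime.mul_right h4 h3
  have h3 := transferC hN0 hcop (2 * (Polynomial.X ^ b) ^ 2 - 2 * (Polynomial.X ^ a) ^ 2 -
    Polynomial.X ^ a * (Polynomial.X ^ b) ^ 2 + Polynomial.X ^ a) (by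
      simp only [map_add, map_sub, map_mul, map_pow, Polynomial.aeval_X, map_ofNat]
      rw [ha, hb]
      linear_combination h2)
  simp only [map_add, map_sub, map_mul, map_pow, Polynomial.aeval_X, map_ofNat] at h3
  have e : ∀ c : ℕ, (pr (8 * n) ^ (1 + 2 * n)) ^ c = (pr (8 * n) ^ c) * (pr (8 * n) ^ c) ^ (2 * n) := by
    intro c
    rw [← pow_mul, ← pow_mul, ← pow_add]
    congr 1; ring
  rw [e a, e b, ha, hb] at h3
  have hρ : x ^ (2 * n) = 1 ∨ x ^ (2 * n) = -1 := by
    apply sq_eq_sq_iff_eq_or_eq_neg.1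
    rw [one_pow, ← pow_mul, ← hx]
    congr 1; ring
  have hθ : (u ^ (2 * n)) ^ 2 = -1 := by
    rw [← pow_mul, ← hu]
    congr 1; ring
  have nx := norm_one hN0 hxN
  have nu := norm_one hN0 huN
  rcases hρ with h4 | h4
  · rw [h4] at h3
    have h5 : (2 : ℂ) * (x * (1 - 2 * x)) = 0 := by
      linear_combination h2 + h3 - (2 * u ^ 2 - x * u ^ 2) * hθ
    have h6 := (mul_eq_zero.1 ((mul_eq_zero.1 h5).resolve_left two_ne_zero)).resolve_left hx0
    have h7 : x = 1 / 2 := by linear_combination (-1 / 2) * h6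
    rw [h7] at nx
    norm_num at nx
  · rw [h4] at h3
    have h5 : (2 : ℂ) * (2 * u ^ 2 + x) = 0 := by
      linear_combination h2 - h3 + (2 * u ^ 2 + x * u ^ 2) * hθ
    have h6 := (mul_eq_zero.1 h5).resolve_left two_ne_zero
    have h7 : x = -(2 * u ^ 2) := by linear_combination h6
    rw [h7] at nx
    rw [norm_neg, norm_mul, norm_pow, nu] at nx
    norm_num at nx

/-- the classification of the solutions for four points -/
theorem four_points {x u y : ℂ} (hx : ∃ n, 0 < n ∧ x ^ n = 1) (hu : ∃ n, 0 < n ∧ u ^ n = 1)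
    (hy : ∃ n, 0 < n ∧ y ^ n = 1) (h1x : 1 ≠ x) (h1u : 1 ≠ u) (h1y : 1 ≠ y) (hxu : x ≠ u)
    (hxy : x ≠ y) (huy : u ≠ y) (hR : 2 * (u + x * y) = (1 + u) * (x + y)) :
    (u = -1 ∧ x * y = 1) ∨ (y = -x ∧ u = x ^ 2) ∨ (x ^ 12 = 1 ∧ y ^ 12 = 1 ∧ u ^ 12 = 1) := by
  classical
  have hex : ∃ n, 0 < n ∧ (x ^ n = 1 ∧ u ^ n = 1 ∧ y ^ n = 1) := by
    obtain ⟨a, ha, ha'⟩ := hx
    obtain ⟨b, hb, hb'⟩ := hu
    obtain ⟨c, hc, hc'⟩ := hy
    refine ⟨a * b * c, by positivity, ?_, ?_, ?_⟩
    · rw [show a * b * c = a * (b * c) by ring, pow_mul, ha', one_pow]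
    · rw [show a * b * c = b * (a * c) by ring, pow_mul, hb', one_pow]
    · rw [show a * b * c = c * (a * b) by ring, pow_mul, hc', one_pow]
  obtain ⟨hN, hxN, huN, hyN⟩ := Nat.find_spec hex
  have hmin := fun m (hm : m < Nat.find hex) => Nat.find_min hex hm
  set N := Nat.find hex with hNdef
  clear_value N
  by_cases h8 : 8 ∣ N
  · -- the sign of the conjugation
    obtain ⟨n, rfl⟩ := h8
    have hn : 0 < n := by omega
    have hN0 : 8 * n ≠ 0 := by omega
    have : NeZero (8 * n) := ⟨hN0⟩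
    have e2 : 8 * n / 2 = 4 * n := by omega
    have hmin' := hmin (4 * n) (by omega)
    have nz : ∀ x : ℂ, x ^ (8 * n) = 1 → x ≠ 0 := by
      rintro x hx rfl
      rw [zero_pow hN0] at hx
      exact zero_ne_one hx
    have hx0 := nz x hxN
    have hu0 := nz u huN
    have hy0 := nz y hyN
    have sgn : ∀ v : ℂ, v ^ (8 * n) = 1 → v ^ (4 * n) = 1 ∨ v ^ (4 * n) = -1 := by
      intro v hv
      apply sq_eq_sq_iff_eq_or_eq_neg.1
      rw [one_pow, ← pow_mul, ← hv]
      congr 1; ring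
    obtain ⟨a, -, ha⟩ := (pr_prim hN0).eq_pow_of_pow_eq_one hxN
    obtain ⟨b, -, hb⟩ := (pr_prim hN0).eq_pow_of_pow_eq_one huN
    obtain ⟨c, -, hc⟩ := (pr_prim hN0).eq_pow_of_pow_eq_one hyN
    have hcop : Nat.Coprime (1 + 4 * n) (8 * n) := by
      have h3 : Nat.Coprime (1 + 4 * n) n := by
        rw [mul_comm 4 n, Nat.coprime_add_mul_left_left]
        exact Nat.coprime_one_left n
      have h4 : Nat.Coprime (1 + 4 * n) (2 ^ 3) := by
        apply Nat.Coprime.pow_right
        rw [Nat.coprime_two_right]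
        exact ⟨2 * n, by ring⟩
      have : 8 * n = 2 ^ 3 * n := by norm_num
      rw [this]
      exact Nat.Coprime.mul_right h4 h3
    have h3 := transferC hN0 hcop (2 * (Polynomial.X ^ b + Polynomial.X ^ a * Polynomial.X ^ c) -
      (1 + Polynomial.X ^ b) * (Polynomial.X ^ a + Polynomial.X ^ c)) (by
        simp only [map_add, map_sub, map_mul, map_pow, Polynomial.aeval_X, map_ofNat, map_one]
        rw [ha, hb, hc]
        linear_combination hR)
    simp only [map_add, map_sub, map_mul, map_pow, Polynomial.aeval_X, map_ofNat, map_one] at h3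
    have e : ∀ c : ℕ, (pr (8 * n) ^ (1 + 4 * n)) ^ c =
        (pr (8 * n) ^ c) * (pr (8 * n) ^ c) ^ (4 * n) := by
      intro c
      rw [← pow_mul, ← pow_mul, ← pow_add]
      congr 1; ring
    rw [e a, e b, e c, ha, hb, hc] at h3
    rcases sgn x hxN with sx | sx <;> rcases sgn u huN with su | su <;>
      rcases sgn y hyN with sy | sy <;> rw [sx, su, sy] at h3
    · exact absurd ⟨by omega, sx, su, sy⟩ hmin'
    · -- y odd one out
      exfalso
      have q1 : (2 : ℂ) * (2 * u - (1 + u) * x) = 0 := by linear_combination h3 + hR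
      have q2 : (2 * y) * (2 * x - (1 + u)) = 0 := by linear_combination hR - h3
      have q3 := (mul_eq_zero.1 q1).resolve_left two_ne_zero
      have q4 := (mul_eq_zero.1 q2).resolve_left (mul_ne_zero two_ne_zero hy0)
      have q5 : (1 - u) ^ 2 = 0 := by linear_combination (-2) * q3 - (1 + u) * q4
      exact h1u (by linear_combination (pow_eq_zero_iff two_ne_zero).1 q5)
    · -- u odd one out
      exfalso
      have q1 : (2 : ℂ) * (2 * (x * y) - (x + y)) = 0 := by linear_combination h3 + hR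
      have q2 : (2 * u) * (2 - (x + y)) = 0 := by linear_combination hR - h3
      have q3 := (mul_eq_zero.1 q1).resolve_left two_ne_zero
      have q4 := (mul_eq_zero.1 q2).resolve_left (mul_ne_zero two_ne_zero hu0)
      have q5 : (x - y) ^ 2 = 0 := by linear_combination (-2) * q3 + (-x - y) * q4
      exact hxy (by linear_combination (pow_eq_zero_iff two_ne_zero).1 q5)
    · -- x with 1, u with y
      exfalso
      exact adj hN (Dvd.intro n rfl) (by rw [e2]; exact sx) (by rw [e2]; exact su) hxN huN hR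
        (by linear_combination h3)
    · -- x odd one out
      exfalso
      have q1 : (2 : ℂ) * (2 * u - (1 + u) * y) = 0 := by linear_combination h3 + hR
      have q2 : (2 * x) * (2 * y - (1 + u)) = 0 := by linear_combination hR - h3
      have q3 := (mul_eq_zero.1 q1).resolve_left two_ne_zero
      have q4 := (mul_eq_zero.1 q2).resolve_left (mul_ne_zero two_ne_zero hx0)
      have q5 : (1 - u) ^ 2 = 0 := by linear_combination (-2) * q3 - (1 + u) * q4
      exact h1u (by linear_combination (pow_eq_zero_iff two_ne_zero).1 q5)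
    · -- kite
      have q1 : (2 : ℂ) * ((1 + u) * (x + y)) = 0 := by linear_combination h3 - hR
      have q2 : (4 : ℂ) * (u + x * y) = 0 := by linear_combination h3 + hR
      have q3 := (mul_eq_zero.1 q1).resolve_left two_ne_zero
      have q4 := (mul_eq_zero.1 q2).resolve_left (by norm_num)
      rcases mul_eq_zero.1 q3 with q5 | q5
      · left
        have q6 : u = -1 := by linear_combination q5
        exact ⟨q6, by rw [q6] at q4; linear_combination q4⟩
      · right; left
        have q6 : y = -x := by linear_combination q5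
        exact ⟨q6, by rw [q6] at q4; linear_combination q4⟩
    · -- y with 1, u with x
      exfalso
      exact adj (x := y) (y := x) hN (Dvd.intro n rfl) (by rw [e2]; exact sy) (by rw [e2]; exact su)
        hyN huN (by linear_combination hR) (by linear_combination h3)
    · -- 1 odd one out
      exfalso
      have q1 : (2 : ℂ) * (2 * (x * y) - u * (x + y)) = 0 := by linear_combination h3 + hR
      have q2 : (2 : ℂ) * (2 * u - (x + y)) = 0 := by linear_combination hR - h3
      have q3 := (mul_eq_zero.1 q1).resolve_left two_ne_zero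
      have q4 := (mul_eq_zero.1 q2).resolve_left two_ne_zero
      have q5 : (x - y) ^ 2 = 0 := by linear_combination (-2) * q3 + (-x - y) * q4
      exact hxy (by linear_combination (pow_eq_zero_iff two_ne_zero).1 q5)
  · obtain ⟨k, m, hm, hNe⟩ := Nat.exists_eq_two_pow_mul_odd hN.ne'
    have hk : k ≤ 2 := by
      by_contra hk
      apply h8
      rw [hNe]
      exact Dvd.dvd.mul_right (pow_dvd_pow 2 (show 3 ≤ k by omega)) m
    have hd : N ∣ 4 * m := by
      rw [hNe]
      exact Nat.mul_dvd_mul_right (pow_dvd_pow 2 hk) m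
    have lift : ∀ v : ℂ, v ^ N = 1 → v ^ (4 * m) = 1 := by
      intro v hv
      obtain ⟨e, he⟩ := hd
      rw [he, pow_mul, hv, one_pow]
    have := small_case (M := m) hm (p := 1) (q := x) (r := u) (s := y) (one_pow _) (lift x hxN)
      (lift u huN) (lift y hyN) h1u hxy (by linear_combination hR)
    simpa using this

end Pool.Agent.H59.Ex
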