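import Pool.Agent.H59.Ex.Finite

set_option autoImplicit false

namespace Pool.Agent.H59.Ex

open Complex Finset

/-- the functional `X ^ n ↦ (2 n - s) ^ m` -/
noncomputable def L (p : ℕ) (s : ZMod p) (m : ℕ) : Polynomial ℤ →ₗ[ℤ] ZMod p :=
  (Polynomial.basisMonomials ℤ).constr ℤ (fun n : ℕ => (2 * (n : ZMod p) - s) ^ m)

theorem L_pow (p : ℕ) (s : ZMod p) (m n : ℕ) :
    L p s m (Polynomial.X ^ n) = (2 * (n : ZMod p) - s) ^ m := by
  have h : (Polynomial.X ^ n : Polynomial ℤ) = Polynomial.basisMonomials ℤ n := by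
    rw [Polynomial.coe_basisMonomials, Polynomial.X_pow_eq_monomial]
  rw [L, h, Module.Basis.constr_basis]

theorem sum_range_zmod {p : ℕ} [NeZero p] (f : ZMod p → ZMod p) :
    ∑ a ∈ range p, f (a : ZMod p) = ∑ x : ZMod p, f x := by
  refine Finset.sum_bij' (fun a _ => (a : ZMod p)) (fun x _ => x.val) ?_ ?_ ?_ ?_ ?_
  · intro a _; exact Finset.mem_univ _
  · intro x _; exact Finset.mem_range.2 (ZMod.val_lt x)
  · intro a ha
    exact ZMod.val_cast_of_lt (Finset.mem_range.1 ha)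
  · intro x _; exact ZMod.natCast_zmod_val x
  · intro a _; rfl

theorem L_cyclotomic {p : ℕ} (hp : p.Prime) (h2 : p ≠ 2) (s : ZMod p) {m : ℕ} (hm : m < p - 1)
    (G : Polynomial ℤ) : L p s m (Polynomial.cyclotomic p ℤ * G) = 0 := by
  have : Fact p.Prime := ⟨hp⟩
  have hlin : ((L p s m).comp (LinearMap.mulLeft ℤ (Polynomial.cyclotomic p ℤ))) = 0 := by
    apply (Polynomial.basisMonomials ℤ).ext
    intro n
    rw [Polynomial.coe_basisMonomials]
    simp only [LinearMap.comp_apply, LinearMap.mulLeft_apply, LinearMap.zero_apply]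
    rw [← Polynomial.X_pow_eq_monomial, Polynomial.cyclotomic_prime, Finset.sum_mul, map_sum]
    simp only [← pow_add, L_pow]
    push_cast
    rw [sum_range_zmod (fun x => (2 * (x + (n : ZMod p)) - s) ^ m)]
    have h2' : (2 : ZMod p) ≠ 0 := by
      intro h3
      have : ((2 : ℕ) : ZMod p) = 0 := by exact_mod_cast h3
      rw [ZMod.natCast_eq_zero_iff] at this
      exact h2 ((Nat.prime_dvd_prime_iff_eq hp Nat.prime_two).1 this)
    have h4 : Function.Bijective (fun x : ZMod p => 2 * (x + (n : ZMod p)) - s) := by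
      rw [← Finite.injective_iff_bijective]
      intro x y hxy
      simp only at hxy
      have h5 : (2 : ZMod p) * (x - y) = 0 := by linear_combination hxy
      exact sub_eq_zero.1 ((mul_eq_zero.1 h5).resolve_left h2')
    rw [h4.sum_comp (fun y : ZMod p => y ^ m)]
    exact FiniteField.sum_pow_lt_card_sub_one (ZMod p) m (by rwa [ZMod.card])
  have := LinearMap.congr_fun hlin G
  simpa using this

theorem L_zero {p : ℕ} (hp : p.Prime) (h2 : p ≠ 2) (s : ZMod p) {m : ℕ} (hm : m < p - 1)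
    (P : Polynomial ℤ) (hP : Polynomial.aeval (pr p) P = 0) : L p s m P = 0 := by
  have h1 : Polynomial.cyclotomic p ℤ ∣ P := by
    rw [Polynomial.cyclotomic_eq_minpoly (pr_prim hp.ne_zero) hp.pos]
    exact minpoly.isIntegrallyClosed_dvd ((pr_prim hp.ne_zero).isIntegral hp.pos) hP
  obtain ⟨Q, rfl⟩ := h1
  exact L_cyclotomic hp h2 s hm Q

/-- a block of the relation -/
noncomputable def blk (σ τ : ℤ) (i j k n a b : ℕ) : Polynomial ℤ :=
  σ • (Polynomial.X ^ (i + k + a) - Polynomial.X ^ (i + n + a) - Polynomial.X ^ (j + k + a) +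
    Polynomial.X ^ (j + n + a)) +
  τ • (Polynomial.X ^ (i + k + b) - Polynomial.X ^ (i + n + b) - Polynomial.X ^ (j + k + b) +
    Polynomial.X ^ (j + n + b))

theorem blk_aeval (z : ℂ) (σ τ : ℤ) (i j k n a b : ℕ) :
    Polynomial.aeval z (blk σ τ i j k n a b) =
      (z ^ i - z ^ j) * (z ^ k - z ^ n) * (σ * z ^ a + τ * z ^ b) := by
  simp only [blk, map_add, map_sub, map_zsmul, map_pow, Polynomial.aeval_X]
  simp only [zsmul_eq_mul]
  ring

theorem blk_L {p : ℕ} (s : ZMod p) (m : ℕ) (σ τ : ℤ) (i j k n a b : ℕ) :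
    L p s m (blk σ τ i j k n a b) =
      σ * ((2 * (i + k + a) - s) ^ m - (2 * (i + n + a) - s) ^ m - (2 * (j + k + a) - s) ^ m +
        (2 * (j + n + a) - s) ^ m) +
      τ * ((2 * (i + k + b) - s) ^ m - (2 * (i + n + b) - s) ^ m - (2 * (j + k + b) - s) ^ m +
        (2 * (j + n + b) - s) ^ m) := by
  simp only [blk, map_add, map_sub, map_zsmul, L_pow, Nat.cast_add]
  simp only [zsmul_eq_mul]

section
variable {p : ℕ} {w : ℕ → ℂ} {e : ℕ → ℕ} {ε : ℕ → ℤ}

theorem rel_L (hp : p.Prime) (h2 : p ≠ 2) (h : Good p w) (hw : ∀ j, w j = ε j * pr p ^ e j)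
    {m : ℕ} (hm : m < p - 1) (s : ZMod p) (i j k n : ℕ) :
    L p s m (blk (ε i * ε j) (ε k * ε n) i j k n (e i + e j) (e k + e n)) -
    L p s m (blk (ε i * ε k) (ε j * ε n) i k j n (e i + e k) (e j + e n)) +
    L p s m (blk (ε i * ε n) (ε j * ε k) i n j k (e i + e n) (e j + e k)) = 0 := by
  rw [← map_sub, ← map_add]
  apply L_zero hp h2 s hm
  rw [map_add, map_sub, blk_aeval, blk_aeval, blk_aeval]
  have h1 := h.sym i j k n
  simp only [hw] at h1
  push_cast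
  rw [← h1]
  ring

/-- no two against two splitting of the signs -/
theorem no_split (hp : p.Prime) (h7 : 7 < p) (h : Good p w) (hw : ∀ j, w j = ε j * pr p ^ e j)
    {i j k n : ℕ} (hij : ((i : ℕ) : ZMod p) ≠ j) (hkn : ((k : ℕ) : ZMod p) ≠ n)
    (hε : ∀ j, ε j = 1 ∨ ε j = -1)
    (e1 : ε i = ε j) (e2 : ε k = ε n) : ε i = ε k := by
  have : Fact p.Prime := ⟨hp⟩
  by_contra hne
  have h0 := rel_L hp (by omega) h hw (m := 2) (by omega) 0 i j k n
  have h01 := rel_L hp (by omega) h hw (m := 1) (by omega) 0 i j k n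
  have e3 : ε k = - ε i := by
    rcases hε i with a | a <;> rcases hε k with b | b <;> omega
  have e4 : ε i * ε i = 1 := by
    rcases hε i with a | a <;> rw [a] <;> norm_num
  rw [← e1, ← e2, e3] at h0
  simp only [blk_L] at h0
  have e5 : (ε i : ZMod p) * (ε i : ZMod p) = 1 := by exact_mod_cast congrArg (Int.cast : ℤ → ZMod p) e4
  push_cast at h0
  have h3 : (32 : ZMod p) * (((i : ZMod p) - j) * (k - n)) = 0 := by
    linear_combination h0 - (32 * (((i : ZMod p) - j) * (k - n))) * e5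
  have h32 : (32 : ZMod p) ≠ 0 := by
    intro h4
    have : ((2 ^ 5 : ℕ) : ZMod p) = 0 := by norm_num; exact h4
    rw [ZMod.natCast_eq_zero_iff] at this
    have := (Nat.prime_dvd_prime_iff_eq hp Nat.prime_two).1 (hp.dvd_of_dvd_pow this)
    omega
  have := (mul_eq_zero.1 h3).resolve_left h32
  rcases mul_eq_zero.1 this with h5 | h5
  · exact hij (sub_eq_zero.1 h5)
  · exact hkn (sub_eq_zero.1 h5)

theorem natCast_ne_zero_of_primes {p : ℕ} (hp : p.Prime) (h7 : 7 < p) (a b c : ℕ) :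
    ((2 ^ a * 3 ^ b * 5 ^ c : ℕ) : ZMod p) ≠ 0 := by
  rw [Ne, ZMod.natCast_eq_zero_iff, hp.dvd_mul, hp.dvd_mul]
  rintro ((h | h) | h)
  · have := (Nat.prime_dvd_prime_iff_eq hp Nat.prime_two).1 (hp.dvd_of_dvd_pow h)
    omega
  · have := (Nat.prime_dvd_prime_iff_eq hp Nat.prime_three).1 (hp.dvd_of_dvd_pow h)
    omega
  · have := (Nat.prime_dvd_prime_iff_eq hp Nat.prime_five).1 (hp.dvd_of_dvd_pow h)
    omega

theorem poly4 {K : Type} [Field K] (a b c d x y u v s : K) (h384 : (384 : K) ≠ 0)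
    (hs : s = a + b + c + d + (x + y + u + v))
    (h4 : (1 * ((2 * (a + c + (x + y)) - s) ^ 4 - (2 * (a + d + (x + y)) - s) ^ 4 -
      (2 * (b + c + (x + y)) - s) ^ 4 + (2 * (b + d + (x + y)) - s) ^ 4) +
      1 * ((2 * (a + c + (u + v)) - s) ^ 4 - (2 * (a + d + (u + v)) - s) ^ 4 -
      (2 * (b + c + (u + v)) - s) ^ 4 + (2 * (b + d + (u + v)) - s) ^ 4)) -
      (1 * ((2 * (a + b + (x + u)) - s) ^ 4 - (2 * (a + d + (x + u)) - s) ^ 4 -
      (2 * (c + b + (x + u)) - s) ^ 4 + (2 * (c + d + (x + u)) - s) ^ 4) +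
      1 * ((2 * (a + b + (y + v)) - s) ^ 4 - (2 * (a + d + (y + v)) - s) ^ 4 -
      (2 * (c + b + (y + v)) - s) ^ 4 + (2 * (c + d + (y + v)) - s) ^ 4)) +
      (1 * ((2 * (a + b + (x + v)) - s) ^ 4 - (2 * (a + c + (x + v)) - s) ^ 4 -
      (2 * (d + b + (x + v)) - s) ^ 4 + (2 * (d + c + (x + v)) - s) ^ 4) +
      1 * ((2 * (a + b + (y + u)) - s) ^ 4 - (2 * (a + c + (y + u)) - s) ^ 4 -
      (2 * (d + b + (y + u)) - s) ^ 4 + (2 * (d + c + (y + u)) - s) ^ 4)) = 0) :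
    (a - b) * (c - d) * ((x - u) * (y - v)) = (a - c) * (b - d) * ((x - y) * (u - v)) := by
  subst hs
  have h : (384 : K) * ((a - b) * (c - d) * ((x - u) * (y - v)) -
      (a - c) * (b - d) * ((x - y) * (u - v))) = 0 := by
    linear_combination h4
  exact sub_eq_zero.1 ((mul_eq_zero.1 h).resolve_left h384)

theorem poly6_core {K : Type} [Field K] (α β γ α' β' γ' : K)
    (h6 : (1 * ((β + α') ^ 6 - (γ + α') ^ 6 - (-γ + α') ^ 6 + (-β + α') ^ 6) +
      1 * ((β + -α') ^ 6 - (γ + -α') ^ 6 - (-γ + -α') ^ 6 + (-β + -α') ^ 6)) -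
      (1 * ((α + β') ^ 6 - (γ + β') ^ 6 - (-γ + β') ^ 6 + (-α + β') ^ 6) +
      1 * ((α + -β') ^ 6 - (γ + -β') ^ 6 - (-γ + -β') ^ 6 + (-α + -β') ^ 6)) +
      (1 * ((α + γ') ^ 6 - (β + γ') ^ 6 - (-β + γ') ^ 6 + (-α + γ') ^ 6) +
      1 * ((α + -γ') ^ 6 - (β + -γ') ^ 6 - (-β + -γ') ^ 6 + (-α + -γ') ^ 6)) = 0)
    (hX : (β ^ 2 - γ ^ 2) * (α' ^ 2 - γ' ^ 2) = (α ^ 2 - γ ^ 2) * (β' ^ 2 - γ' ^ 2)) :
    (60 : K) * ((α ^ 2 - γ ^ 2) * (α' ^ 2 - β' ^ 2) *
      ((β' ^ 2 - γ' ^ 2) - (β ^ 2 - γ ^ 2))) = 0 := by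
  linear_combination h6 - (60 * (α ^ 2 + β ^ 2) + 60 * (α' ^ 2 + γ' ^ 2)) * hX

theorem poly6 {K : Type} [Field K] (a b c d x y u v s : K) (h3840 : (3840 : K) ≠ 0)
    (hs : s = a + b + c + d + (x + y + u + v))
    (h6 : (1 * ((2 * (a + c + (x + y)) - s) ^ 6 - (2 * (a + d + (x + y)) - s) ^ 6 -
      (2 * (b + c + (x + y)) - s) ^ 6 + (2 * (b + d + (x + y)) - s) ^ 6) +
      1 * ((2 * (a + c + (u + v)) - s) ^ 6 - (2 * (a + d + (u + v)) - s) ^ 6 -
      (2 * (b + c + (u + v)) - s) ^ 6 + (2 * (b + d + (u + v)) - s) ^ 6)) -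
      (1 * ((2 * (a + b + (x + u)) - s) ^ 6 - (2 * (a + d + (x + u)) - s) ^ 6 -
      (2 * (c + b + (x + u)) - s) ^ 6 + (2 * (c + d + (x + u)) - s) ^ 6) +
      1 * ((2 * (a + b + (y + v)) - s) ^ 6 - (2 * (a + d + (y + v)) - s) ^ 6 -
      (2 * (c + b + (y + v)) - s) ^ 6 + (2 * (c + d + (y + v)) - s) ^ 6)) +
      (1 * ((2 * (a + b + (x + v)) - s) ^ 6 - (2 * (a + c + (x + v)) - s) ^ 6 -
      (2 * (d + b + (x + v)) - s) ^ 6 + (2 * (d + c + (x + v)) - s) ^ 6) +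
      1 * ((2 * (a + b + (y + u)) - s) ^ 6 - (2 * (a + c + (y + u)) - s) ^ 6 -
      (2 * (d + b + (y + u)) - s) ^ 6 + (2 * (d + c + (y + u)) - s) ^ 6)) = 0)
    (hX : (a - b) * (c - d) * ((x - u) * (y - v)) = (a - c) * (b - d) * ((x - y) * (u - v))) :
    (a - c) * (b - d) * ((x - v) * (y - u)) * ((x - y) * (u - v) - (a - b) * (c - d)) = 0 := by
  obtain ⟨α, hα⟩ : ∃ α : K, α = a + b - c - d := ⟨_, rfl⟩
  obtain ⟨β, hβ⟩ : ∃ β : K, β = a - b + c - d := ⟨_, rfl⟩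
  obtain ⟨γ, hγ⟩ : ∃ γ : K, γ = a - b - c + d := ⟨_, rfl⟩
  obtain ⟨α', hα'⟩ : ∃ α' : K, α' = x + y - u - v := ⟨_, rfl⟩
  obtain ⟨β', hβ'⟩ : ∃ β' : K, β' = x - y + u - v := ⟨_, rfl⟩
  obtain ⟨γ', hγ'⟩ : ∃ γ' : K, γ' = x - y - u + v := ⟨_, rfl⟩
  have r1 : 2 * (a + c + (x + y)) - s = β + α' := by rw [hs, hβ, hα']; ring
  have r2 : 2 * (a + d + (x + y)) - s = γ + α' := by rw [hs, hγ, hα']; ring
  have r3 : 2 * (b + c + (x + y)) - s = -γ + α' := by rw [hs, hγ, hα']; ring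
  have r4 : 2 * (b + d + (x + y)) - s = -β + α' := by rw [hs, hβ, hα']; ring
  have r5 : 2 * (a + c + (u + v)) - s = β + -α' := by rw [hs, hβ, hα']; ring
  have r6 : 2 * (a + d + (u + v)) - s = γ + -α' := by rw [hs, hγ, hα']; ring
  have r7 : 2 * (b + c + (u + v)) - s = -γ + -α' := by rw [hs, hγ, hα']; ring
  have r8 : 2 * (b + d + (u + v)) - s = -β + -α' := by rw [hs, hβ, hα']; ring
  have r9 : 2 * (a + b + (x + u)) - s = α + β' := by rw [hs, hα, hβ']; ring
  have r10 : 2 * (a + d + (x + u)) - s = γ + β' := by rw [hs, hγ, hβ']; ring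
  have r11 : 2 * (c + b + (x + u)) - s = -γ + β' := by rw [hs, hγ, hβ']; ring
  have r12 : 2 * (c + d + (x + u)) - s = -α + β' := by rw [hs, hα, hβ']; ring
  have r13 : 2 * (a + b + (y + v)) - s = α + -β' := by rw [hs, hα, hβ']; ring
  have r14 : 2 * (a + d + (y + v)) - s = γ + -β' := by rw [hs, hγ, hβ']; ring
  have r15 : 2 * (c + b + (y + v)) - s = -γ + -β' := by rw [hs, hγ, hβ']; ring
  have r16 : 2 * (c + d + (y + v)) - s = -α + -β' := by rw [hs, hα, hβ']; ring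
  have r17 : 2 * (a + b + (x + v)) - s = α + γ' := by rw [hs, hα, hγ']; ring
  have r18 : 2 * (a + c + (x + v)) - s = β + γ' := by rw [hs, hβ, hγ']; ring
  have r19 : 2 * (d + b + (x + v)) - s = -β + γ' := by rw [hs, hβ, hγ']; ring
  have r20 : 2 * (d + c + (x + v)) - s = -α + γ' := by rw [hs, hα, hγ']; ring
  have r21 : 2 * (a + b + (y + u)) - s = α + -γ' := by rw [hs, hα, hγ']; ring
  have r22 : 2 * (a + c + (y + u)) - s = β + -γ' := by rw [hs, hβ, hγ']; ring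
  have r23 : 2 * (d + b + (y + u)) - s = -β + -γ' := by rw [hs, hβ, hγ']; ring
  have r24 : 2 * (d + c + (y + u)) - s = -α + -γ' := by rw [hs, hα, hγ']; ring
  rw [r1, r2, r3, r4, r5, r6, r7, r8, r9, r10, r11, r12, r13, r14, r15, r16, r17, r18, r19, r20, r21, r22, r23, r24] at h6
  have hX' : (β ^ 2 - γ ^ 2) * (α' ^ 2 - γ' ^ 2) = (α ^ 2 - γ ^ 2) * (β' ^ 2 - γ' ^ 2) := by
    rw [hα, hβ, hγ, hα', hβ', hγ']
    linear_combination 16 * hX
  have h := poly6_core α β γ α' β' γ' h6 hX'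
  have h7 : (3840 : K) * ((a - c) * (b - d) * ((x - v) * (y - u)) *
      ((x - y) * (u - v) - (a - b) * (c - d))) = 0 := by
    rw [hα, hβ, hγ, hα', hβ', hγ'] at h
    linear_combination h
  exact (mul_eq_zero.1 h7).resolve_left h3840

/-- the main local statement -/
theorem quad_rel (hp : p.Prime) (h7 : 7 < p) (h : Good p w) (hw : ∀ j, w j = ε j * pr p ^ e j)
    (hε : ∀ j, ε j = 1 ∨ ε j = -1)
    {i j k n : ℕ} (hik : ((i : ℕ) : ZMod p) ≠ k) (hjn : ((j : ℕ) : ZMod p) ≠ n)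
    (hin : ((e i : ℕ) : ZMod p) ≠ e n) (hjk : ((e j : ℕ) : ZMod p) ≠ e k)
    (e1 : ε i = ε j) (e2 : ε i = ε k) (e3 : ε i = ε n) :
    ((e i : ZMod p) - e j) * (e k - e n) = ((i : ZMod p) - j) * (k - n) := by
  have : Fact p.Prime := ⟨hp⟩
  obtain ⟨s, hs⟩ : ∃ s : ZMod p, s = (i + j + k + n + (e i + e j + e k + e n)) := ⟨_, rfl⟩
  have h4 := rel_L hp (by omega) h hw (m := 4) (by omega) s i j k n
  have h6 := rel_L hp (by omega) h hw (m := 6) (by omega) s i j k n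
  have e4 : ε i * ε i = 1 := by
    rcases hε i with a | a <;> rw [a] <;> norm_num
  rw [← e1, ← e2, ← e3, e4] at h4 h6
  simp only [blk_L] at h4 h6
  push_cast at h4 h6
  have h384 : (384 : ZMod p) ≠ 0 := by
    have := natCast_ne_zero_of_primes hp h7 7 1 0
    norm_num at this
    exact this
  have h3840 : (3840 : ZMod p) ≠ 0 := by
    have := natCast_ne_zero_of_primes hp h7 8 1 1
    norm_num at this
    exact this
  have hX := poly4 _ _ _ _ _ _ _ _ _ h384 hs h4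
  have h8 := poly6 _ _ _ _ _ _ _ _ _ h3840 hs h6 hX
  have h9 : ((i : ZMod p) - k) * (j - n) * (((e i : ZMod p) - e n) * (e j - e k)) ≠ 0 :=
    mul_ne_zero (mul_ne_zero (sub_ne_zero.2 hik) (sub_ne_zero.2 hjn))
      (mul_ne_zero (sub_ne_zero.2 hin) (sub_ne_zero.2 hjk))
  exact sub_eq_zero.1 ((mul_eq_zero.1 h8).resolve_left h9)

end

theorem seven {α : Type} [Fintype α] [DecidableEq α] (hα : 3 ≤ Fintype.card α) (s : α → ℤ)
    (hs : ∀ i, s i = 1 ∨ s i = -1)
    (h : ∀ i j k n, i ≠ j → k ≠ n → s i = s j → s k = s n → s i = s k) :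
    ∃ m, ∀ i j, i ≠ m → j ≠ m → s i = s j := by
  obtain ⟨a, b, c, hab, hac, hbc⟩ := Fintype.two_lt_card_iff.1 hα
  have key : ∀ x y z : α, y ≠ z → s y = s z → s x ≠ s y → ∀ i, i ≠ x → s i = s y := by
    intro x y z hyz he hne i hi
    by_contra h1
    have h2 : s i = s x := by
      rcases hs i with a | a <;> rcases hs x with b | b <;> rcases hs y with c | c <;> omega
    exact h1 (h i x y z hi hyz h2 he)
  by_cases h1 : s a = s b
  · by_cases h2 : ∀ x, s x = s a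
    · exact ⟨a, fun i j _ _ => by rw [h2, h2 j]⟩
    · push Not at h2
      obtain ⟨x, hx⟩ := h2
      refine ⟨x, fun i j hi hj => ?_⟩
      rw [key x a b hab h1 hx i hi, key x a b hab h1 hx j hj]
  · by_cases h2 : s c = s a
    · refine ⟨b, fun i j hi hj => ?_⟩
      rw [key b a c hac h2.symm (Ne.symm h1) i hi, key b a c hac h2.symm (Ne.symm h1) j hj]
    · have h3 : s b = s c := by
        rcases hs a with a | a <;> rcases hs b with b | b <;> rcases hs c with c | c <;> omega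
      refine ⟨a, fun i j hi hj => ?_⟩
      rw [key a b c hbc h3 h1 i hi, key a b c hbc h3 h1 j hj]

theorem six_core {K : Type} [Field K] (E I : Fin 6 → K) (hE : Function.Injective E)
    (hI : Function.Injective I)
    (h : ∀ x y u v : Fin 6, x ≠ y → x ≠ u → x ≠ v → y ≠ u → y ≠ v → u ≠ v →
      (E x - E y) * (E u - E v) = (I x - I y) * (I u - I v)) :
    (E 0 - E 1 = I 0 - I 1 ∧ E 0 - E 2 = I 0 - I 2) ∨
    (E 0 - E 1 = -(I 0 - I 1) ∧ E 0 - E 2 = -(I 0 - I 2)) := by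
  have a1 := h 0 1 3 4 (by decide) (by decide) (by decide) (by decide) (by decide) (by decide)
  have a2 := h 0 2 3 4 (by decide) (by decide) (by decide) (by decide) (by decide) (by decide)
  have b1 := h 0 1 2 3 (by decide) (by decide) (by decide) (by decide) (by decide) (by decide)
  have b2 := h 2 3 4 5 (by decide) (by decide) (by decide) (by decide) (by decide) (by decide)
  have b3 := h 0 1 4 5 (by decide) (by decide) (by decide) (by decide) (by decide) (by decide)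
  have nE : ∀ x y : Fin 6, x ≠ y → E x - E y ≠ 0 := fun x y hxy => sub_ne_zero.2 (hE.ne hxy)
  have nI : ∀ x y : Fin 6, x ≠ y → I x - I y ≠ 0 := fun x y hxy => sub_ne_zero.2 (hI.ne hxy)
  have c1 : (E 0 - E 1) * (I 0 - I 2) = (E 0 - E 2) * (I 0 - I 1) := by
    have c2 : ((E 3 - E 4) * (I 3 - I 4)) * ((E 0 - E 1) * (I 0 - I 2)) =
        ((E 3 - E 4) * (I 3 - I 4)) * ((E 0 - E 2) * (I 0 - I 1)) := by
      linear_combination (I 3 - I 4) * (I 0 - I 2) * a1 - (I 3 - I 4) * (I 0 - I 1) * a2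
    exact mul_left_cancel₀ (mul_ne_zero (nE 3 4 (by decide)) (nI 3 4 (by decide))) c2
  have c3 : (E 0 - E 1) ^ 2 = (I 0 - I 1) ^ 2 := by
    have c4 : ((E 2 - E 3) * (E 4 - E 5)) * (E 0 - E 1) ^ 2 =
        ((E 2 - E 3) * (E 4 - E 5)) * (I 0 - I 1) ^ 2 := by
      linear_combination (E 4 - E 5) * (E 0 - E 1) * b1 + (I 0 - I 1) * (I 2 - I 3) * b3 -
        (I 0 - I 1) ^ 2 * b2
    exact mul_left_cancel₀ (mul_ne_zero (nE 2 3 (by decide)) (nE 4 5 (by decide))) c4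
  rcases sq_eq_sq_iff_eq_or_eq_neg.1 c3 with c5 | c5
  · left
    refine ⟨c5, ?_⟩
    rw [c5] at c1
    exact (mul_left_cancel₀ (nI 0 1 (by decide)) (by linear_combination c1)).symm
  · right
    refine ⟨c5, ?_⟩
    rw [c5] at c1
    exact mul_left_cancel₀ (nI 0 1 (by decide)) (by linear_combination -c1)

theorem pr_pow_eq {p : ℕ} (hp : p ≠ 0) {a b : ℕ} (h : (a : ZMod p) = b) : pr p ^ a = pr p ^ b := by
  rw [ZMod.natCast_eq_natCast_iff] at h
  exact pow_eq_pow_of_modEq h (pr_prim hp).pow_eq_one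

theorem no_prime {p : ℕ} (hp : p.Prime) (h7 : 7 < p) {w : ℕ → ℂ} (h : Good p w) (h0 : w 0 = 1) :
    False := by
  have : Fact p.Prime := ⟨hp⟩
  have : NeZero p := ⟨hp.ne_zero⟩
  have hodd : Odd p := hp.odd_of_ne_two (by omega)
  have h2p := (reduce_seven (by omega) h h0).1
  have hsg : ∀ j, ∃ (ε : ℤ) (e : ℕ), (ε = 1 ∨ ε = -1) ∧ w j = ε * pr p ^ e := by
    intro j
    have h1 : (w j ^ p) ^ 2 = 1 := by rw [← pow_mul, mul_comm]; exact h2p j
    rcases sq_eq_sq_iff_eq_or_eq_neg.1 (h1.trans (one_pow 2).symm) with h3 | h3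
    · obtain ⟨e, -, he⟩ := (pr_prim hp.ne_zero).eq_pow_of_pow_eq_one h3
      exact ⟨1, e, Or.inl rfl, by rw [he]; simp⟩
    · have h4 : (-w j) ^ p = 1 := by rw [hodd.neg_pow, h3, neg_neg]
      obtain ⟨e, -, he⟩ := (pr_prim hp.ne_zero).eq_pow_of_pow_eq_one h4
      exact ⟨-1, e, Or.inr rfl, by rw [he]; simp⟩
  choose ε e hε hw using hsg
  have hcast : ∀ a b : ℕ, a < p → b < p → a ≠ b → (a : ZMod p) ≠ b := by
    intro a b ha hb hab h5
    rw [ZMod.natCast_eq_natCast_iff'] at h5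
    rw [Nat.mod_eq_of_lt ha, Nat.mod_eq_of_lt hb] at h5
    exact hab h5
  obtain ⟨m, hm⟩ := seven (α := Fin 7) (by simp) (fun i => ε i) (fun i => hε i) (by
    intro i j k n hij hkn e1 e2
    exact no_split hp h7 h hw (hcast _ _ (by omega) (by omega) (fun h => hij (Fin.ext h)))
      (hcast _ _ (by omega) (by omega) (fun h => hkn (Fin.ext h))) hε e1 e2)
  let f : Fin 6 → ℕ := fun x => (m.succAbove x : ℕ)
  have hf : ∀ x y, x ≠ y → f x ≠ f y := fun x y hxy h1 =>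
    hxy (m.succAbove_right_injective (Fin.ext h1))
  have hflt : ∀ x, f x < p := fun x => by
    have := (m.succAbove x).2
    show (m.succAbove x : ℕ) < p
    omega
  have hfε : ∀ x y, ε (f x) = ε (f y) := fun x y =>
    hm _ _ (Fin.succAbove_ne m x) (Fin.succAbove_ne m y)
  have hI : Function.Injective (fun x : Fin 6 => ((f x : ℕ) : ZMod p)) := by
    intro x y hxy
    by_contra hne
    exact hcast _ _ (hflt x) (hflt y) (hf x y hne) hxy
  have hE : Function.Injective (fun x : Fin 6 => ((e (f x) : ℕ) : ZMod p)) := by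
    intro x y hxy
    by_contra hne
    apply h.inj (pr_pow_ne' hp.ne_zero (hflt x) (hflt y) (hf x y hne))
    rw [hw, hw, hfε x y, pr_pow_eq hp.ne_zero hxy]
  have hcore := six_core _ _ hE hI (by
    intro x y u v hxy hxu hxv hyu hyv huv
    exact quad_rel hp h7 h hw hε (hI.ne hxu) (hI.ne hyv) (hE.ne hxv) (hE.ne hyu)
      (hfε x y) (hfε x u) (hfε x v))
  have n01 : pr p ^ f 0 ≠ pr p ^ f 1 :=
    pr_pow_ne' hp.ne_zero (hflt 0) (hflt 1) (hf 0 1 (by decide))
  have n12 : pr p ^ f 1 ≠ pr p ^ f 2 :=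
    pr_pow_ne' hp.ne_zero (hflt 1) (hflt 2) (hf 1 2 (by decide))
  have n02 : pr p ^ f 0 ≠ pr p ^ f 2 :=
    pr_pow_ne' hp.ne_zero (hflt 0) (hflt 2) (hf 0 2 (by decide))
  rcases hcore with ⟨c1, c2⟩ | ⟨c1, c2⟩
  · obtain ⟨r, hr⟩ : ∃ r : ℕ, (r : ZMod p) = (e (f 0) : ZMod p) - (f 0 : ZMod p) :=
      ⟨_, ZMod.natCast_zmod_val _⟩
    have key : ∀ x, (e (f x) : ZMod p) - (f x : ZMod p) = (e (f 0) : ZMod p) - (f 0 : ZMod p) →
        w (f x) = (ε (f 0) * pr p ^ r) * pr p ^ f x := by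
      intro x hx
      rw [hw, hfε x 0, mul_assoc, ← pow_add]
      congr 1
      apply pr_pow_eq hp.ne_zero
      push_cast
      rw [hr]; linear_combination hx
    exact h.not_rot _ n01 n12 n02 (key 0 rfl) (key 1 (by linear_combination -c1))
      (key 2 (by linear_combination -c2))
  · obtain ⟨r, hr⟩ : ∃ r : ℕ, (r : ZMod p) = (e (f 0) : ZMod p) + (f 0 : ZMod p) :=
      ⟨_, ZMod.natCast_zmod_val _⟩
    have key : ∀ x, (e (f x) : ZMod p) + (f x : ZMod p) = (e (f 0) : ZMod p) + (f 0 : ZMod p) →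
        w (f x) * pr p ^ f x = ε (f 0) * pr p ^ r := by
      intro x hx
      rw [hw, hfε x 0, mul_assoc, ← pow_add]
      congr 1
      apply pr_pow_eq hp.ne_zero
      push_cast
      rw [hr]; linear_combination hx
    exact h.not_inv _ n01 n12 n02 (key 0 rfl) (key 1 (by linear_combination -c1))
      (key 2 (by linear_combination -c2))

/-- the conclusion for `c ≥ 6` -/
theorem no_large {c : ℕ} (hc : 6 ≤ c) {w : ℕ → ℂ} (h : Good c w) : False := by
  have hdiv : (∃ p, p.Prime ∧ 7 < p ∧ p ∣ c) ∨ 7 ∣ c ∨ 9 ∣ c ∨ 6 ∣ c ∨ 15 ∣ c ∨ 8 ∣ c ∨ 10 ∣ c ∨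
      25 ∣ c := by
    by_contra hcon
    push Not at hcon
    obtain ⟨q1, q2, q3, q4, q5, q6, q7, q8⟩ := hcon
    have h60 : c ∣ 60 := by
      rw [Nat.dvd_iff_prime_pow_dvd_dvd]
      intro p k hp hk
      rcases Nat.eq_zero_or_pos k with rfl | hk0
      · simp
      have hpc : p ∣ c := (dvd_pow_self p hk0.ne').trans hk
      have hp7 : p ≤ 7 := by
        by_contra h7
        exact q1 p hp (by omega) hpc
      have hp2 := hp.two_le
      have e2 : p = 2 → k ≤ 2 := by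
        rintro rfl
        by_contra h3
        exact q6 ((pow_dvd_pow 2 (show 3 ≤ k by omega)).trans hk)
      have e3 : p = 3 → k ≤ 1 := by
        rintro rfl
        by_contra h3
        exact q3 ((pow_dvd_pow 3 (show 2 ≤ k by omega)).trans hk)
      have e5 : p = 5 → k ≤ 1 := by
        rintro rfl
        by_contra h3
        exact q8 ((pow_dvd_pow 5 (show 2 ≤ k by omega)).trans hk)
      interval_cases p
      · exact (pow_dvd_pow 2 (e2 rfl)).trans (by norm_num)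
      · exact (pow_dvd_pow 3 (e3 rfl)).trans (by norm_num)
      · exact absurd hp (by decide)
      · exact (pow_dvd_pow 5 (e5 rfl)).trans (by norm_num)
      · exact absurd hp (by decide)
      · exact absurd hpc q2
    have hmem : c ∈ Nat.divisors 60 := Nat.mem_divisors.2 ⟨h60, by norm_num⟩
    have : ∀ x ∈ Nat.divisors 60, 6 ≤ x → 6 ∣ x ∨ 15 ∣ x ∨ 10 ∣ x := by decide +kernel
    rcases this c hmem hc with h1 | h1 | h1
    · exact q4 h1
    · exact q5 h1
    · exact q7 h1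
  have key : ∀ n, n ∣ c → (∀ w' : ℕ → ℂ, Good n w' → w' 0 = 1 → False) → False := by
    intro n hn hno
    obtain ⟨b, rfl⟩ := hn
    have hb : b ≠ 0 := by rintro rfl; omega
    have h1 := (h.restrict hb).normalize
    exact hno _ h1 (inv_mul_cancel₀ ((h.restrict hb).ne_zero 0))
  rcases hdiv with ⟨p, hp, h7, hd⟩ | hd | hd | hd | hd | hd | hd | hd
  · exact key p hd fun w' h1 h2 => no_prime hp h7 h1 h2
  · exact key 7 hd fun w' h1 h2 => no_seven h1 h2
  · exact key 9 hd fun w' h1 h2 => no_nine h1 h2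
  · exact key 6 hd fun w' h1 h2 => no_six h1 h2
  · exact key 15 hd fun w' h1 h2 => no_fifteen h1 h2
  · exact key 8 hd fun w' h1 h2 => no_eight h1 h2
  · exact key 10 hd fun w' h1 h2 => no_ten h1 h2
  · exact key 25 hd fun w' h1 h2 => no_twentyfive h1 h2

end Pool.Agent.H59.Ex
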