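import Pool.Agent.H59.Ex.Classes

set_option autoImplicit false

namespace Pool.Agent.H59.Ex

open Complex Finset

theorem five_aux : ∀ i j : Fin 5, i ≠ j → ∃ p q r : Fin 5, p ≠ i ∧ p ≠ j ∧ q ≠ i ∧ q ≠ j ∧ r ≠ i ∧
    r ≠ j ∧ p ≠ q ∧ p ≠ r ∧ q ≠ r ∧ ∀ x, x = i ∨ x = j ∨ x = p ∨ x = q ∨ x = r := by
  decide

theorem five {α : Type} (v : Fin 5 → α)
    (n3 : ∀ i j k n : Fin 5, i ≠ j → i ≠ k → i ≠ n → j ≠ k → j ≠ n → k ≠ n →
      v i = v j → v i = v k → v n = v i)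
    (n2 : ∀ i j k n : Fin 5, i ≠ j → i ≠ k → i ≠ n → j ≠ k → j ≠ n → k ≠ n →
      v i = v j → v k = v n → v i = v k)
    (n1 : ∀ i j k n : Fin 5, i ≠ j → i ≠ k → i ≠ n → j ≠ k → j ≠ n → k ≠ n →
      v i ≠ v j → v i ≠ v k → v i ≠ v n → v j ≠ v k → v j ≠ v n → v k ≠ v n → False) :
    ∀ i j, v i = v j := by
  have key : ∀ i j : Fin 5, i ≠ j → v i = v j → ∀ x y, v x = v y := by
    intro i j hij he
    obtain ⟨p, q, r, h1, h2, h3, h4, h5, h6, h7, h8, h9, hall⟩ := five_aux i j hij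
    have a1 : v i = v p ∨ v i = v q ∨ v i = v r ∨ v p = v q ∨ v p = v r ∨ v q = v r := by
      by_contra hcon
      push Not at hcon
      obtain ⟨c1, c2, c3, c4, c5, c6⟩ := hcon
      exact n1 i p q r h1.symm h3.symm h5.symm h7 h8 h9 c1 c2 c3 c4 c5 c6
    have a2 : v i = v p ∨ v i = v q ∨ v i = v r := by
      rcases a1 with h | h | h | h | h | h
      · exact Or.inl h
      · exact Or.inr (Or.inl h)
      · exact Or.inr (Or.inr h)
      · exact Or.inl (n2 i j p q hij h1.symm h3.symm h2.symm h4.symm h7 he h)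
      · exact Or.inl (n2 i j p r hij h1.symm h5.symm h2.symm h6.symm h8 he h)
      · exact Or.inr (Or.inl (n2 i j q r hij h3.symm h5.symm h4.symm h6.symm h9 he h))
    have a3 : v p = v i ∧ v q = v i ∧ v r = v i := by
      rcases a2 with h | h | h
      · exact ⟨h.symm, n3 i j p q hij h1.symm h3.symm h2.symm h4.symm h7 he h,
          n3 i j p r hij h1.symm h5.symm h2.symm h6.symm h8 he h⟩
      · exact ⟨n3 i j q p hij h3.symm h1.symm h4.symm h2.symm h7.symm he h, h.symm,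
          n3 i j q r hij h3.symm h5.symm h4.symm h6.symm h9 he h⟩
      · exact ⟨n3 i j r p hij h5.symm h1.symm h6.symm h2.symm h8.symm he h,
          n3 i j r q hij h5.symm h3.symm h6.symm h4.symm h9.symm he h, h.symm⟩
    have a4 : ∀ x, v x = v i := by
      intro x
      rcases hall x with h | h | h | h | h <;> rw [h]
      · exact he.symm
      · exact a3.1
      · exact a3.2.1
      · exact a3.2.2
    intro x y
    rw [a4 x, a4 y]
  by_contra hcon
  have hinj : ∀ i j : Fin 5, i ≠ j → v i ≠ v j := fun i j hij he => hcon (key i j hij he)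
  exact n1 0 1 2 3 (by decide) (by decide) (by decide) (by decide) (by decide) (by decide)
    (hinj _ _ (by decide)) (hinj _ _ (by decide)) (hinj _ _ (by decide)) (hinj _ _ (by decide))
    (hinj _ _ (by decide)) (hinj _ _ (by decide))

/-- three equal values force everything -/
theorem const_of_three {α : Type} {c : ℕ} (v : Fin c → α)
    (n3 : ∀ i j k n : Fin c, i ≠ j → i ≠ k → i ≠ n → j ≠ k → j ≠ n → k ≠ n →
      v i = v j → v i = v k → v n = v i)
    {i j k : Fin c} (hij : i ≠ j) (hik : i ≠ k) (hjk : j ≠ k) (h1 : v i = v j) (h2 : v i = v k) :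
    ∀ x y, v x = v y := by
  have h3 : ∀ x, v x = v i := by
    intro x
    by_cases e1 : x = i
    · rw [e1]
    by_cases e2 : x = j
    · rw [e2, h1]
    by_cases e3 : x = k
    · rw [e3, h2]
    exact n3 i j k x hij hik (Ne.symm e1) hjk (Ne.symm e2) (Ne.symm e3) h1 h2
  intro x y
  rw [h3 x, h3 y]

theorem const_of_card {c l : ℕ} (hl : 0 < l) (hcl : 2 * l < c) (v : Fin c → ZMod l)
    (n3 : ∀ i j k n : Fin c, i ≠ j → i ≠ k → i ≠ n → j ≠ k → j ≠ n → k ≠ n →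
      v i = v j → v i = v k → v n = v i) : ∀ x y, v x = v y := by
  have : NeZero l := ⟨hl.ne'⟩
  obtain ⟨y, -, hy⟩ := Finset.exists_lt_card_fiber_of_mul_lt_card_of_maps_to
    (s := (Finset.univ : Finset (Fin c))) (t := (Finset.univ : Finset (ZMod l))) (f := v) (n := 2)
    (fun _ _ => Finset.mem_univ _) (by
      rw [Finset.card_univ, Finset.card_univ, ZMod.card, Fintype.card_fin]; omega)
  obtain ⟨i, j, k, hi, hj, hk, hij, hik, hjk⟩ := Finset.two_lt_card_iff.1 hy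
  simp only [Finset.mem_filter, Finset.mem_univ, true_and] at hi hj hk
  exact const_of_three v n3 hij hik hjk (by rw [hi, hj]) (by rw [hi, hk])

theorem const_of_pairs {c l : ℕ} (hl : 0 < l) (hcl : l + 2 ≤ c) (v : Fin c → ZMod l)
    (n3 : ∀ i j k n : Fin c, i ≠ j → i ≠ k → i ≠ n → j ≠ k → j ≠ n → k ≠ n →
      v i = v j → v i = v k → v n = v i)
    (n2 : ∀ i j k n : Fin c, i ≠ j → i ≠ k → i ≠ n → j ≠ k → j ≠ n → k ≠ n →
      v i = v j → v k = v n → v i = v k) : ∀ x y, v x = v y := by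
  have : NeZero l := ⟨hl.ne'⟩
  obtain ⟨i, hi, j, hj, hij, he⟩ := Finset.exists_ne_map_eq_of_card_lt_of_maps_to
    (s := (Finset.univ : Finset (Fin c))) (t := (Finset.univ : Finset (ZMod l))) (f := v)
    (by rw [Finset.card_univ, Finset.card_univ, ZMod.card, Fintype.card_fin]; omega)
    (fun _ _ => Finset.mem_univ _)
  obtain ⟨k, hk, n, hn, hkn, he'⟩ := Finset.exists_ne_map_eq_of_card_lt_of_maps_to
    (s := (Finset.univ : Finset (Fin c)).erase j) (t := (Finset.univ : Finset (ZMod l))) (f := v)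
    (by rw [Finset.card_erase_of_mem (Finset.mem_univ _), Finset.card_univ, Finset.card_univ,
          ZMod.card, Fintype.card_fin]; omega)
    (fun _ _ => Finset.mem_univ _)
  have hkj := Finset.ne_of_mem_erase hk
  have hnj := Finset.ne_of_mem_erase hn
  by_cases e1 : k = i
  · subst e1
    exact const_of_three v n3 hij hkn hnj.symm he he'
  by_cases e2 : n = i
  · subst e2
    exact const_of_three v n3 hij (Ne.symm e1) hkj.symm he he'.symm
  have h3 := n2 i j k n hij (Ne.symm e1) (Ne.symm e2) hkj.symm hnj.symm hkn he he'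
  exact const_of_three v n3 hij (Ne.symm e1) hkj.symm he h3

theorem const_of_all {α : Type} {c : ℕ} (hc : 5 ≤ c) (v : Fin c → α)
    (n3 : ∀ i j k n : Fin c, i ≠ j → i ≠ k → i ≠ n → j ≠ k → j ≠ n → k ≠ n →
      v i = v j → v i = v k → v n = v i)
    (n2 : ∀ i j k n : Fin c, i ≠ j → i ≠ k → i ≠ n → j ≠ k → j ≠ n → k ≠ n →
      v i = v j → v k = v n → v i = v k)
    (n1 : ∀ i j k n : Fin c, i ≠ j → i ≠ k → i ≠ n → j ≠ k → j ≠ n → k ≠ n →
      v i ≠ v j → v i ≠ v k → v i ≠ v n → v j ≠ v k → v j ≠ v n → v k ≠ v n → False) :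
    ∀ x y, v x = v y := by
  let f : Fin 5 → Fin c := Fin.castLE hc
  have hf : Function.Injective f := Fin.castLE_injective hc
  have h1 := five (fun x => v (f x))
    (fun i j k n a1 a2 a3 a4 a5 a6 => n3 _ _ _ _ (hf.ne a1) (hf.ne a2) (hf.ne a3) (hf.ne a4)
      (hf.ne a5) (hf.ne a6))
    (fun i j k n a1 a2 a3 a4 a5 a6 => n2 _ _ _ _ (hf.ne a1) (hf.ne a2) (hf.ne a3) (hf.ne a4)
      (hf.ne a5) (hf.ne a6))
    (fun i j k n a1 a2 a3 a4 a5 a6 => n1 _ _ _ _ (hf.ne a1) (hf.ne a2) (hf.ne a3) (hf.ne a4)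
      (hf.ne a5) (hf.ne a6))
  exact const_of_three v n3 (i := f 0) (j := f 1) (k := f 2) (hf.ne (by decide))
    (hf.ne (by decide)) (hf.ne (by decide)) (h1 0 1) (h1 0 2)

/-! ### Distinct powers -/

theorem pr_pow_ne {c : ℕ} (hc : c ≠ 0) {i j : Fin c} (hij : i ≠ j) :
    pr c ^ (i : ℕ) ≠ pr c ^ (j : ℕ) := by
  intro h
  have := (pr_prim hc).pow_inj i.2 j.2 h
  exact hij (Fin.ext this)

section
variable {c l b : ℕ} {w : ℕ → ℂ} {t : ℕ → ℕ}

/-- all residues agree, in the cases needed -/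
theorem residues_const (hc : 5 ≤ c) (hl : l.Prime) (hb : b ≠ 0)
    (h : Good c w) (ht : ∀ j, w j = pr (c * (l * b)) ^ t j)
    (hcase : l ∣ c * b ∨ 7 ≤ l ∨ (7 ≤ c ∧ 3 ≤ l)) (x y : Fin c) :
    ((t x : ℕ) : ZMod l) = t y := by
  have hc0 : c ≠ 0 := by omega
  have n3 : ∀ i j k n : Fin c, i ≠ j → i ≠ k → i ≠ n → j ≠ k → j ≠ n → k ≠ n →
      ((t i : ℕ) : ZMod l) = t j → ((t i : ℕ) : ZMod l) = t k → ((t n : ℕ) : ZMod l) = t i := by
    intro i j k n a1 a2 a3 a4 a5 a6 e1 e2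
    exact three_equal hc0 hl hb h ht (by omega) (pr_pow_ne hc0 a1) (pr_pow_ne hc0 a2)
      (pr_pow_ne hc0 a3) (pr_pow_ne hc0 a4) (pr_pow_ne hc0 a5) (pr_pow_ne hc0 a6) e1 e2
  by_cases h2 : l = 2
  · subst h2
    exact const_of_card (by norm_num) (by omega) (fun i : Fin c => ((t i : ℕ) : ZMod 2)) n3 x y
  have hl3 : 3 ≤ l := by
    have := hl.two_le
    omega
  by_cases h3 : l = 3
  · subst h3
    by_cases h7 : 7 ≤ c
    · exact const_of_card (by norm_num) (by omega) (fun i : Fin c => ((t i : ℕ) : ZMod 3)) n3 x y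
    · have hd : 3 ∣ c * b := by omega
      refine const_of_all hc (fun i : Fin c => ((t i : ℕ) : ZMod 3)) n3 ?_ ?_ x y
      · intro i j k n a1 a2 a3 a4 a5 a6 e1 e2
        exact two_pairs hc0 hl hb h ht h2 (Or.inl hd) (pr_pow_ne hc0 a1) (pr_pow_ne hc0 a6) e1 e2
      · intro i j k n a1 a2 a3 a4 a5 a6 g1 g2 g3 g4 g5 g6
        exact four_distinct hc0 hl hb h ht h2 (Or.inl hd) (pr_pow_ne hc0 a1) (pr_pow_ne hc0 a2)
          (pr_pow_ne hc0 a3) (pr_pow_ne hc0 a4) (pr_pow_ne hc0 a5) (pr_pow_ne hc0 a6)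
          g1 g2 g3 g4 g5 g6
  have hl5 : 5 ≤ l := by
    by_contra hcon
    have : l = 4 := by omega
    rw [this] at hl
    revert hl; decide
  have n2 : ∀ i j k n : Fin c, i ≠ j → i ≠ k → i ≠ n → j ≠ k → j ≠ n → k ≠ n →
      ((t i : ℕ) : ZMod l) = t j → ((t k : ℕ) : ZMod l) = t n → ((t i : ℕ) : ZMod l) = t k := by
    intro i j k n a1 a2 a3 a4 a5 a6 e1 e2
    exact two_pairs hc0 hl hb h ht h2 (Or.inr hl5) (pr_pow_ne hc0 a1) (pr_pow_ne hc0 a6) e1 e2
  by_cases h5 : l = 5 ∧ 7 ≤ c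
  · obtain ⟨h5, h7⟩ := h5
    subst h5
    exact const_of_pairs (by norm_num) (by omega) (fun i : Fin c => ((t i : ℕ) : ZMod 5)) n3 n2 x y
  have hd : l ∣ c * b ∨ 7 ≤ l := by
    rcases hcase with e | e | ⟨e, -⟩
    · exact Or.inl e
    · exact Or.inr e
    · right
      by_contra hcon
      have h6 : l = 5 ∨ l = 6 := by omega
      rcases h6 with h6 | h6
      · exact h5 ⟨h6, e⟩
      · rw [h6] at hl; revert hl; decide
  refine const_of_all hc (fun i : Fin c => ((t i : ℕ) : ZMod l)) n3 n2 ?_ x y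
  intro i j k n a1 a2 a3 a4 a5 a6 g1 g2 g3 g4 g5 g6
  exact four_distinct hc0 hl hb h ht h2 hd (pr_pow_ne hc0 a1) (pr_pow_ne hc0 a2)
    (pr_pow_ne hc0 a3) (pr_pow_ne hc0 a4) (pr_pow_ne hc0 a5) (pr_pow_ne hc0 a6)
    g1 g2 g3 g4 g5 g6

end

/-- The reduction of the order: if `w 0 = 1` and `c ≥ 5`, then all `w j` are `c * a`-th roots of
unity, where all prime factors `l` of `a` are at most `5`, `l ∤ c * (a / l)`, and `l = 2` if `c ≥ 7`. -/
theorem reduce {c : ℕ} {w : ℕ → ℂ} (hc : 5 ≤ c) (h : Good c w) (h0 : w 0 = 1) :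
    ∃ a : ℕ, 0 < a ∧ (∀ j, w j ^ (c * a) = 1) ∧
      ∀ l : ℕ, l.Prime → l ∣ a → ¬ l ∣ c * (a / l) ∧ l ≤ 6 ∧ (7 ≤ c → l = 2) := by
  classical
  have hex : ∃ a : ℕ, 0 < a ∧ ∀ j, w j ^ (c * a) = 1 := by
    obtain ⟨n, hn, h1⟩ := h.root
    exact ⟨n, hn, fun j => by rw [mul_comm, pow_mul, h1, one_pow]⟩
  have hspec := Nat.find_spec hex
  set a := Nat.find hex with ha
  refine ⟨a, hspec.1, hspec.2, ?_⟩
  intro l hl hla
  by_contra hcon
  obtain ⟨b, hab⟩ := hla
  have hb : b ≠ 0 := by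
    rintro rfl
    have := hspec.1
    rw [hab, mul_zero] at this
    exact lt_irrefl _ this
  have hc0 : c ≠ 0 := by omega
  have hN0 : c * (l * b) ≠ 0 := mul_ne_zero hc0 (mul_ne_zero hl.ne_zero hb)
  have hdiv : a / l = b := by rw [hab, Nat.mul_div_cancel_left _ hl.pos]
  rw [hdiv] at hcon
  have hcase : l ∣ c * b ∨ 7 ≤ l ∨ (7 ≤ c ∧ 3 ≤ l) := by
    by_contra h2
    apply hcon
    push Not at h2
    obtain ⟨h3, h4, h5⟩ := h2
    refine ⟨h3, by omega, fun h6 => ?_⟩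
    have := h5 h6
    have := hl.two_le
    omega
  have hex2 : ∀ j, ∃ t : ℕ, w j = pr (c * (l * b)) ^ t := by
    intro j
    have h1 := hspec.2 j
    rw [hab] at h1
    have : NeZero (c * (l * b)) := ⟨hN0⟩
    obtain ⟨t, -, ht⟩ := (pr_prim hN0).eq_pow_of_pow_eq_one h1
    exact ⟨t, ht.symm⟩
  choose t ht using hex2
  have hconst := residues_const hc hl hb h ht hcase
  have ht0 : l ∣ t 0 := by
    have h1 : pr (c * (l * b)) ^ t 0 = 1 := by rw [← ht, h0]
    have h2 := (pr_prim hN0).dvd_of_pow_eq_one _ h1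
    exact Dvd.dvd.trans ⟨c * b, by ring⟩ h2
  have hall : ∀ j, w j ^ (c * b) = 1 := by
    intro j
    have h1 : w j = w (j % c) := by
      apply h.congr
      conv_lhs => rw [← Nat.mod_add_div j c]
      rw [pow_add, pow_mul, (pr_prim hc0).pow_eq_one, one_pow, mul_one]
    rw [h1]
    have h2 := hconst ⟨j % c, Nat.mod_lt _ (by omega)⟩ ⟨0, by omega⟩
    simp only at h2
    have h3 : ((t 0 : ℕ) : ZMod l) = 0 := (ZMod.natCast_eq_zero_iff _ _).2 ht0
    rw [h3, ZMod.natCast_eq_zero_iff] at h2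
    obtain ⟨u, hu⟩ := h2
    rw [ht, hu, ← pow_mul]
    have : l * u * (c * b) = c * (l * b) * u := by ring
    rw [this, pow_mul, (pr_prim hN0).pow_eq_one, one_pow]
  have hlt : b < a := by
    rw [hab]
    have := hl.two_le
    nlinarith [Nat.pos_of_ne_zero hb]
  exact Nat.find_min hex hlt ⟨Nat.pos_of_ne_zero hb, hall⟩

/-- `c ≥ 7`: the values are `2c`-th roots of unity, and `c`-th roots of unity for even `c` -/
theorem reduce_seven {c : ℕ} {w : ℕ → ℂ} (hc : 7 ≤ c) (h : Good c w) (h0 : w 0 = 1) :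
    (∀ j, w j ^ (2 * c) = 1) ∧ (2 ∣ c → ∀ j, w j ^ c = 1) := by
  obtain ⟨a, ha, h1, h2⟩ := reduce (by omega) h h0
  have h3 : a = 1 ∨ (a = 2 ∧ ¬ 2 ∣ c) := by
    by_cases h4 : a = 1
    · exact Or.inl h4
    right
    obtain ⟨l, hl, hla⟩ := Nat.exists_prime_and_dvd h4
    have h5 := (h2 l hl hla).2.2 hc
    subst h5
    obtain ⟨b, hb⟩ := hla
    have h6 : b = 1 := by
      by_contra h7
      obtain ⟨l', hl', hlb⟩ := Nat.exists_prime_and_dvd h7
      have h8 := (h2 l' hl' (by rw [hb]; exact Dvd.dvd.mul_left hlb 2)).2.2 hc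
      subst h8
      apply (h2 2 hl ⟨b, hb⟩).1
      rw [hb, Nat.mul_div_cancel_left _ (by norm_num)]
      exact Dvd.dvd.mul_left hlb c
    refine ⟨by rw [hb, h6], fun h7 => (h2 2 hl ⟨b, hb⟩).1 (Dvd.dvd.mul_right h7 _)⟩
  rcases h3 with h3 | ⟨h3, h4⟩
  · subst h3
    simp only [mul_one] at h1
    exact ⟨fun j => by rw [mul_comm, pow_mul, h1, one_pow], fun _ => h1⟩
  · subst h3
    exact ⟨fun j => by rw [mul_comm]; exact h1 j, fun h5 => absurd h5 h4⟩

theorem squarefree_small {c a : ℕ} (ha : 0 < a)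
    (h2 : ∀ l : ℕ, l.Prime → l ∣ a → ¬ l ∣ c * (a / l) ∧ l ≤ 6 ∧ (7 ≤ c → l = 2)) :
    a ∣ 30 := by
  have hsq : Squarefree a := by
    rw [Nat.squarefree_iff_prime_squarefree]
    intro x hx hxx
    apply (h2 x hx (Dvd.dvd.trans (Dvd.intro x rfl) hxx)).1
    obtain ⟨b, hb⟩ := hxx
    have : a / x = x * b := by rw [hb, mul_assoc, Nat.mul_div_cancel_left _ hx.pos]
    rw [this]
    exact ⟨c * b, by ring⟩
  have h3 : a.primeFactors ⊆ {2, 3, 5} := by
    intro l hl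
    have hlp := Nat.prime_of_mem_primeFactors hl
    have hla := Nat.dvd_of_mem_primeFactors hl
    have h4 := (h2 l hlp hla).2.1
    have h5 := hlp.two_le
    interval_cases l
    · simp
    · simp
    · revert hlp; decide
    · simp
    · revert hlp; decide
  rw [← Nat.prod_primeFactors_of_squarefree hsq]
  exact (Finset.prod_dvd_prod_of_subset _ _ _ h3).trans (by decide)

theorem reduce_five {w : ℕ → ℂ} (h : Good 5 w) (h0 : w 0 = 1) : ∀ j, w j ^ 30 = 1 := by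
  obtain ⟨a, ha, h1, h2⟩ := reduce (by omega) h h0
  have h3 := squarefree_small ha h2
  have h5 : ¬ 5 ∣ a := fun h6 => (h2 5 (by norm_num) h6).1 (Dvd.intro _ rfl)
  have h6 : a ∣ 6 := by
    have : a ∣ 6 * 5 := h3
    exact (Nat.Coprime.dvd_mul_right ((Nat.Prime.coprime_iff_not_dvd (by norm_num)).2 h5).symm).1 this
  obtain ⟨b, hb⟩ := h6
  intro j
  have : 30 = 5 * a * b := by
    have h7 : 5 * (a * b) = 5 * 6 := by rw [← hb]
    rw [mul_assoc, h7]
  rw [this, pow_mul, h1, one_pow]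

theorem reduce_six {w : ℕ → ℂ} (h : Good 6 w) (h0 : w 0 = 1) : ∀ j, w j ^ 30 = 1 := by
  obtain ⟨a, ha, h1, h2⟩ := reduce (by omega) h h0
  have h3 := squarefree_small ha h2
  have h4 : ¬ 2 ∣ a := fun h6 => (h2 2 (by norm_num) h6).1 (Dvd.dvd.mul_right (by norm_num) _)
  have h5 : ¬ 3 ∣ a := fun h6 => (h2 3 (by norm_num) h6).1 (Dvd.dvd.mul_right (by norm_num) _)
  have h6 : a ∣ 5 := by
    have h7 : a ∣ 5 * (2 * 3) := h3
    have h8 : Nat.Coprime a (2 * 3) := Nat.Coprime.mul_right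
      ((Nat.Prime.coprime_iff_not_dvd (by norm_num)).2 h4).symm
      ((Nat.Prime.coprime_iff_not_dvd (by norm_num)).2 h5).symm
    exact (Nat.Coprime.dvd_mul_right h8).1 h7
  obtain ⟨b, hb⟩ := h6
  intro j
  have : 30 = 6 * a * b := by
    have h7 : 6 * (a * b) = 6 * 5 := by rw [← hb]
    rw [mul_assoc, h7]
  rw [this, pow_mul, h1, one_pow]

end Pool.Agent.H59.Ex
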