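import Pool.Agent.H59.Ex.Four
import Pool.Agent.H59.Ex.Prime

set_option autoImplicit false

namespace Pool.Agent.H59.Ex

open Complex

/-- two sequences are related by rotations of the source and of the target and by inversion -/
def SRel (n : ℕ) (w v : ℕ → ℂ) : Prop :=
  ∃ (κ : ℂ) (s : ℕ), κ ^ n = 1 ∧
    ((∀ j, v j = κ * w (j + s)) ∨ (∀ j, v j = κ * (w (j + s))⁻¹))

theorem SRel.refl (n : ℕ) (w : ℕ → ℂ) : SRel n w w :=
  ⟨1, 0, one_pow n, Or.inl fun j => by simp⟩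

theorem SRel.rot (n : ℕ) (w : ℕ → ℂ) (κ : ℂ) (s : ℕ) (h : κ ^ n = 1) :
    SRel n w (fun j => κ * w (j + s)) :=
  ⟨κ, s, h, Or.inl fun _ => rfl⟩

theorem SRel.inv (n : ℕ) (w : ℕ → ℂ) : SRel n w (fun j => (w j)⁻¹) :=
  ⟨1, 0, one_pow n, Or.inr fun j => by simp⟩

theorem SRel.trans {n : ℕ} {w v u : ℕ → ℂ} (h1 : SRel n w v) (h2 : SRel n v u) : SRel n w u := by
  obtain ⟨κ, s, hκ, h⟩ := h1
  obtain ⟨κ', s', hκ', h'⟩ := h2
  rcases h with h | h <;> rcases h' with h' | h'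
  · refine ⟨κ' * κ, s' + s, by rw [mul_pow, hκ, hκ', one_mul], Or.inl fun j => ?_⟩
    rw [h', h, mul_assoc, add_assoc]
  · refine ⟨κ' * κ⁻¹, s' + s, by rw [mul_pow, inv_pow, hκ, hκ', inv_one, one_mul], Or.inr fun j => ?_⟩
    rw [h', h, mul_inv, mul_assoc, add_assoc]
  · refine ⟨κ' * κ, s' + s, by rw [mul_pow, hκ, hκ', one_mul], Or.inr fun j => ?_⟩
    rw [h', h, mul_assoc, add_assoc]
  · refine ⟨κ' * κ⁻¹, s' + s, by rw [mul_pow, inv_pow, hκ, hκ', inv_one, one_mul], Or.inl fun j => ?_⟩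
    rw [h', h, mul_inv, inv_inv, mul_assoc, add_assoc]

theorem SRel.per {n c : ℕ} {w v : ℕ → ℂ} (h1 : SRel n w v) (hper : ∀ j, w (j + c) = w j) :
    ∀ j, v (j + c) = v j := by
  obtain ⟨κ, s, hκ, h⟩ := h1
  intro j
  rcases h with h | h
  · rw [h, h, show j + c + s = j + s + c by ring, hper]
  · rw [h, h, show j + c + s = j + s + c by ring, hper]

theorem per_mul {c : ℕ} {w : ℕ → ℂ} (hper : ∀ j, w (j + c) = w j) (j k : ℕ) :
    w (j + c * k) = w j := by
  induction k with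
  | zero => simp
  | succ k ih => rw [Nat.mul_succ, ← add_assoc, hper, ih]

theorem per_mod {c : ℕ} {w : ℕ → ℂ} (hper : ∀ j, w (j + c) = w j) (j : ℕ) :
    w (j % c) = w j := by
  conv_rhs => rw [← Nat.mod_add_div j c]
  rw [per_mul hper]

theorem SRel.symm {n c : ℕ} (hc : 0 < c) {w v : ℕ → ℂ} (h1 : SRel n w v)
    (hper : ∀ j, w (j + c) = w j) (hn : 0 < n) : SRel n v w := by
  obtain ⟨κ, s, hκ, h⟩ := h1
  have hκ0 : κ ≠ 0 := by
    rintro rfl
    rw [zero_pow hn.ne'] at hκ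
    exact zero_ne_one hκ
  have hs : s ≤ c * s := Nat.le_mul_of_pos_left s hc
  have e : ∀ j, j + (c * s - s) + s = j + c * s := by intro j; omega
  rcases h with h | h
  · refine ⟨κ⁻¹, c * s - s, by rw [inv_pow, hκ, inv_one], Or.inl fun j => ?_⟩
    rw [h, e, per_mul hper, inv_mul_cancel_left₀ hκ0]
  · refine ⟨κ, c * s - s, hκ, Or.inr fun j => ?_⟩
    rw [h, e, per_mul hper, mul_inv, inv_inv, mul_inv_cancel_left₀ hκ0]

/-- the standard tuples of exponents -/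
def Std (c d : ℕ) (t : List ℕ) : Prop :=
  (c = 4 ∧ ∃ a, 0 < a ∧ a < d ∧ t = [0, a, 2 * a, 2 * d + a]) ∨
  (c = 4 ∧ ∃ m, 0 < m ∧ d = 3 * m ∧ t = [0, m, 3 * m, 10 * m]) ∨
  (c = 5 ∧ ∃ m, 0 < m ∧ d = 2 * m ∧ t = [0, m, 2 * m, 4 * m, 8 * m]) ∨
  (c = 5 ∧ ∃ m, 0 < m ∧ d = 6 * m ∧
    (t = [0, m, 2 * m, 5 * m, 27 * m] ∨ t = [0, 2 * m, 4 * m, 9 * m, 25 * m] ∨
     t = [0, 2 * m, 5 * m, 16 * m, 27 * m] ∨ t = [0, 4 * m, 9 * m, 17 * m, 25 * m]))

/-- the conclusion of the classification -/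
def Concl (c d : ℕ) (w : ℕ → ℂ) : Prop :=
  ∃ (v : ℕ → ℂ) (t : List ℕ), SRel (c * d) w v ∧ Std c d t ∧
    ∀ j < c, v j = pr (c * d) ^ (t.getD j 0)

theorem Concl.of_rel {c d : ℕ} {w w' : ℕ → ℂ} (h : SRel (c * d) w w') (h' : Concl c d w') :
    Concl c d w := by
  obtain ⟨v, t, h1, h2, h3⟩ := h'
  exact ⟨v, t, h.trans h1, h2, h3⟩

theorem pr_two_mul (d : ℕ) (hd : 0 < d) : pr (4 * d) ^ (2 * d) = -1 := by
  have h1 : (pr (4 * d) ^ (2 * d)) ^ 2 = 1 ^ 2 := by
    rw [← pow_mul, show 2 * d * 2 = 4 * d by ring, (pr_prim (by omega)).pow_eq_one, one_pow]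
  rcases sq_eq_sq_iff_eq_or_eq_neg.1 h1 with h | h
  · exfalso
    have := (pr_prim (n := 4 * d) (by omega)).dvd_of_pow_eq_one _ h
    have := Nat.le_of_dvd (by omega) this
    omega
  · exact h

section four
variable {d : ℕ} {w : ℕ → ℂ}

theorem kite1 (hd : 0 < d) (hper : ∀ j, w (j + 4) = w j) (h0 : w 0 ≠ 0)
    (hw : ∀ j, w j ^ (4 * d) = 1) (h2 : w 2 = -w 0) (h13 : w 1 * w 3 = w 0 ^ 2) {a : ℕ}
    (ha : w 1 = pr (4 * d) ^ a * w 0) (a0 : 0 < a) (a2 : a < 2 * d) (ad : a ≠ d) :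
    Concl 4 d w := by
  have hp0 : pr (4 * d) ^ a ≠ 0 := pow_ne_zero _ (pr_ne_zero _)
  have e3 : w 3 * pr (4 * d) ^ a = w 0 := by
    rw [ha] at h13
    apply mul_left_cancel₀ h0
    linear_combination h13
  have h3 : w 3 ≠ 0 := by
    intro h; rw [h, zero_mul] at e3; exact h0 e3.symm
  have h1 : w 1 ≠ 0 := by rw [ha]; exact mul_ne_zero hp0 h0
  have w4 : w 4 = w 0 := hper 0
  have w5 : w 5 = w 1 := hper 1
  have w6 : w 6 = w 2 := hper 2
  have two := pr_two_mul d hd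
  rcases lt_or_gt_of_ne ad with had | had
  · refine ⟨fun j => (w 3)⁻¹ * w (j + 3), [0, a, 2 * a, 2 * d + a], SRel.rot _ _ _ _ ?_,
      Or.inl ⟨rfl, a, a0, had, rfl⟩, ?_⟩
    · rw [inv_pow, hw, inv_one]
    · intro j hj
      interval_cases j
      · simp [h3]
      · simp only [List.getD_cons_succ, List.getD_cons_zero]
        rw [inv_mul_eq_iff_eq_mul₀ h3, show 1 + 3 = 4 by norm_num, w4, e3]
      · simp only [List.getD_cons_succ, List.getD_cons_zero]
        rw [inv_mul_eq_iff_eq_mul₀ h3, show 2 + 3 = 5 by norm_num, w5, ha, ← e3, two_mul, pow_add]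
        ring
      · simp only [List.getD_cons_succ, List.getD_cons_zero]
        rw [inv_mul_eq_iff_eq_mul₀ h3, show 3 + 3 = 6 by norm_num, w6, h2, pow_add, two, ← e3]
        ring
  · obtain ⟨b, hb⟩ : ∃ b, 2 * d = a + b := ⟨2 * d - a, by omega⟩
    have hPp : pr (4 * d) ^ a * pr (4 * d) ^ b = -1 := by rw [← pow_add, ← hb, two]
    refine ⟨fun j => (w 1)⁻¹ * w (j + 1), [0, b, 2 * b, 2 * d + b], SRel.rot _ _ _ _ ?_,
      Or.inl ⟨rfl, b, by omega, by omega, rfl⟩, ?_⟩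
    · rw [inv_pow, hw, inv_one]
    · intro j hj
      interval_cases j
      · simp [h1]
      · simp only [List.getD_cons_succ, List.getD_cons_zero]
        rw [inv_mul_eq_iff_eq_mul₀ h1, show 1 + 1 = 2 by norm_num, h2, ha]
        linear_combination (-w 0) * hPp
      · simp only [List.getD_cons_succ, List.getD_cons_zero]
        rw [inv_mul_eq_iff_eq_mul₀ h1, show 2 + 1 = 3 by norm_num, ha, ← e3, two_mul, pow_add]
        linear_combination (-w 3) * (pr (4 * d) ^ a * pr (4 * d) ^ b - 1) * hPp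
      · simp only [List.getD_cons_succ, List.getD_cons_zero]
        rw [inv_mul_eq_iff_eq_mul₀ h1, show 3 + 1 = 4 by norm_num, w4, ha, pow_add, two]
        linear_combination (w 0) * hPp

theorem kite2 (hd : 0 < d) (hper : ∀ j, w (j + 4) = w j) (h0 : w 0 ≠ 0)
    (hw : ∀ j, w j ^ (4 * d) = 1) (h2 : w 2 = -w 0) (h13 : w 1 * w 3 = w 0 ^ 2) {a : ℕ}
    (ha : w 1 = pr (4 * d) ^ a * w 0) (a0 : 0 < a) (a4 : a < 4 * d) (ad : a ≠ d) (ad2 : a ≠ 2 * d)
    (ad3 : a ≠ 3 * d) : Concl 4 d w := by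
  rcases lt_or_gt_of_ne ad2 with h | h
  · exact kite1 hd hper h0 hw h2 h13 ha a0 h ad
  · refine Concl.of_rel (SRel.inv _ _) (kite1 hd (w := fun j => (w j)⁻¹) ?_ ?_ ?_ ?_ ?_
      (a := 4 * d - a) ?_ (by omega) (by omega) (by omega))
    · intro j; simp only [hper]
    · exact inv_ne_zero h0
    · intro j; simp only [inv_pow, hw, inv_one]
    · simp only [h2, inv_neg]
    · simp only [← mul_inv, h13, inv_pow]
    · simp only [ha, mul_inv]
      congr 1
      exact inv_eq_of_mul_eq_one_left (by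
        rw [← pow_add, Nat.sub_add_cancel a4.le, (pr_prim (by omega)).pow_eq_one])

theorem Good.per {c : ℕ} (hc : c ≠ 0) {w : ℕ → ℂ} (h : Good c w) (j : ℕ) : w (j + c) = w j := by
  apply h.congr
  rw [pow_add, (pr_prim hc).pow_eq_one, mul_one]

theorem four_kite (hd : 0 < d) (h : Good 4 w) (hw : ∀ j, w j ^ (4 * d) = 1) (h2 : w 2 = -w 0)
    (h13 : w 1 * w 3 = w 0 ^ 2) : Concl 4 d w := by
  have h0 := h.ne_zero 0
  have hN : 4 * d ≠ 0 := by omega
  have : NeZero (4 * d) := ⟨hN⟩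
  have n01 : pr 4 ^ 0 ≠ pr 4 ^ 1 := pr_pow_ne' (by norm_num) (by norm_num) (by norm_num) (by norm_num)
  have n12 : pr 4 ^ 1 ≠ pr 4 ^ 2 := pr_pow_ne' (by norm_num) (by norm_num) (by norm_num) (by norm_num)
  have n02 : pr 4 ^ 0 ≠ pr 4 ^ 2 := pr_pow_ne' (by norm_num) (by norm_num) (by norm_num) (by norm_num)
  have h4d : pr 4 = pr (4 * d) ^ d := (pr_pow_mul 4 d hd.ne').symm
  have h42 : pr 4 ^ 2 = -1 := by rw [h4d, ← pow_mul, mul_comm d 2, pr_two_mul d hd]
  have h1x : (w 1 / w 0) ^ (4 * d) = 1 := by rw [div_pow, hw, hw, div_one]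
  obtain ⟨a, ha4, ha⟩ := (pr_prim hN).eq_pow_of_pow_eq_one h1x
  have ha' : w 1 = pr (4 * d) ^ a * w 0 := by rw [ha, div_mul_cancel₀ _ h0]
  refine kite2 hd (Good.per (by norm_num) h) h0 hw h2 h13 ha' ?_ ha4 ?_ ?_ ?_
  · apply Nat.pos_of_ne_zero
    rintro rfl
    rw [pow_zero, one_mul] at ha'
    exact h.inj n01 ha'.symm
  · rintro rfl
    refine h.not_rot (w 0) n01 n12 n02 (by simp) ?_ ?_
    · rw [ha', ← h4d]; ring
    · rw [h2, h42]; ring
  · rintro rfl
    rw [pr_two_mul d hd] at ha'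
    exact h.inj n12 (by rw [ha', h2]; ring)
  · rintro rfl
    refine h.not_inv (w 0) n01 n12 n02 (by simp) ?_ ?_
    · rw [ha', mul_comm 3 d, pow_mul, ← h4d]
      linear_combination (w 0) * (pr 4 ^ 2 - 1) * h42
    · rw [h2, h42]; ring

/-- the second kind of kite -/
theorem four_kite' (hd : 0 < d) (h : Good 4 w) (hw : ∀ j, w j ^ (4 * d) = 1) (h3 : w 3 = -w 1)
    (h02 : w 0 * w 2 = w 1 ^ 2) : Concl 4 d w := by
  have hr := SRel.rot (4 * d) w 1 1 (one_pow _)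
  refine Concl.of_rel hr (four_kite hd (h.rotate 1 ⟨1, one_pos, one_pow _⟩) ?_ ?_ ?_)
  · intro j; simp only [one_mul, hw]
  · simp only [one_mul]; exact h3
  · have := Good.per (by norm_num) h 0
    simp only [one_mul]
    rw [show 1 + 1 = 2 by norm_num, show 3 + 1 = 0 + 4 by norm_num, this,
      show 0 + 1 = 1 by norm_num, ← h02]
    ring

end four

/-- undo a rotation of a standard tuple -/
theorem unrotate {c N0 n s ε : ℕ} (hc : 0 < c) (hN0 : 0 < N0) {w : ℕ → ℂ} {t : ℕ → ℕ} {S : List ℕ}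
    (hper : ∀ j, w (j + c) = w j) (hwn : ∀ j, w j ^ n = 1) (hs : s < c)
    (hε : ε = 1 ∨ ε = N0 - 1)
    (ht : ∀ j, w j = pr N0 ^ t j) (hS0 : S.getD 0 0 = 0) (hSs : S.getD s 0 < N0)
    (hS : ∀ j < c, t j = ε * (S.getD ((j + s) % c) 0 + (N0 - S.getD s 0)) % N0) :
    ∃ v, SRel n w v ∧ ∀ j < c, v j = pr N0 ^ (S.getD j 0) := by
  have hprim := pr_prim hN0.ne'
  have hp0 : pr N0 ≠ 0 := pr_ne_zero _
  have key : ∀ j < c, t ((j + (c - s)) % c) = ε * (S.getD j 0 + (N0 - S.getD s 0)) % N0 := by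
    intro j hj
    rw [hS _ (Nat.mod_lt _ hc)]
    have : ((j + (c - s)) % c + s) % c = j := by
      rw [Nat.mod_add_mod, show j + (c - s) + s = j + c by omega, Nat.add_mod_right,
        Nat.mod_eq_of_lt hj]
    rw [this]
  have hκ : ∀ κ : ℂ, (∃ j, κ * w j = 1 ∨ κ * (w j)⁻¹ = 1) → κ ^ n = 1 := by
    rintro κ ⟨j, h | h⟩
    · have := congrArg (· ^ n) h
      simp only [mul_pow, hwn, one_pow, mul_one] at this
      exact this
    · have := congrArg (· ^ n) h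
      simp only [mul_pow, inv_pow, hwn, one_pow, mul_one, inv_one] at this
      exact this
  rcases hε with rfl | rfl
  · have h1 : ∀ j < c, pr N0 ^ (S.getD s 0) * w (j + (c - s)) = pr N0 ^ (S.getD j 0) := by
      intro j hj
      rw [← per_mod hper, ht, key j hj, one_mul, ← pow_add]
      apply pr_pow_eq hN0.ne'
      push_cast
      rw [ZMod.natCast_mod]
      push_cast [Nat.cast_sub hSs.le]
      rw [ZMod.natCast_self]
      ring
    refine ⟨fun j => pr N0 ^ (S.getD s 0) * w (j + (c - s)), SRel.rot _ _ _ _ ?_, h1⟩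
    apply hκ
    refine ⟨0 + (c - s), Or.inl ?_⟩
    rw [h1 0 hc, hS0, pow_zero]
  · have h1 : ∀ j < c, pr N0 ^ (S.getD s 0) * (w (j + (c - s)))⁻¹ = pr N0 ^ (S.getD j 0) := by
      intro j hj
      rw [← per_mod hper, ht, key j hj, mul_inv_eq_iff_eq_mul₀ (pow_ne_zero _ hp0), ← pow_add]
      apply pr_pow_eq hN0.ne'
      push_cast
      rw [ZMod.natCast_mod]
      push_cast [Nat.cast_sub hSs.le, Nat.cast_sub (show 1 ≤ N0 from hN0)]
      rw [ZMod.natCast_self]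
      ring
    refine ⟨fun j => pr N0 ^ (S.getD s 0) * (w (j + (c - s)))⁻¹,
      ⟨_, c - s, ?_, Or.inr fun j => rfl⟩, h1⟩
    apply hκ
    refine ⟨0 + (c - s), Or.inr ?_⟩
    rw [h1 0 hc, hS0, pow_zero]

theorem dvd_of_pow {N0 n : ℕ} (hN0 : 0 < N0) (h : pr N0 ^ n = 1) : N0 ∣ n :=
  (pr_prim hN0.ne').dvd_of_pow_eq_one _ h

theorem SRel.root {n : ℕ} {w v : ℕ → ℂ} (h : SRel n w v) (hw : ∀ j, w j ^ n = 1) (j : ℕ) :
    v j ^ n = 1 := by
  obtain ⟨κ, s, hκ, h | h⟩ := h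
  · rw [h, mul_pow, hκ, hw, one_mul]
  · rw [h, mul_pow, inv_pow, hκ, hw, inv_one, one_mul]

def good4 (T : List ℕ) : Bool :=
  (T.getD 1 0 == 6 && (T.getD 0 0 + T.getD 2 0) % 12 == 0) ||
  (((T.getD 2 0) % 12 == (T.getD 0 0 + 6) % 12 && (T.getD 1 0) % 12 == (2 * T.getD 0 0) % 12) ||
    (List.range 4).any fun s => [1, 11].any fun ε =>
      (0 :: T) == (List.range 4).map fun j =>
        ε * ([0, 1, 3, 10].getD ((j + s) % 4) 0 + (12 - [0, 1, 3, 10].getD s 0)) % 12)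

theorem class4 {d : ℕ} (hd : 0 < d) {w : ℕ → ℂ} (h : Good 4 w) (hw : ∀ j, w j ^ (4 * d) = 1) :
    Concl 4 d w := by
  -- normalization
  have hn := h.normalize
  have h0 := h.ne_zero 0
  have hrel : SRel (4 * d) w (fun j => (w 0)⁻¹ * w j) :=
    SRel.rot _ _ _ 0 (by rw [inv_pow, hw, inv_one])
  apply Concl.of_rel hrel
  have hw' : ∀ j, (fun j => (w 0)⁻¹ * w j) j ^ (4 * d) = 1 := by
    intro j; simp only [mul_pow, inv_pow, hw, inv_one, one_mul]
  have hv0 : (fun j => (w 0)⁻¹ * w j) 0 = 1 := inv_mul_cancel₀ h0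
  generalize (fun j => (w 0)⁻¹ * w j) = v at hn hw' hv0
  clear hrel hw h h0
  have n01 : pr 4 ^ 0 ≠ pr 4 ^ 1 := pr_pow_ne' (by norm_num) (by norm_num) (by norm_num) (by norm_num)
  have n02 : pr 4 ^ 0 ≠ pr 4 ^ 2 := pr_pow_ne' (by norm_num) (by norm_num) (by norm_num) (by norm_num)
  have n03 : pr 4 ^ 0 ≠ pr 4 ^ 3 := pr_pow_ne' (by norm_num) (by norm_num) (by norm_num) (by norm_num)
  have n12 : pr 4 ^ 1 ≠ pr 4 ^ 2 := pr_pow_ne' (by norm_num) (by norm_num) (by norm_num) (by norm_num)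
  have n13 : pr 4 ^ 1 ≠ pr 4 ^ 3 := pr_pow_ne' (by norm_num) (by norm_num) (by norm_num) (by norm_num)
  have n23 : pr 4 ^ 2 ≠ pr 4 ^ 3 := pr_pow_ne' (by norm_num) (by norm_num) (by norm_num) (by norm_num)
  have hI2 : pr 4 ^ 2 = -1 := by
    have := pr_two_mul 1 one_pos
    simpa using this
  have hR : 2 * (v 2 + v 1 * v 3) = (1 + v 2) * (v 1 + v 3) := by
    have h1 := hn.sym 0 1 2 3
    have hI3 : pr 4 ^ 3 = -pr 4 := by linear_combination pr 4 * hI2
    rw [hv0, pow_zero, pow_one, hI2, hI3] at h1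
    have hI0 : pr 4 ≠ 0 := pr_ne_zero 4
    have h2 : (2 * pr 4) * (2 * (v 2 + v 1 * v 3) - (1 + v 2) * (v 1 + v 3)) = 0 := by
      linear_combination -h1 + (v 3 + v 1 * v 2 - v 1 - v 2 * v 3) * hI2
    have := (mul_eq_zero.1 h2).resolve_left (mul_ne_zero two_ne_zero hI0)
    linear_combination this
  have hroot : ∀ j, ∃ n, 0 < n ∧ v j ^ n = 1 := fun j => ⟨4 * d, by omega, hw' j⟩
  have hcases := four_points (hroot 1) (hroot 2) (hroot 3) (by rw [← hv0]; exact hn.inj n01)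
    (by rw [← hv0]; exact hn.inj n02) (by rw [← hv0]; exact hn.inj n03) (hn.inj n12) (hn.inj n13)
    (hn.inj n23) hR
  rcases hcases with ⟨c1, c2⟩ | ⟨c1, c2⟩ | ⟨c1, c2, c3⟩
  · exact four_kite hd hn hw' (by rw [hv0]; exact c1) (by rw [hv0, one_pow]; exact c2)
  · exact four_kite' hd hn hw' c1 (by rw [hv0, one_mul]; exact c2)
  · -- all twelfth roots of unity
    have h12 : ∀ j, v j ^ (4 * 3) = 1 := by
      intro j
      rw [← per_mod (Good.per (by norm_num) hn) j]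
      have : j % 4 < 4 := Nat.mod_lt _ (by norm_num)
      interval_cases j % 4
      · rw [hv0, one_pow]
      · exact c1
      · exact c3
      · exact c2
    obtain ⟨t, ht, htN⟩ := exists_exps (N := 4 * 3) (by norm_num) h12
    have hgood : good4 (t 1 :: t 2 :: [3].map t) = true :=
      chkTop_sound (c := 4) (b := 3) (by norm_num) (by norm_num) (q := 37) (g := 8) (by norm_num)
        (primChk_sound (by norm_num) (by decide +kernel)) hn hv0 ht htN (d := 1) (by norm_num)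
        (one_dvd _) (one_dvd _) n01 n02 n12 (by norm_num) (by decide +kernel)
    have t0 : t 0 = 0 := by
      have h2 := ht 0
      rw [hv0] at h2
      have h3 := (pr_prim (n := 4 * 3) (by norm_num)).dvd_of_pow_eq_one _ h2.symm
      have := htN 0
      omega
    rw [good4, Bool.or_eq_true, Bool.or_eq_true] at hgood
    rcases hgood with h1 | h1 | h1
    · rw [Bool.and_eq_true, beq_iff_eq, beq_iff_eq] at h1
      simp at h1
      obtain ⟨h1, h2⟩ := h1
      apply four_kite hd hn hw'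
      · rw [hv0, ht, h1, show (6 : ℕ) = 2 * 3 by norm_num, pr_two_mul 3 (by norm_num)]
      · rw [hv0, ht, ht, ← pow_add, one_pow]
        exact ((pr_prim (n := 4 * 3) (by norm_num)).pow_eq_one_iff_dvd _).2 (by omega)
    · rw [Bool.and_eq_true, beq_iff_eq, beq_iff_eq] at h1
      simp at h1
      obtain ⟨h1, h2⟩ := h1
      apply four_kite' hd hn hw'
      · rw [ht, ht]
        have : pr (4 * 3) ^ t 3 = pr (4 * 3) ^ (t 1 + 2 * 3) :=
          pow_eq_pow_of_modEq h1 (pr_prim (by norm_num)).pow_eq_one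
        rw [this, pow_add, pr_two_mul 3 (by norm_num)]
        ring
      · have : pr (4 * 3) ^ t 2 = pr (4 * 3) ^ (2 * t 1) :=
          pow_eq_pow_of_modEq h2 (pr_prim (by norm_num)).pow_eq_one
        rw [hv0, ht, ht, one_mul, this, mul_comm 2 (t 1), pow_mul]
    · rw [List.any_eq_true] at h1
      obtain ⟨s, hs, h1⟩ := h1
      rw [List.any_eq_true] at h1
      obtain ⟨ε, hε, h1⟩ := h1
      rw [beq_iff_eq] at h1
      have hs4 : s < 4 := List.mem_range.1 hs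
      have hS : ∀ j < 4, t j =
          ε * ([0, 1, 3, 10].getD ((j + s) % 4) 0 + (12 - [0, 1, 3, 10].getD s 0)) % 12 := by
        intro j hj
        have h2 : (0 :: t 1 :: t 2 :: [3].map t) = (List.range 4).map t := by
          rw [← t0]; rfl
        rw [h2] at h1
        exact (List.map_inj_left.1 h1) j (List.mem_range.2 hj)
      obtain ⟨u, hu, hu'⟩ := unrotate (c := 4) (N0 := 12) (n := 4 * d) (s := s) (ε := ε)
        (S := [0, 1, 3, 10]) (by norm_num) (by norm_num) (Good.per (by norm_num) hn) hw' hs4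
        (by simpa using hε) ht rfl (by interval_cases s <;> simp) hS
      have hu1 := hu' 1 (by norm_num)
      simp at hu1
      have hroot := hu.root hw' 1
      rw [hu1] at hroot
      have hdvd := dvd_of_pow (by norm_num) hroot
      obtain ⟨m, hm⟩ : 3 ∣ d := by omega
      subst hm
      have hm0 : 0 < m := by omega
      refine ⟨u, [0, m, 3 * m, 10 * m], hu, Or.inr (Or.inl ⟨rfl, m, hm0, rfl, rfl⟩), ?_⟩
      intro j hj
      rw [hu' j hj]
      have e : pr 12 = pr (4 * (3 * m)) ^ m := by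
        rw [← mul_assoc]; exact (pr_pow_mul 12 m hm0.ne').symm
      rw [e, ← pow_mul]
      congr 1
      interval_cases j <;> simp <;> ring

end Pool.Agent.H59.Ex
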